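import Pool.Agent.H50.CW.Stm

/-! CW-RATE (helper31): the rate function of the Poisson distribution. -/

set_option autoImplicit false

open MeasureTheory Filter
open scoped Topology ENNReal

namespace Pool.Agent.H50.CW

namespace RateAux

/-- `x log x - x + 1` -/
noncomputable def F (x : ℝ) : ℝ := x * Real.log x - x + 1

lemma F_cont : Continuous F := (Real.continuous_mul_log.sub continuous_id).add continuous_const

lemma F_deriv {x : ℝ} (hx : x ≠ 0) : HasDerivAt F (Real.log x) x := by
  have h1 := ((Real.hasDerivAt_mul_log hx).sub (hasDerivAt_id x)).add_const 1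
  refine h1.congr_deriv ?_
  ring

lemma F_mono : StrictMonoOn F (Set.Ici 1) := by
  refine strictMonoOn_of_deriv_pos (convex_Ici 1) F_cont.continuousOn fun x hx => ?_
  rw [interior_Ici, Set.mem_Ioi] at hx
  rw [(F_deriv (by linarith)).deriv]
  exact Real.log_pos hx

lemma F_anti : StrictAntiOn F (Set.Icc 0 1) := by
  refine strictAntiOn_of_deriv_neg (convex_Icc 0 1) F_cont.continuousOn fun x hx => ?_
  rw [interior_Icc, Set.mem_Ioo] at hx
  rw [(F_deriv (by linarith)).deriv]
  exact Real.log_neg hx.1 hx.2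

lemma F_zero : F 0 = 1 := by simp [F]

lemma F_one : F 1 = 0 := by simp [F]

lemma I_eq {l : ℝ} (hl : 0 < l) (u : ℝ) : u * Real.log (u / l) - u + l = l * F (u / l) := by
  unfold F
  have h : l * (u / l) = u := by field_simp
  calc u * Real.log (u / l) - u + l = l * (u / l) * Real.log (u / l) - l * (u / l) + l := by rw [h]
    _ = l * (u / l * Real.log (u / l) - u / l + 1) := by ring

/-- the set of the definitions of `up`, `dn` -/
def St (l : ℝ) : Set ℝ := {u : ℝ | 0 ≤ u ∧ u * Real.log (u / l) - u + l ≤ 1}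

lemma mem_St {l : ℝ} (hl : 0 < l) (u : ℝ) : u ∈ St l ↔ 0 ≤ u ∧ l * F (u / l) ≤ 1 := by
  unfold St
  rw [Set.mem_setOf_eq, I_eq hl]

lemma self_mem {l : ℝ} (hl : 0 < l) : l ∈ St l := by
  rw [mem_St hl, div_self hl.ne', F_one]
  exact ⟨hl.le, by linarith⟩

lemma bdd {l : ℝ} (hl : 0 < l) : BddAbove (St l) := by
  refine ⟨max (Real.exp 2 * l) 1, fun u hu => ?_⟩
  by_contra hcon
  push Not at hcon
  obtain ⟨h1, h2⟩ := max_lt_iff.1 hcon
  obtain ⟨h3, h4⟩ := hu
  have h5 : Real.exp 2 ≤ u / l := by
    rw [le_div_iff₀ hl]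
    exact h1.le
  have h6 : 2 ≤ Real.log (u / l) := by
    rw [Real.le_log_iff_exp_le (lt_of_lt_of_le (Real.exp_pos 2) h5)]
    exact h5
  have h7 : u * 2 ≤ u * Real.log (u / l) := mul_le_mul_of_nonneg_left h6 h3
  linarith

lemma bdd_below (l : ℝ) : BddBelow (St l) := ⟨0, fun _ hu => hu.1⟩

lemma le_up {l u : ℝ} (hl : 0 < l) (hu : u ∈ St l) : u ≤ up l := le_csSup (bdd hl) hu

lemma dn_le {l u : ℝ} (hu : u ∈ St l) : dn l ≤ u := csInf_le (bdd_below l) hu

lemma val {l : ℝ} (hl : 0 < l) (u : ℝ) :
    l * ((1 + (u / l - 1)) * Real.log (1 + (u / l - 1)) - (u / l - 1)) = l * F (u / l) := by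
  unfold F
  have : 1 + (u / l - 1) = u / l := by ring
  rw [this]
  ring

lemma val' {l : ℝ} (hl : 0 < l) (u : ℝ) :
    u * Real.log (1 + (u / l - 1)) - (u / l - 1) * l = l * F (u / l) := by
  rw [← I_eq hl]
  have : 1 + (u / l - 1) = u / l := by ring
  rw [this]
  have h : u / l * l = u := by field_simp
  linear_combination -h

end RateAux

open RateAux in
theorem rate : S_RATE := by
  refine ⟨?_, ?_, ?_, ?_, ?_, ?_, ?_, ?_⟩
  · intro l u hl hu
    have h1 := le_up hl (self_mem hl)
    have hlu : l < u := lt_of_le_of_lt h1 hu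
    have h2 : u ∉ St l := fun h => absurd (le_up hl h) (not_le.2 hu)
    rw [mem_St hl] at h2
    have h3 : 1 < l * F (u / l) := by
      by_contra hcon
      exact h2 ⟨by linarith, not_lt.1 hcon⟩
    refine ⟨u / l - 1, ?_, ?_⟩
    · have : 1 < u / l := by rwa [one_lt_div hl]
      linarith
    · rw [val' hl]
      exact h3
  · intro l u hl hu
    rcases le_or_gt u l with h | h
    · refine ⟨0, le_rfl, by linarith, ?_⟩
      simp
    · obtain ⟨u₁, h1, h2⟩ := exists_lt_of_lt_csSup ⟨l, self_mem hl⟩ hu
      rw [mem_St hl] at h1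
      have h3 : 1 < u / l := by rwa [one_lt_div hl]
      have h4 : u / l < u₁ / l := div_lt_div_of_pos_right h2 hl
      have h5 := F_mono (Set.mem_Ici.2 h3.le) (Set.mem_Ici.2 (h3.trans h4).le) h4
      refine ⟨u / l - 1, by linarith, ?_, ?_⟩
      · have : (1 + (u / l - 1)) * l = u := by field_simp; ring
        rw [this]
      · rw [val hl]
        have := mul_lt_mul_of_pos_left h5 hl
        linarith [h1.2]
  · intro l u hl hu0 hu
    have h1 := dn_le (self_mem hl)
    have hul : u < l := lt_of_lt_of_le hu h1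
    have h2 : u ∉ St l := fun h => absurd (dn_le h) (not_le.2 hu)
    rw [mem_St hl] at h2
    have h3 : 1 < l * F (u / l) := by
      by_contra hcon
      exact h2 ⟨hu0, not_lt.1 hcon⟩
    rcases eq_or_lt_of_le hu0 with h0 | h0
    · rw [← h0, zero_div, F_zero, mul_one] at h3
      have h4 : 1 / l < 1 := by rwa [div_lt_one hl]
      have h5 : 0 < 1 / l := by positivity
      refine ⟨-(1 + 1 / l) / 2, by linarith, by linarith, ?_⟩
      rw [← h0, zero_mul]
      have h6 : 1 / l * l = 1 := by field_simp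
      have : 0 - -(1 + 1 / l) / 2 * l = (l + 1) / 2 := by linear_combination (1 / 2) * h6
      rw [this]
      linarith
    · refine ⟨u / l - 1, ?_, ?_, ?_⟩
      · have : 0 < u / l := by positivity
        linarith
      · have : u / l < 1 := by rwa [div_lt_one hl]
        linarith
      · rw [val' hl]
        exact h3
  · intro l u hl0 hu
    rcases eq_or_lt_of_le hl0 with h0 | hl
    · refine ⟨0, by norm_num, le_rfl, ?_, ?_⟩
      · rw [← h0] at hu ⊢
        have : 0 ≤ dn 0 := Real.sInf_nonneg fun x hx => hx.1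
        linarith
      · rw [← h0]
        norm_num
    · rcases le_or_gt l u with h | h
      · refine ⟨0, by norm_num, le_rfl, by linarith, ?_⟩
        simp
      · obtain ⟨u₁, h1, h2⟩ := exists_lt_of_csInf_lt ⟨l, self_mem hl⟩ hu
        rw [mem_St hl] at h1
        have h3 : u / l < 1 := by rwa [div_lt_one hl]
        have h4 : u₁ / l < u / l := div_lt_div_of_pos_right h2 hl
        have h6 : 0 ≤ u₁ / l := div_nonneg h1.1 hl.le
        have h5 := F_anti (Set.mem_Icc.2 ⟨h6, (h4.trans h3).le⟩)
          (Set.mem_Icc.2 ⟨(lt_of_le_of_lt h6 h4).le, h3.le⟩) h4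
        refine ⟨u / l - 1, ?_, by linarith, ?_, ?_⟩
        · have : 0 < u / l := lt_of_le_of_lt h6 h4
          linarith
        · have : (1 + (u / l - 1)) * l = u := by field_simp; ring
          rw [this]
        · rw [val hl]
          have := mul_lt_mul_of_pos_left h5 hl
          linarith [h1.2]
  · intro l hl1
    have hl : 0 < l := by linarith
    have key : ∃ u₀ : ℝ, Real.exp 1 ≤ u₀ ∧ l * F (u₀ / l) < 1 := by
      rcases le_or_gt (Real.exp 1) l with h | h
      · refine ⟨l, h, ?_⟩
        rw [div_self hl.ne', F_one]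
        linarith
      · refine ⟨Real.exp 1, le_rfl, ?_⟩
        rw [← I_eq hl, Real.log_div (Real.exp_pos 1).ne' hl.ne', Real.log_exp]
        obtain ⟨s, hs⟩ : ∃ s : ℝ, s = Real.log l := ⟨_, rfl⟩
        have hs0 : 0 < s := by rw [hs]; exact Real.log_pos hl1
        have hs1 : s < 1 := by
          rw [hs, Real.log_lt_iff_lt_exp hl]
          exact h
        have hle : l = Real.exp s := by rw [hs, Real.exp_log hl]
        rw [← hs]
        have hc := convexOn_exp.2 (Set.mem_univ (0 : ℝ)) (Set.mem_univ (1 : ℝ))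
          (by linarith : 0 ≤ 1 - s) hs0.le (by ring)
        simp only [smul_eq_mul, mul_zero, zero_add, mul_one, Real.exp_zero] at hc
        rw [hle]
        nlinarith
    obtain ⟨u₀, h0, h1⟩ := key
    have hcont : Continuous fun u : ℝ => l * F (u / l) :=
      continuous_const.mul (F_cont.comp (continuous_id.div_const l))
    have hopen : ∀ᶠ u in 𝓝 u₀, l * F (u / l) < 1 := hcont.continuousAt.eventually_lt_const h1
    obtain ⟨ε, hε, h2⟩ := Metric.eventually_nhds_iff.1 hopen
    have h3 := h2 (y := u₀ + ε / 2) (by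
      rw [Real.dist_eq, add_sub_cancel_left, abs_of_pos (by positivity)]
      linarith)
    have h4 : u₀ + ε / 2 ∈ St l := by
      rw [mem_St hl]
      have := Real.exp_pos 1
      exact ⟨by linarith, h3.le⟩
    have h5 := le_up hl h4
    linarith
  · intro l hl0 hl1
    have h0 : (0 : ℝ) ∈ St l := by
      refine ⟨le_rfl, ?_⟩
      rw [zero_mul]
      linarith
    exact le_antisymm (dn_le h0) (Real.sInf_nonneg fun x hx => hx.1)
  · intro l _
    exact Real.sInf_nonneg fun x hx => hx.1
  · intro l hl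
    exact le_up hl (self_mem hl)

end Pool.Agent.H50.CW
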