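import Pool.Agent.H50.BF.Stm

/-!
# Project CW: windows of length `C (log x)²` in the Banks-Ford-Tao random sieve

Continues project BF (same model, same notation: `MM`, `sv`, `Model`, `lv`, `Rset`, `lo`, `hi`).
Goal: for every `C > 0`, almost surely the number of elements of the random sieve in
`(x, x + C (log x)²]`, divided by `log x`, has the upper limit `up (C σ⁺)` and the lower limit
`dn (C σ⁻)`, where `σ⁺`, `σ⁻` are the extremal densities of the interval sieve at `s = 2` and `up λ`,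
`dn λ` are the thresholds of the large deviations of the Poisson distribution of mean `λ log x`.

Every stub `S_X` comes with its proof.  To prove `S_X`: file `Pool/Agent/H50/CW/X.lean`,
`import Pool.Agent.H50.CW.Stm`, namespace `Pool.Agent.H50.CW`, theorem `x : (used stubs) → S_X`
(lower case name; the stubs used may be taken as hypotheses, also stubs of BF such as
`Pool.Agent.H50.BF.S_TRANS`, which are all proved).  Keep helper lemmas in a private sub-namespace.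
-/

set_option autoImplicit false

open MeasureTheory Filter
open scoped Topology ENNReal

namespace Pool.Agent.H50.CW

open Pool.Agent.H50.BF

/-- `F` depends only on the residues modulo the primes `≤ q` -/
def Dep {β : Type} (q : ℕ) (F : (ℕ → ℕ) → β) : Prop :=
  ∀ b b' : ℕ → ℕ, (∀ p : ℕ, p.Prime → p ≤ q → b p % p = b' p % p) → F b = F b'

open Classical in
/-- the number of the survivors of level `v` in the window which are `≡ r (mod p)` -/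
noncomputable def cls (a : ℕ → ℕ) (v n U p r : ℕ) : ℕ :=
  ((Finset.range U).filter (fun k =>
    (∀ q : ℕ, q.Prime → q ≤ v → (n + k + 1) % q ≠ a q % q) ∧ (n + k + 1) % p = r)).card

/-- the number of pairs `(k, k')` with `p ∣ (n' + k') - (n + k)` -/
def prs (n n' U p : ℕ) : ℕ :=
  ((Finset.range U ×ˢ Finset.range U).filter (fun kk => p ∣ (n' + kk.2) - (n + kk.1))).card

/-! ## One prime -/

/-- STP (about 100 lines).  One step of the sieve by a prime `p` larger than the window.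
Proof.  Let `β = τ / (1 + τ)`, so `(1 + τ)⁻¹ = 1 - β`, `β < 1`.  Since `N r ∈ {0, 1}` (and `X ≥ 1` if some
`N r = 1`), `(1 + τ)^(X - N r) = (1 + τ)^X (1 - β N r)`, so the mean over `r` is `(1 + τ)^X (1 - β X / p)`.
First bound: Bernoulli `1 - X (β/p) ≤ (1 - β/p)^X` (`one_add_mul_le_pow`, `-2 ≤ -β/p`) and
`(1 + τ) (1 - β/p) = 1 + τ (1 - 1/p)`.
Second: with `y = β X / p`, `|y| ≤ 1/2`: `1 - y ≥ exp (-y - y²)` and `(1 - β/p)^X ≤ exp (-y)`.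
Third: the mean is `(1 + τ)^(X+Y) (1 - β (X + Y) / p + β² c / p)` with `c = ∑ N r N' r`; with
`y = β (X + Y) / p`, `|y| ≤ 1/2`, it is `≤ (1 + τ)^(X+Y) (1 - y) (1 + 2 β² c / p)`, then Bernoulli and
`1 + x ≤ exp x`. -/
def S_STP : Prop := ∀ p : ℕ, 2 ≤ p → ∀ τ : ℝ, -1 < τ → ∀ (N N' : ℕ → ℕ) (X Y : ℕ),
  (∀ r < p, N r ≤ 1) → (∀ r < p, N' r ≤ 1) →
  ∑ r ∈ Finset.range p, N r = X → ∑ r ∈ Finset.range p, N' r = Y →
  ((p : ℝ)⁻¹ * ∑ r ∈ Finset.range p, (1 + τ) ^ (X - N r) ≤ (1 + τ * (1 - (p : ℝ)⁻¹)) ^ X) ∧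
  (|τ| / (1 + τ) * ((X : ℝ) / p) ≤ 1 / 2 →
    Real.exp (-(|τ| / (1 + τ) * ((X : ℝ) / p)) ^ 2) * (1 + τ * (1 - (p : ℝ)⁻¹)) ^ X ≤
      (p : ℝ)⁻¹ * ∑ r ∈ Finset.range p, (1 + τ) ^ (X - N r)) ∧
  (|τ| / (1 + τ) * (((X : ℝ) + Y) / p) ≤ 1 / 2 →
    (p : ℝ)⁻¹ * ∑ r ∈ Finset.range p, (1 + τ) ^ ((X - N r) + (Y - N' r)) ≤
      Real.exp (2 * (|τ| / (1 + τ)) ^ 2 * (((∑ r ∈ Finset.range p, N r * N' r : ℕ) : ℝ) / p)) *
        (1 + τ * (1 - (p : ℝ)⁻¹)) ^ (X + Y))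

/-- WIN (about 100 lines).  The classes modulo a prime `p ≥ U` in a window of length `U`: the `k < U`
are distinct modulo `p`.  The last part: `∑_r N r N' r` counts the pairs `(k, k')` of survivors with
`n + k + 1 ≡ n' + k' + 1 (mod p)`. -/
def S_WIN : Prop := ∀ (a : ℕ → ℕ) (n U p : ℕ), p.Prime → U ≤ p →
  sv a p n U = sv a (p - 1) n U - cls a (p - 1) n U p (a p % p) ∧
  (∀ r < p, cls a (p - 1) n U p r ≤ 1) ∧
  ∑ r ∈ Finset.range p, cls a (p - 1) n U p r = sv a (p - 1) n U ∧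
  (∀ n' : ℕ, n + U ≤ n' →
    ∑ r ∈ Finset.range p, cls a (p - 1) n U p r * cls a (p - 1) n' U p r ≤ prs n n' U p)

/-- DIV (about 60 lines).  A pair `(k, k')` contributes `∑_{p ∣ d, p > q} 1/p ≤ log₂ Y / q`, where
`1 ≤ d = n' + k' - n - k ≤ Y` has at most `log₂ d` prime factors. -/
def S_DIV : Prop := ∀ q z U n n' Y : ℕ, 1 ≤ q → n + U ≤ n' → n' + U ≤ Y →
  ∑ p ∈ (Finset.Ioc q z).filter Nat.Prime, (prs n n' U p : ℝ) / p ≤ (U : ℝ) ^ 2 * Nat.log 2 Y / q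

/-! ## Exponential moments: the primes in `(q, z]`, `q ≥ U` -/

/-- DPI (about 40 lines).  Functions of finitely many residues are integrable.  Proof: BF.S_IND for a
prime `p > q` and `G r b = F b`. -/
def S_DPI : Prop := ∀ (Ω : Type) [MeasurableSpace Ω] (P : Measure Ω) (a : ℕ → Ω → ℕ), Model P a →
  ∀ (q : ℕ) (F : (ℕ → ℕ) → ℝ), Dep q F → Integrable (fun ω => F (fun p => a p ω)) P

/-- TND (about 60 lines; uses DPI).  From: almost surely eventually, to: the probability of an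
exception beyond `m` tends to `0`.
Proof.  The sets `B m = {∃ n ≥ m, ¬ Q n}` decrease and their intersection is null; they are null
measurable: the indicator of `{¬ Q n}` is integrable by DPI, so `{¬ Q n}` is null measurable
(`AEStronglyMeasurable`, preimage of `{1}`); `tendsto_measure_iInter_atTop`, `P` is finite (`law 0`). -/
def S_TND : Prop := ∀ (Ω : Type) [MeasurableSpace Ω] (P : Measure Ω) (a : ℕ → Ω → ℕ), Model P a →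
  ∀ Q : ℕ → (ℕ → ℕ) → Prop, (∀ n, ∃ q : ℕ, Dep q (Q n)) →
  (∀ᵐ ω ∂P, ∀ᶠ n : ℕ in atTop, Q n (fun p => a p ω)) →
  Tendsto (fun m : ℕ => P {ω | ∃ n : ℕ, m ≤ n ∧ ¬ Q n (fun p => a p ω)}) atTop (𝓝 0)

/-- UPB (about 120 lines; uses BF.S_IND, DPI, STP, WIN).
Proof.  For `q ≤ v ≤ z` let `τ_v = t MM v / MM z` (between `0` and `t`, so `> -1`; `τ_z = t`) and
`Ψ_v = ∫ Φ (1 + τ_v)^(sv v)`.  If `p = v + 1` is not prime, `Ψ_p = Ψ_v` (`MM p = MM v`, same survivors).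
If it is prime, `Ψ_p ≤ Ψ_v`: IND (with `G r b = Φ b (1 + τ_p)^(X - N r)`, `X = sv b v _ U`,
`N r = cls b v _ U p r`), WIN, the first part of STP and `τ_p (1 - 1/p) = τ_v`. -/
def S_UPB : Prop := ∀ (Ω : Type) [MeasurableSpace Ω] (P : Measure Ω) (a : ℕ → Ω → ℕ), Model P a →
  ∀ (q z U : ℕ) (t : ℝ) (Φ : (ℕ → ℕ) → ℝ) (pos : (ℕ → ℕ) → ℕ), -1 < t → U ≤ q → q ≤ z →
  Dep q Φ → Dep q pos → (∀ b, 0 ≤ Φ b) →
  ∫ ω, Φ (fun p => a p ω) * (1 + t) ^ sv (fun p => a p ω) z (pos (fun p => a p ω)) U ∂P ≤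
    ∫ ω, Φ (fun p => a p ω) *
      (1 + t * (MM q / MM z)) ^ sv (fun p => a p ω) q (pos (fun p => a p ω)) U ∂P

/-- LOB (about 120 lines; uses BF.S_IND, DPI, STP, WIN).  As UPB with the second part of STP:
`Ψ_p ≥ exp (-(K U / p)²) Ψ_v`, `K = |t| / (1 + t) ≥ |τ_p| / (1 + τ_p)`, and `∑_{p > q} 1/p² ≤ 1/q`. -/
def S_LOB : Prop := ∀ (Ω : Type) [MeasurableSpace Ω] (P : Measure Ω) (a : ℕ → Ω → ℕ), Model P a →
  ∀ (q z U : ℕ) (t : ℝ) (Φ : (ℕ → ℕ) → ℝ) (pos : (ℕ → ℕ) → ℕ), -1 < t → 1 ≤ q → U ≤ q → q ≤ z →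
  Dep q Φ → Dep q pos → (∀ b, 0 ≤ Φ b) → |t| / (1 + t) * ((U : ℝ) / q) ≤ 1 / 2 →
  Real.exp (-((|t| / (1 + t)) ^ 2 * ((U : ℝ) ^ 2 / q))) *
      ∫ ω, Φ (fun p => a p ω) *
        (1 + t * (MM q / MM z)) ^ sv (fun p => a p ω) q (pos (fun p => a p ω)) U ∂P ≤
    ∫ ω, Φ (fun p => a p ω) * (1 + t) ^ sv (fun p => a p ω) z (pos (fun p => a p ω)) U ∂P

/-- PAR (about 150 lines; uses BF.S_IND, DPI, STP, WIN, DIV).  Two windows.
Proof.  As UPB, for `Ψ_v = ∫ Φ exp (2 K² ∑_{v < p ≤ z} prs p / p) (1 + τ_v)^(sv v + sv' v)` (`prs` of the two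
positions, which depend on the residues `≤ q` only), with the third part of STP and `c ≤ prs`
from WIN; at `v = q` use DIV. -/
def S_PAR : Prop := ∀ (Ω : Type) [MeasurableSpace Ω] (P : Measure Ω) (a : ℕ → Ω → ℕ), Model P a →
  ∀ (q z U Y : ℕ) (t : ℝ) (Φ : (ℕ → ℕ) → ℝ) (pos pos' : (ℕ → ℕ) → ℕ), -1 < t → 1 ≤ q → U ≤ q → q ≤ z →
  Dep q Φ → Dep q pos → Dep q pos' → (∀ b, 0 ≤ Φ b) → (∀ b, pos b + U ≤ pos' b) → (∀ b, pos' b + U ≤ Y) →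
  |t| / (1 + t) * (2 * (U : ℝ) / q) ≤ 1 / 2 →
  ∫ ω, Φ (fun p => a p ω) * (1 + t) ^ (sv (fun p => a p ω) z (pos (fun p => a p ω)) U +
      sv (fun p => a p ω) z (pos' (fun p => a p ω)) U) ∂P ≤
    Real.exp (2 * (|t| / (1 + t)) ^ 2 * ((U : ℝ) ^ 2 * Nat.log 2 Y / q)) *
      ∫ ω, Φ (fun p => a p ω) * (1 + t * (MM q / MM z)) ^ (sv (fun p => a p ω) q (pos (fun p => a p ω)) U +
        sv (fun p => a p ω) q (pos' (fun p => a p ω)) U) ∂P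

/-- SEC (about 250 lines; uses DPI, UPB, LOB, PAR).  Second moment with exponential weights.
Proof.  Write `N i` (`T i`) for the number of survivors of level `z` (`q`) in the window `i`,
`g i = (1 + t ρ)^(T i)`, `ρ = MM q / MM z`, `G = ∑_{i<M} g i`, `f i = (1 + t)^(N i)` if
`κ₁ ≤ N i ≤ κ₂` and `0` otherwise.  If no window has `κ₁ ≤ N i ≤ κ₂`, `(1 - ∑ f i / G)² = 1`, so the
probability is at most `E 1_F (1 - ∑ f i / G)² = P F - 2 ∑ E 1_F f i / G + ∑_{i,j} E 1_F f i f j / G²`.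
(i) `E 1_F f i / G ≥ E 1_F (1 + t)^(N i) / G - E 1_F (1 + t)^(N i) 1(N i > κ₂) / G -
E 1_F (1 + t)^(N i) 1(N i < κ₁) / G`; the first by LOB (`Φ = 1_F / G`); `(1 + t)^N ≤ (1 + t₂)^N
((1 + t)/(1 + t₂))^κ₂` for `N > κ₂`, UPB for `t₂` and the hypothesis: `≤ θ E 1_F g i / G`; in the same
way with `t₁` for `N < κ₁`.  Sum over `i`: `≥ (exp (-e₁) - 2 θ) P F`.
(ii) `i ≠ j`: `E 1_F f i f j / G² ≤ E 1_F (1 + t)^(N i + N j) / G² ≤ exp e₂ E 1_F g i g j / G²` (PAR), sum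
`≤ exp e₂ P F`.  (iii) `i = j`: `f i² ≤ max ((1 + t)^κ₁) ((1 + t)^κ₂) (1 + t)^(N i)`, UPB, sum over `i`:
`≤ E 1_F max / G ≤ θ P F`.  Here `P` is a probability measure (`law 0`).  If `M = 0` then `F` never
holds.  (If a position must be total: only `i < j < M` is needed; extend trivially.) -/
def S_SEC : Prop := ∀ (Ω : Type) [MeasurableSpace Ω] (P : Measure Ω) (a : ℕ → Ω → ℕ), Model P a →
  ∀ (q z U M Y : ℕ) (t t₁ t₂ κ₁ κ₂ θ : ℝ) (F : (ℕ → ℕ) → Prop) (pos : (ℕ → ℕ) → ℕ → ℕ),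
  -1 < t₁ → t₁ < t → t < t₂ → 1 ≤ q → U ≤ q → q ≤ z → 0 ≤ θ → Dep q F → Dep q pos →
  (∀ b i j, i < j → j < M → pos b i + U ≤ pos b j) → (∀ b j, j < M → pos b j + U ≤ Y) →
  |t| / (1 + t) * (2 * (U : ℝ) / q) ≤ 1 / 2 →
  (∀ b, F b → ∀ i < M,
    (1 + t₂ * (MM q / MM z)) ^ sv b q (pos b i) U * ((1 + t) / (1 + t₂)) ^ κ₂ ≤
      θ * (1 + t * (MM q / MM z)) ^ sv b q (pos b i) U ∧
    (1 + t₁ * (MM q / MM z)) ^ sv b q (pos b i) U * ((1 + t) / (1 + t₁)) ^ κ₁ ≤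
      θ * (1 + t * (MM q / MM z)) ^ sv b q (pos b i) U) →
  (∀ b, F b → max ((1 + t) ^ κ₁) ((1 + t) ^ κ₂) ≤
    θ * ∑ i ∈ Finset.range M, (1 + t * (MM q / MM z)) ^ sv b q (pos b i) U) →
  P {ω | F (fun p => a p ω) ∧ ∀ i < M,
      ¬ (κ₁ ≤ (sv (fun p => a p ω) z (pos (fun p => a p ω) i) U : ℝ) ∧
        (sv (fun p => a p ω) z (pos (fun p => a p ω) i) U : ℝ) ≤ κ₂)} ≤
    ENNReal.ofReal (Real.exp (2 * (|t| / (1 + t)) ^ 2 * ((U : ℝ) ^ 2 * Nat.log 2 Y / q)) - 1 +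
      2 * (1 - Real.exp (-((|t| / (1 + t)) ^ 2 * ((U : ℝ) ^ 2 / q)))) + 5 * θ)

/-! ## The primes up to `q = (log n)^6` -/

/-- the primes between `(log n)^(1+1/k)` and `q` remove the expected number -/
def ConA (a : ℕ → ℕ) : Prop := ∀ (k : ℕ) (C ε : ℝ), 1 ≤ k → 1 ≤ C → 0 < ε → ∀ᶠ n : ℕ in atTop,
  ∀ U q : ℕ, Real.log n ^ 2 / C ≤ U → (U : ℝ) ≤ C * Real.log n ^ 2 →
    Real.log n ^ 5 ≤ q → (q : ℝ) ≤ Real.log n ^ 7 →
    |(sv a q n U : ℝ) * (MM q / U) - sv a (lv k n) n U * (MM (lv k n) / U)| ≤ ε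

/-- CONA (about 250 lines; uses BF.S_TAIL, BF.S_DSUM, BF.S_MERT).  Compare `Pool/Agent/H50/BF/CONC.lean`
(the same argument for longer windows).
Proof.  It is enough to treat natural `C` and `ε = 1/j`.  Fix `k`, `η = 1/k`, `L = log n`, `w = lv k n`
(`L^(1+η) ≤ w ≤ L^(1+η) + 1`, `w ≤ q` for large `n`); TAIL with `z = q`, `T = ε U / MM q`,
`l = L^(-1+η/4)`.  By DSUM `D = DD w q U ≤ C' U (2 + log w) / (w MM q) + 1 ≤ L^(1-3η/4) + 1` for large `n`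
(`MM q ≥ 1`), so `l D ≤ L^(-η/2) + L^(-1+η/4) → 0`.  Hypotheses of TAIL: `4 l D ≤ 1`;
`2 l (MM p / MM q) (U / p + 1) ≤ 2 l (U / w + 1) ≤ 1` (`MM` monotone).  The probability is
`≤ 2 exp (-l T + 4 l² D (MM w / MM q) U)` with `l T = L^(-1+η/4) ε U / MM q ≥ L^(1+η/5)` (`MM q ≤ C' (1 + 7 log L)`)
and `4 l² D (MM w / MM q) U ≤ 4 (l D) (l U) ≤ C'' L^(1-η/4)`, so `≤ 2 exp (-L^(1+η/5) / 2)`; the number of
pairs `(U, q)` is at most `(C L² + 1) (L^7 + 1)`; the sum over `n` converges; Borel-Cantelli. -/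
def S_CONA : Prop := ∀ (Ω : Type) [MeasurableSpace Ω] (P : Measure Ω) (a : ℕ → Ω → ℕ), Model P a →
  ∀ᵐ ω ∂P, ConA (fun q => a q ω)

/-- The densities at the levels `q ≥ (log n)^5` and `v = (log n)^(1±η)` differ by at most `ε`. -/
def Bnd (a : ℕ → ℕ) (C ε η : ℝ) (n : ℕ) : Prop := ∀ U q v : ℕ,
  Real.log n ^ 2 / C ≤ U → (U : ℝ) ≤ C * Real.log n ^ 2 →
  Real.log n ^ 5 ≤ q → (q : ℝ) ≤ Real.log n ^ 7 →
  Real.log n ^ (1 - η) ≤ v → (v : ℝ) ≤ Real.log n ^ (1 + η) →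
  |(sv a q n U : ℝ) * (MM q / U) - sv a v n U * (MM v / U)| ≤ ε

/-- TRC (about 120 lines; uses BF.S_TRANS).
Proof.  Let `C₀` be the constant of TRANS, `η' ≤ 1/2` with `C₀ η' ≤ ε / 2`, `η = η' / 4`, `1/k ≤ η' / 4`.
With `w₀ = Nat.sqrt U` (`L / √C - 1 ≤ w₀ ≤ √C L`) the levels `v` and `lv k n` lie in
`[w₀^(1-η'), w₀^(1+η')]` for large `n`, `w₀² ≤ U`; TRANS for `v ≤ lv k n` or `lv k n ≤ v`, and `ConA`
with `ε / 2`. -/
def S_TRC : Prop := ∀ C ε : ℝ, 1 ≤ C → 0 < ε → ∃ η : ℝ, 0 < η ∧ η ≤ 1 / 2 ∧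
  ∀ a : ℕ → ℕ, ConA a → ∀ᶠ n : ℕ in atTop, Bnd a C ε η n

/-- EXD (about 120 lines; uses BF.S_TRANS, BF.S_SUB, BF.S_CRT).  All densities lie between the extremal ones.
Proof.  `w₀ = Nat.sqrt U`: by TRANS the density at level `v` is within `C₀ η'` of the one at level `w₀`,
by CRT (1) `sv a w₀ m U = sv 0 w₀ (m + N) U`, and by SUB (`w₀² ≤ U ≤ w₀² + 2 w₀ ≤ (1 + δ) w₀²`) its density
is within `C₀ δ`-order of `sv 0 w₀ (m + N) w₀² MM w₀ / w₀²`, which is between `lo w₀ 2` and `hi w₀ 2`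
(`⌊(w₀ : ℝ) ^ (2 : ℝ)⌋₊ = w₀ ^ 2`, `ciInf_le`, `le_ciSup`). -/
def S_EXD : Prop := ∀ C ε : ℝ, 1 ≤ C → 0 < ε → ∃ η : ℝ, 0 < η ∧ η ≤ 1 / 2 ∧ ∀ᶠ n : ℕ in atTop,
  ∀ (a : ℕ → ℕ) (m U v : ℕ), Real.log n ^ 2 / C ≤ U → (U : ℝ) ≤ C * Real.log n ^ 2 →
    Real.log n ^ (1 - η) ≤ v → (v : ℝ) ≤ Real.log n ^ (1 + η) →
    lo (Nat.sqrt U) 2 - ε ≤ (sv a v m U : ℝ) * (MM v / U) ∧
    (sv a v m U : ℝ) * (MM v / U) ≤ hi (Nat.sqrt U) 2 + ε

/-- EXW (about 120 lines; uses BF.S_TRANS, BF.S_SUB).  The extremal densities are attained.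
Proof.  Choose `m` with `sv 0 w m w² MM w / w²` within `ε / 4` of `hi w 2` (`lo w 2`)
(`exists_lt_of_lt_ciSup`, `exists_lt_of_ciInf_lt`); SUB for the change from `w²` to `U` (both orders),
TRANS for the change of the level from `w` to `v`. -/
def S_EXW : Prop := ∀ C ε : ℝ, 1 ≤ C → 0 < ε → ∃ η : ℝ, 0 < η ∧ η ≤ 1 / 2 ∧ ∀ᶠ n : ℕ in atTop,
  ∀ w U v : ℕ, Real.log n ^ 2 / C ≤ U → (U : ℝ) ≤ C * Real.log n ^ 2 →
    |(U : ℝ) - (w : ℝ) ^ 2| ≤ η * (w : ℝ) ^ 2 →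
    Real.log n ^ (1 - η) ≤ v → (v : ℝ) ≤ Real.log n ^ (1 + η) →
    (∃ m : ℕ, |(sv (fun _ => 0) v m U : ℝ) * (MM v / U) - hi w 2| ≤ ε) ∧
    (∃ m : ℕ, |(sv (fun _ => 0) v m U : ℝ) * (MM v / U) - lo w 2| ≤ ε)

/-- POS (about 100 lines; uses BF.S_CRT).  Positions of windows with the same survivors of level `v`.
Proof.  Let `red b p = b p % p` for the primes `p ≤ v` and `0` otherwise; `n₀ b ∈ [X, 2X]` = the choice of
`n` in CRT (2) for `red b` (so it depends only on the residues), `pos b i = n₀ b + i primorial v (U + 1)`;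
adding a multiple of `primorial v` does not change the survivors of level `v`. -/
def S_POS : Prop := ∀ v m X M U : ℕ, primorial v ≤ X → M * (primorial v * (U + 1)) ≤ X →
  ∃ pos : (ℕ → ℕ) → ℕ → ℕ, Dep v pos ∧ (∀ b i j, i < j → pos b i + U ≤ pos b j) ∧
    (∀ b i, i < M → X ≤ pos b i ∧ pos b i ≤ 3 * X) ∧
    (∀ b i U', sv b v (pos b i) U' = sv (fun _ => 0) v m U')

/-- NUM (about 250 lines; uses BF.S_MERT).  The numerical inequalities for SEC.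
Proof.  Write `L = log X`, `ρ = MM q / MM z`, `μ = C σ`.  `ρ T / L = (T MM q / U) (U / L²) (L / MM z)` is
within `C₁ η` of `μ`, `ρ ≤ 2 MM q / L → 0` (`MM q ≤ C₂ (1 + 7 log L)` by MERT).  `log (1 + y) ≤ y`,
`log (1 + y) ≥ y - y²` for `|y| ≤ 1/2`, `T (t ρ)² = t² (ρ T) ρ = o(L)`.
First: the logarithm of the quotient of the two sides is at most
`(t₂ - t) ρ T + o(L) - ((1+t) μ + δ) L log ((1+t₂)/(1+t)) - log θ`; with `t₂ = t + h`,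
`log (1 + y) ≥ y - y²/2` for `y = h/(1+t)`, it is `≤ L (h C₁ η - δ h/(1+t) + O(h²)) + o(L)`, so `h` small and then
`η` small.  Second: `t₁ = t - h`; `-(t - t₁) ρ T + ((1+t) μ - δ) L log ((1+t)/(1+t₁)) + o(L)` is
`≤ L (h C₁ η - δ h/(1+t) + O(h²)) + o(L)` (`y ≤ -log (1 - y) ≤ y + y²`).
Third: `M ≥ exp ((1-η) L)`, `(1 + tρ)^T ≥ exp (tρT - o(L)) ≥ exp ((t μ - |t| C₁ η) L - o(L))`, and the
logarithm of the left side is `≤ ((1+t) μ log (1+t) + δ |log (1+t)|) L`; use the hypothesis. -/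
def S_NUM : Prop := ∀ C t δ σ : ℝ, 0 < C → -1 < t → 0 < δ → 0 ≤ σ →
  C * σ * ((1 + t) * Real.log (1 + t) - t) + δ * |Real.log (1 + t)| < 1 →
  ∃ η t₁ t₂ : ℝ, 0 < η ∧ η < 1 ∧ -1 < t₁ ∧ t₁ < t ∧ t < t₂ ∧ ∀ θ : ℝ, 0 < θ → ∀ᶠ X : ℕ in atTop,
    ∀ (U q z M : ℕ) (T : ℕ → ℕ), |(U : ℝ) / Real.log X ^ 2 - C| ≤ η → |MM z / Real.log X - 1| ≤ η →
    Real.log X ^ 5 ≤ q → (q : ℝ) ≤ Real.log X ^ 7 → (X : ℝ) ^ (1 - η) ≤ M →
    (∀ i < M, |(T i : ℝ) * (MM q / U) - σ| ≤ η) →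
    (∀ i < M,
      (1 + t₂ * (MM q / MM z)) ^ T i *
          ((1 + t) / (1 + t₂)) ^ (((1 + t) * (C * σ) + δ) * Real.log X) ≤
        θ * (1 + t * (MM q / MM z)) ^ T i ∧
      (1 + t₁ * (MM q / MM z)) ^ T i *
          ((1 + t) / (1 + t₁)) ^ (((1 + t) * (C * σ) - δ) * Real.log X) ≤
        θ * (1 + t * (MM q / MM z)) ^ T i) ∧
    max ((1 + t) ^ (((1 + t) * (C * σ) - δ) * Real.log X))
        ((1 + t) ^ (((1 + t) * (C * σ) + δ) * Real.log X)) ≤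
      θ * ∑ i ∈ Finset.range M, (1 + t * (MM q / MM z)) ^ T i

/-- the scale which belongs to `w`: `C (log X)² ≈ w²` -/
noncomputable def XX (C : ℝ) (w : ℕ) : ℕ := ⌈Real.exp (w / Real.sqrt C)⌉₊

/-- EXJ (about 300 lines; uses SEC, NUM, POS, EXW, TRC, CONA, TND, BF.S_MERT).
Proof.  `η₀, t₁, t₂` from NUM; `C' = max (2 C) (2 / C)` (at least `1`, enlarge it so that all positions
`n ∈ [X, 3X]` are allowed); EXW and TRC with `C'`, `η₀/4` give `η'`; `η = η₀/4`.  For large `w` let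
`X = XX C w`, `L = log X` (`L √C / w → 1`), `U = U X`, `|U - w²| ≤ η' w²`, `q = ⌈L^6⌉`, `z = Z X` (`≥ q` because
`MM z ~ L` and `MM q = O(log L)`), `v = ⌊κ L⌋` with `κ > 0` so small that `primorial v ≤ 4^v ≤ X^(η₀/2)`, and
`M = ⌊X / (primorial v (U + 1))⌋ ≥ X^(1-η₀)`.  EXW gives `m` with the density `(0, v, m, U)` within `η₀/4` of
`hi w 2` (or `lo w 2`), POS gives the positions, and `F b` is: for all `i < M`
`|sv b q (pos b i) U (MM q / U) - σ| ≤ η₀` (`Dep q`).  If `Bnd b C' (η₀/4) η' n` for all `n ≥ X` then `F b`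
(the density at level `q` is within `η₀/4` of the one at level `v`, which is that of `(0, v, m, U)`).
By CONA, TRC and TND (`Q n b = Bnd b C' (η₀/4) η' n`, which depends on the residues
`≤ (log n)^7 + (log n)^2` only) `P (not for all n ≥ X Bnd) → 0`.  By SEC (`κ₁, κ₂ = ((1+t) C σ ∓ δ) L`, `Y = 4 X`) and NUM
`P (F and no window) ≤ o(1) + 5 θ`, since `U² log₂ (4X) / q → 0`, `U² / q → 0`, `U / q → 0`. -/
def S_EXJ : Prop := ∀ (Ω : Type) [MeasurableSpace Ω] (P : Measure Ω) (a : ℕ → Ω → ℕ), Model P a →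
  ∀ C t δ σ : ℝ, 0 < C → -1 < t → 0 < δ → 0 ≤ σ →
  C * σ * ((1 + t) * Real.log (1 + t) - t) + δ * |Real.log (1 + t)| < 1 →
  ∀ U Z : ℕ → ℕ, Tendsto (fun X : ℕ => (U X : ℝ) / Real.log X ^ 2) atTop (𝓝 C) →
  Tendsto (fun X : ℕ => MM (Z X) / Real.log X) atTop (𝓝 1) → ∀ ε : ℝ, 0 < ε → ∃ η : ℝ, 0 < η ∧
  ∀ᶠ w : ℕ in atTop, (|hi w 2 - σ| ≤ η ∨ |lo w 2 - σ| ≤ η) →
    P {ω | ¬ ∃ n : ℕ, XX C w ≤ n ∧ n ≤ 3 * XX C w ∧
      |(sv (fun p => a p ω) (Z (XX C w)) n (U (XX C w)) : ℝ) / Real.log (XX C w) -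
        (1 + t) * (C * σ)| ≤ δ} ≤ ENNReal.ofReal ε

/-- EXI (about 80 lines; uses EXJ).
Proof.  Decrease `δ` so that the hypothesis of EXJ holds.  The set of the `ω` with only finitely many
`X` is the increasing union of the sets `A_m` = no such `X ≥ m`; for every `ε` there is `w` with
`XX C w ≥ m` and `P A_m ≤ P (the event of EXJ) ≤ ε`; so `P A_m = 0` for every `m`
(`measure_iUnion_null`). -/
def S_EXI : Prop := ∀ (Ω : Type) [MeasurableSpace Ω] (P : Measure Ω) (a : ℕ → Ω → ℕ), Model P a →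
  ∀ C t δ σ : ℝ, 0 < C → -1 < t → 0 < δ → 0 ≤ σ →
  C * σ * ((1 + t) * Real.log (1 + t) - t) < 1 →
  ∀ U Z : ℕ → ℕ, Tendsto (fun X : ℕ => (U X : ℝ) / Real.log X ^ 2) atTop (𝓝 C) →
  Tendsto (fun X : ℕ => MM (Z X) / Real.log X) atTop (𝓝 1) →
  ((∀ ε : ℝ, 0 < ε → ∃ᶠ w : ℕ in atTop, |hi w 2 - σ| ≤ ε) ∨
    (∀ ε : ℝ, 0 < ε → ∃ᶠ w : ℕ in atTop, |lo w 2 - σ| ≤ ε)) →
  ∀ᵐ ω ∂P, ∃ᶠ X : ℕ in atTop, ∃ n : ℕ, X ≤ n ∧ n ≤ 3 * X ∧
    |(sv (fun p => a p ω) (Z X) n (U X) : ℝ) / Real.log X - (1 + t) * (C * σ)| ≤ δ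

/-- UPX (about 200 lines; uses CONA, TRC, EXD, DPI, UPB, BF.S_MERT).
Proof (`0 < t`).  `ε` small, `C' = max (2 C) (2 / C)`, `q = ⌈L^6⌉`, `L = log n`, `ρ = MM q / MM (Z n)`.
`F b`: `sv b q n (U n) (MM q / U n) ≤ σ + 3 ε` (`Dep q`).  By CONA, TRC, EXD (a level `v = ⌈L⌉`) almost surely
`F` holds for all large `n`.  By UPB (`Φ = 1_F`, `pos = n`), Markov's inequality and `1 + y ≤ exp y`:
`P (F and sv ≥ u L) ≤ (1 + t)^(-u L) E 1_F (1 + t ρ)^(sv q) ≤ exp (-u L log (1 + t) + t (σ + 3 ε) U n / MM (Z n))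
≤ n^(-1-ε')` for large `n`; Borel-Cantelli.  `t < 0`: `F b`: `sv b q n (U n) (MM q / U n) ≥ σ - 3 ε` and
`1(sv ≤ u L) ≤ (1 + t)^(sv - u L)`. -/
def S_UPX : Prop := ∀ (Ω : Type) [MeasurableSpace Ω] (P : Measure Ω) (a : ℕ → Ω → ℕ), Model P a →
  ∀ C t u σ : ℝ, 0 < C → -1 < t → 0 ≤ σ → 1 < u * Real.log (1 + t) - t * (C * σ) →
  ∀ U Z : ℕ → ℕ, Tendsto (fun n : ℕ => (U n : ℝ) / Real.log n ^ 2) atTop (𝓝 C) →
  Tendsto (fun n : ℕ => MM (Z n) / Real.log n) atTop (𝓝 1) →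
  (0 < t → (∀ ε : ℝ, 0 < ε → ∀ᶠ w : ℕ in atTop, hi w 2 ≤ σ + ε) →
    ∀ᵐ ω ∂P, ∀ᶠ n : ℕ in atTop, (sv (fun p => a p ω) (Z n) n (U n) : ℝ) < u * Real.log n) ∧
  (t < 0 → (∀ ε : ℝ, 0 < ε → ∀ᶠ w : ℕ in atTop, σ - ε ≤ lo w 2) →
    ∀ᵐ ω ∂P, ∀ᶠ n : ℕ in atTop, u * Real.log n < (sv (fun p => a p ω) (Z n) n (U n) : ℝ))

/-! ## Calculus and the extremal densities at `s = 2` -/

/-- the largest `u` with `u log (u/λ) - u + λ ≤ 1` -/
noncomputable def up (l : ℝ) : ℝ := sSup {u : ℝ | 0 ≤ u ∧ u * Real.log (u / l) - u + l ≤ 1}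

/-- the smallest `u ≥ 0` with `u log (u/λ) - u + λ ≤ 1` -/
noncomputable def dn (l : ℝ) : ℝ := sInf {u : ℝ | 0 ≤ u ∧ u * Real.log (u / l) - u + l ≤ 1}

/-- RATE (about 200 lines).  `I u = u log (u/l) - u + l` is convex on `[0, ∞)`, strictly decreasing on
`[0, l]` from `I 0 = l` to `I l = 0`, strictly increasing on `[l, ∞)`, `→ ∞`.
(1) `u > up l`: `u > l`, `I u > 1`, `t = u/l - 1`.  (2) `u < up l`: there is `u' > u`, `u' ≥ l` with `I u' < 1`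
(an element of the set above `u`, move it a little to the left), `t = u'/l - 1`.
(3) `0 ≤ u < dn l` (`l > 0`, so `l > 1`... since `0` is not in the set): if `u > 0` `t = u/l - 1`; if `u = 0`
`t` near `-1` with `-t l > 1`.  (4) `dn l < u`: if `l = 0` take `t = 0`; else some `u' ∈ (0, l]`, `u' ≤ u` with `I u' < 1`.
(5) `l = e`... For `1 < l < e`: `I e = l - e log l < 1` (convexity of `l - e log l - 1`, zero at `1`, negative
at `e`), so `up l > e` by continuity; for `l ≥ e`: `I (l + ε) < 1` for small `ε`.  (6) `0` is in the set. -/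
def S_RATE : Prop :=
  (∀ l u : ℝ, 0 < l → up l < u → ∃ t : ℝ, 0 < t ∧ 1 < u * Real.log (1 + t) - t * l) ∧
  (∀ l u : ℝ, 0 < l → u < up l → ∃ t : ℝ, 0 ≤ t ∧ u ≤ (1 + t) * l ∧
    l * ((1 + t) * Real.log (1 + t) - t) < 1) ∧
  (∀ l u : ℝ, 0 < l → 0 ≤ u → u < dn l → ∃ t : ℝ, -1 < t ∧ t < 0 ∧ 1 < u * Real.log (1 + t) - t * l) ∧
  (∀ l u : ℝ, 0 ≤ l → dn l < u → ∃ t : ℝ, -1 < t ∧ t ≤ 0 ∧ (1 + t) * l ≤ u ∧
    l * ((1 + t) * Real.log (1 + t) - t) < 1) ∧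
  (∀ l : ℝ, 1 < l → Real.exp 1 < up l) ∧ (∀ l : ℝ, 0 ≤ l → l ≤ 1 → dn l = 0) ∧
  (∀ l : ℝ, 0 ≤ l → 0 ≤ dn l) ∧ (∀ l : ℝ, 0 < l → l ≤ up l)

/-- SIG2 (about 120 lines; uses BF.S_SUB).  Compare `Pool/Agent/H50/BF/SIGA.lean` (the same for `2 < s`;
only `s ≥ 2` is needed): an interval of length `w³` consists of intervals of length `w²`.
`hi w 2` is bounded by SUB (`U = w²`). -/
def S_SIG2 : Prop := (∀ ε : ℝ, 0 < ε → ∀ᶠ w : ℕ in atTop, lo w 2 ≤ lo w 3 + ε ∧ hi w 3 ≤ hi w 2 + ε) ∧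
  ∃ B : ℝ, ∀ᶠ w : ℕ in atTop, hi w 2 ≤ B

end Pool.Agent.H50.CW
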