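import Pool.Agent.H50.CW.Stm
import Pool.Agent.H50.BF.CONC

set_option autoImplicit false

open MeasureTheory Filter
open scoped Topology ENNReal

namespace Pool.Agent.H50.CW.CONAx

open Pool.Agent.H50.BF

lemma one_le_MM' (N : ℕ) : 1 ≤ MM N := by
  have h := con_MM_mono (Nat.zero_le N)
  have h0 : MM 0 = 1 := by simp [MM]
  rwa [h0] at h

/-- the numerical facts -/
lemma num {C₁ C η ε : ℝ} (hC₁ : 0 < C₁) (hC : 1 ≤ C) (hη : 0 < η) (hη1 : η ≤ 1) (hε : 0 < ε)
    (hCm : ∀ m : ℕ, 1 ≤ m → MM m ≤ C₁ * (1 + Real.log m))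
    (hCD : ∀ w z U : ℕ, 1 ≤ w → DD w z U ≤ C₁ * U * ((2 + Real.log w) / (w * MM z)) + 1) :
    ∀ᶠ n : ℕ in atTop, ∀ U q : ℕ, Real.log n ^ 2 / C ≤ U → (U : ℝ) ≤ C * Real.log n ^ 2 →
      Real.log n ^ 5 ≤ q → (q : ℝ) ≤ Real.log n ^ 7 →
      U ≤ n ∧ q ≤ n ^ 2 ∧ 0 < (U : ℝ) ∧ 0 ≤ Real.log n ^ (-1 + η / 4) ∧ ⌈Real.log n ^ (1 + η)⌉₊ ≤ q ∧
      4 * (Real.log n ^ (-1 + η / 4)) * DD ⌈Real.log n ^ (1 + η)⌉₊ q U ≤ 1 ∧
      (∀ p : ℕ, p.Prime → ⌈Real.log n ^ (1 + η)⌉₊ < p → p ≤ q →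
        2 * (Real.log n ^ (-1 + η / 4)) * (MM p / MM q) * ((U : ℝ) / p + 1) ≤ 1) ∧
      -(Real.log n ^ (-1 + η / 4) * (ε * (U / MM q))) +
        4 * (Real.log n ^ (-1 + η / 4)) ^ 2 * DD ⌈Real.log n ^ (1 + η)⌉₊ q U *
          (MM ⌈Real.log n ^ (1 + η)⌉₊ / MM q) * U ≤ -(2 / 2 * Real.log n ^ (1 + η / 4 / 2)) := by
  have hL : Tendsto (fun n : ℕ => Real.log (n : ℝ)) atTop atTop :=
    Real.tendsto_log_atTop.comp tendsto_natCast_atTop_atTop
  obtain ⟨g, hg⟩ : ∃ g : ℝ → ℝ, g = fun L => C₁ * C * ((3 + 2 * Real.log L) * L ^ (-(3 * η / 4))) +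
      L ^ (-(1 - η / 4)) := ⟨_, rfl⟩
  have hc2 : 0 < 1 - η / 4 := by linarith
  have g1 : Tendsto g atTop (𝓝 0) := by
    rw [hg]
    have := ((con_lim (3 * η / 4) (by positivity)).const_mul (C₁ * C)).add (tendsto_rpow_neg_atTop hc2)
    simpa using this
  have g2 : Tendsto (fun L => (3 + 2 * Real.log L) * g L) atTop (𝓝 0) := by
    have h1 := (con_lim (3 * η / 8) (by positivity)).mul (con_lim (3 * η / 8) (by positivity))
    have h2 := (h1.const_mul (C₁ * C)).add (con_lim (1 - η / 4) hc2)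
    simp only [mul_zero, add_zero] at h2
    refine h2.congr' ?_
    filter_upwards [eventually_gt_atTop 0] with L hL0
    have e : L ^ (-(3 * η / 4)) = L ^ (-(3 * η / 8)) * L ^ (-(3 * η / 8)) := by
      rw [← Real.rpow_add hL0]
      ring_nf
    rw [hg]
    simp only
    rw [e]
    ring
  have g3 : Tendsto (fun L : ℝ => (3 + 2 * Real.log L) * L ^ (-(η / 8))) atTop (𝓝 0) :=
    con_lim (η / 8) (by positivity)
  have g4 : Tendsto (fun L : ℝ => L ^ (-(3 * η / 4))) atTop (𝓝 0) := tendsto_rpow_neg_atTop (by positivity)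
  have hpow : ∀ᶠ n : ℕ in atTop, C * Real.log n ^ 2 ≤ n ∧ Real.log n ^ 7 ≤ (n : ℝ) := by
    have h1 : ∀ᶠ x : ℝ in atTop, Real.log x ^ 7 ≤ x := by
      have h2 := isLittleO_log_rpow_rpow_atTop (r := 7) (s := 1) one_pos
      filter_upwards [h2.bound (show (0:ℝ) < 1 by norm_num), eventually_ge_atTop 1] with x h3 h4
      rw [Real.rpow_one, one_mul, Real.norm_eq_abs, Real.norm_eq_abs, abs_of_nonneg (by linarith : (0:ℝ) ≤ x)] at h3
      have h5 : Real.log x ^ (7 : ℝ) = Real.log x ^ 7 := by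
        rw [← Real.rpow_natCast]
        norm_num
      rw [h5] at h3
      exact (le_abs_self _).trans h3
    filter_upwards [tendsto_natCast_atTop_atTop.eventually h1, hL.eventually_ge_atTop C] with n h2 h3
    refine ⟨le_trans ?_ h2, h2⟩
    have h4 : 1 ≤ Real.log (n : ℝ) := hC.trans h3
    calc C * Real.log n ^ 2 ≤ Real.log n * Real.log n ^ 2 :=
          mul_le_mul_of_nonneg_right h3 (by positivity)
      _ = Real.log n ^ 3 := by ring
      _ ≤ Real.log n ^ 7 := pow_le_pow_right₀ h4 (by norm_num)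
  filter_upwards [hpow, hL.eventually (g1.eventually (gt_mem_nhds (show (0:ℝ) < 1 / 4 by norm_num))),
    hL.eventually (g2.eventually (gt_mem_nhds (show (0:ℝ) < ε / (8 * C₁) by positivity))),
    hL.eventually (g3.eventually (gt_mem_nhds (show (0:ℝ) < ε / (8 * C * C₁) by positivity))),
    hL.eventually (g4.eventually (gt_mem_nhds (show (0:ℝ) < 1 / (8 * C) by positivity))),
    hL.eventually_ge_atTop 3] with n hpw hg1 hg2 hg3 hg4 hL3
  intro U q hU1 hU2 hq1 hq2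
  obtain ⟨L, hLd⟩ : ∃ L : ℝ, L = Real.log n := ⟨_, rfl⟩
  rw [← hLd] at hpw hg1 hg2 hg3 hg4 hL3 hU1 hU2 hq1 hq2 ⊢
  have hL0 : 0 < L := by linarith
  have hC0 : 0 < C := by linarith
  obtain ⟨l, hld⟩ : ∃ l : ℝ, l = L ^ (-1 + η / 4) := ⟨_, rfl⟩
  obtain ⟨w, hwd⟩ : ∃ w : ℕ, w = ⌈L ^ (1 + η)⌉₊ := ⟨_, rfl⟩
  rw [← hld, ← hwd]
  obtain ⟨E, hE⟩ : ∃ E : ℝ, E = L ^ (1 + η) := ⟨_, rfl⟩
  have hE3 : 3 ≤ E := by
    rw [hE]
    calc (3 : ℝ) ≤ L := hL3
      _ = L ^ (1 : ℝ) := (Real.rpow_one L).symm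
      _ ≤ L ^ (1 + η) := Real.rpow_le_rpow_of_exponent_le (by linarith) (by linarith)
  have hE2 : E ≤ L ^ 2 := by
    rw [hE, ← Real.rpow_natCast]
    exact Real.rpow_le_rpow_of_exponent_le (by linarith) (by push_cast; linarith)
  have hwE : E ≤ w := by rw [hwd, ← hE]; exact Nat.le_ceil _
  have hwE2 : (w : ℝ) ≤ 2 * E := by
    rw [hwd, ← hE]
    have := Nat.ceil_lt_add_one (show 0 ≤ E by linarith)
    linarith
  have hw1 : 1 ≤ w := by
    have : (1 : ℝ) ≤ w := by linarith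
    exact_mod_cast this
  have hw3 : (3 : ℝ) ≤ w := by linarith
  obtain ⟨ℓ, hℓ⟩ : ∃ ℓ : ℝ, ℓ = 3 + 2 * Real.log L := ⟨_, rfl⟩
  have hlogL : 0 ≤ Real.log L := Real.log_nonneg (by linarith)
  have hlw : 2 + Real.log w ≤ ℓ := by
    have h1 : Real.log w ≤ Real.log (2 * L ^ 2) :=
      Real.log_le_log (by linarith) (by nlinarith)
    rw [Real.log_mul (by norm_num) (by positivity), Real.log_pow] at h1
    have := Real.log_two_lt_d9
    push_cast at h1
    rw [hℓ]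
    linarith
  have hlw0 : 0 ≤ Real.log w := Real.log_nonneg (by linarith)
  have hℓ0 : 0 < ℓ := by linarith
  rw [← hℓ] at hg2 hg3
  have hgL : g L = C₁ * C * (ℓ * L ^ (-(3 * η / 4))) + L ^ (-(1 - η / 4)) := by rw [hg, hℓ]
  have hU0 : (0 : ℝ) < U := lt_of_lt_of_le (by positivity) hU1
  have hMq : 1 ≤ MM q := one_le_MM' q
  have hMw : 0 < MM w := con_MM_pos w
  have hMwl : MM w ≤ C₁ * ℓ := (hCm w hw1).trans (mul_le_mul_of_nonneg_left (by linarith) hC₁.le)
  have hl0 : 0 < l := by rw [hld]; positivity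
  have hle : l = L ^ (-(1 - η / 4)) := by rw [hld]; congr 1; ring
  -- `w ≤ q`
  have hwq : w ≤ q := by
    have h1 : (w : ℝ) ≤ q := by
      calc (w : ℝ) ≤ 2 * L ^ 2 := by linarith
        _ ≤ L ^ 3 := by nlinarith [sq_nonneg L]
        _ ≤ L ^ 5 := pow_le_pow_right₀ (by linarith) (by norm_num)
        _ ≤ q := hq1
    exact_mod_cast h1
  have hq0 : 1 ≤ q := hw1.trans hwq
  have hMql : MM q ≤ 4 * (C₁ * ℓ) := by
    refine (hCm q hq0).trans ?_
    have h1 : Real.log q ≤ Real.log (L ^ 7) := Real.log_le_log (by exact_mod_cast hq0) hq2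
    rw [Real.log_pow] at h1
    push_cast at h1
    have h2 : 1 + Real.log q ≤ 4 * ℓ := by rw [hℓ]; linarith
    calc C₁ * (1 + Real.log q) ≤ C₁ * (4 * ℓ) := mul_le_mul_of_nonneg_left h2 hC₁.le
      _ = _ := by ring
  have hp1 : l * (L ^ 2 / E) = L ^ (-(3 * η / 4)) := by
    rw [hld, hE, ← Real.rpow_natCast, ← Real.rpow_sub hL0, ← Real.rpow_add hL0]
    congr 1
    push_cast
    ring
  -- `l DD ≤ g`
  have hlD : l * DD w q U ≤ g L := by
    have h1 := mul_le_mul_of_nonneg_left (hCD w q U hw1) hl0.le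
    refine h1.trans ?_
    rw [mul_add, mul_one, hgL]
    refine add_le_add ?_ hle.le
    have h2 : (2 + Real.log w) / (w * MM q) ≤ ℓ / E := by
      apply div_le_div₀ hℓ0.le hlw (by positivity)
      calc E ≤ w := hwE
        _ = w * 1 := (mul_one _).symm
        _ ≤ w * MM q := mul_le_mul_of_nonneg_left hMq (Nat.cast_nonneg _)
    calc l * (C₁ * U * ((2 + Real.log w) / (w * MM q))) = C₁ * (l * U) * ((2 + Real.log w) / (w * MM q)) := by ring
      _ ≤ C₁ * (l * U) * (ℓ / E) := mul_le_mul_of_nonneg_left h2 (by positivity)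
      _ ≤ C₁ * (l * (C * L ^ 2)) * (ℓ / E) := by
        apply mul_le_mul_of_nonneg_right _ (by positivity)
        apply mul_le_mul_of_nonneg_left _ hC₁.le
        exact mul_le_mul_of_nonneg_left hU2 hl0.le
      _ = C₁ * C * (ℓ * (l * (L ^ 2 / E))) := by ring
      _ = _ := by rw [hp1]
  have hg0 : 0 ≤ g L := by rw [hgL]; positivity
  have hlq : l ≤ 1 / 4 := by
    rw [hle]
    rw [hgL] at hg1
    have : 0 ≤ C₁ * C * (ℓ * L ^ (-(3 * η / 4))) := by positivity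
    linarith
  refine ⟨?_, ?_, hU0, hl0.le, hwq, by nlinarith, ?_, ?_⟩
  · exact_mod_cast hU2.trans hpw.1
  · have h1 : (q : ℝ) ≤ n := hq2.trans hpw.2
    have h2 : q ≤ n := by exact_mod_cast h1
    nlinarith [Nat.zero_le n]
  · intro p hp hwp hpq
    have hMp : 0 < MM p := con_MM_pos p
    have hpq' : MM p ≤ MM q := con_MM_mono hpq
    have hwp' : (w : ℝ) < p := by exact_mod_cast hwp
    have hp0 : (0 : ℝ) < p := by linarith
    have h1 : MM p / MM q ≤ 1 := (div_le_one (by linarith)).2 hpq'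
    have h2 : (U : ℝ) / p ≤ C * (L ^ 2 / E) := by
      calc (U : ℝ) / p ≤ C * L ^ 2 / E := div_le_div₀ (by positivity) hU2 (by linarith) (by linarith)
        _ = _ := by ring
    have h3 : 2 * l * (MM p / MM q) ≤ 2 * l := by
      have := mul_le_mul_of_nonneg_left h1 (show 0 ≤ 2 * l by linarith)
      linarith
    calc 2 * l * (MM p / MM q) * ((U : ℝ) / p + 1) ≤ 2 * l * (C * (L ^ 2 / E) + 1) :=
          mul_le_mul h3 (by linarith) (by positivity) (by linarith)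
      _ = 2 * C * (l * (L ^ 2 / E)) + 2 * l := by ring
      _ = 2 * C * L ^ (-(3 * η / 4)) + 2 * l := by rw [hp1]
      _ ≤ 1 := by
        rw [lt_div_iff₀ (by positivity)] at hg4
        linarith
  · have h3 : 4 * l ^ 2 * DD w q U * (MM w / MM q) * U = (4 * (l * DD w q U) * MM w) * (l * (U / MM q)) := by
      field_simp
    have h4 : l * (ε * (U / MM q)) = ε * (l * (U / MM q)) := by ring
    rw [h3, h4]
    have hX : 0 < l * (U / MM q) := by positivity
    have h5 : 4 * (l * DD w q U) * MM w ≤ ε / 2 := by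
      calc 4 * (l * DD w q U) * MM w ≤ 4 * g L * (C₁ * ℓ) :=
            mul_le_mul (by linarith) hMwl hMw.le (by positivity)
        _ = 4 * C₁ * (ℓ * g L) := by ring
        _ ≤ ε / 2 := by
          rw [lt_div_iff₀ (by positivity)] at hg2
          linarith
    have h6 : L ^ (1 + η / 4 / 2) ≤ ε / 2 * (l * (U / MM q)) := by
      have h7 : L ^ 2 / C / (4 * (C₁ * ℓ)) ≤ U / MM q :=
        div_le_div₀ hU0.le hU1 (by linarith) hMql
      have h8 : ε / 2 * (l * (L ^ 2 / C / (4 * (C₁ * ℓ)))) ≤ ε / 2 * (l * (U / MM q)) := by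
        apply mul_le_mul_of_nonneg_left _ (by positivity)
        exact mul_le_mul_of_nonneg_left h7 hl0.le
      refine le_trans ?_ h8
      have e1 : l * L ^ 2 = L ^ (1 + η / 4 / 2) * L ^ (η / 8) := by
        rw [hld, ← Real.rpow_natCast, ← Real.rpow_add hL0, ← Real.rpow_add hL0]
        congr 1
        push_cast
        ring
      have e2 : ε / 2 * (l * (L ^ 2 / C / (4 * (C₁ * ℓ)))) = (l * L ^ 2) * (ε / (8 * C * C₁ * ℓ)) := by
        field_simp
        ring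
      rw [e2, e1, mul_assoc]
      have h9 : 0 < L ^ (1 + η / 4 / 2) := Real.rpow_pos_of_pos hL0 _
      have h10 : 1 ≤ L ^ (η / 8) * (ε / (8 * C * C₁ * ℓ)) := by
        have h11 : L ^ (-(η / 8)) * L ^ (η / 8) = 1 := by
          rw [← Real.rpow_add hL0]
          simp
        have h12 : 0 < L ^ (η / 8) := Real.rpow_pos_of_pos hL0 _
        rw [mul_div_assoc', le_div_iff₀ (by positivity)]
        rw [lt_div_iff₀ (by positivity)] at hg3
        have h13 := mul_le_mul_of_nonneg_right hg3.le h12.le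
        calc 1 * (8 * C * C₁ * ℓ) = ℓ * (L ^ (-(η / 8)) * L ^ (η / 8)) * (8 * C * C₁) := by rw [h11]; ring
          _ = ℓ * L ^ (-(η / 8)) * (8 * C * C₁) * L ^ (η / 8) := by ring
          _ ≤ ε * L ^ (η / 8) := h13
          _ = _ := by ring
      nlinarith
    nlinarith

/-- the bad event at `n` -/
def Bad {Ω : Type} (a : ℕ → Ω → ℕ) (k : ℕ) (C ε : ℝ) (n : ℕ) : Set Ω :=
  {ω | ∃ U q : ℕ, Real.log n ^ 2 / C ≤ U ∧ (U : ℝ) ≤ C * Real.log n ^ 2 ∧
    Real.log n ^ 5 ≤ q ∧ (q : ℝ) ≤ Real.log n ^ 7 ∧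
    ε < |(sv (fun q => a q ω) q n U : ℝ) * (MM q / U) -
      sv (fun q => a q ω) (lv k n) n U * (MM (lv k n) / U)|}

theorem bad (hT : S_TAIL) (hD : S_DSUM) {Ω : Type} [MeasurableSpace Ω] {P : Measure Ω}
    {a : ℕ → Ω → ℕ} (hmod : Model P a) {k : ℕ} {C ε : ℝ} (hk : 1 ≤ k) (hC : 1 ≤ C) (hε : 0 < ε) :
    ∀ᵐ ω ∂P, ∀ᶠ n : ℕ in atTop, ω ∉ Bad a k C ε n := by
  obtain ⟨C₁, hC₁, hCm, hCD⟩ := hD
  have hk1 : (1 : ℝ) ≤ k := by exact_mod_cast hk
  have hη : (0 : ℝ) < 1 / (k : ℝ) := by positivity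
  have hη1 : 1 / (k : ℝ) ≤ 1 := by
    rw [div_le_one (by linarith)]
    exact hk1
  have hev : ∀ᶠ n : ℕ in atTop, P (Bad a k C ε n) ≤ ENNReal.ofReal (1 / (n : ℝ) ^ 2) := by
    filter_upwards [num hC₁ hC hη hη1 hε hCm hCD,
      con_sum_small (η := 1 / (k : ℝ) / 4) (ε := 2) (by positivity) (by norm_num)] with n h1 h2
    have hsub : Bad a k C ε n ⊆ ⋃ U ∈ Finset.range (n + 1), ⋃ z ∈ Finset.range (n ^ 2 + 1),
        {ω | Real.log n ^ 2 / C ≤ U ∧ (U : ℝ) ≤ C * Real.log n ^ 2 ∧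
          Real.log n ^ 5 ≤ z ∧ (z : ℝ) ≤ Real.log n ^ 7 ∧
          ε < |(sv (fun q => a q ω) z n U : ℝ) * (MM z / U) -
            sv (fun q => a q ω) (lv k n) n U * (MM (lv k n) / U)|} := by
      rintro ω ⟨U, z, e1, e2, e3, e4, e5⟩
      obtain ⟨c1, c2, _⟩ := h1 U z e1 e2 e3 e4
      simp only [Set.mem_iUnion, Finset.mem_range]
      exact ⟨U, by omega, z, by omega, e1, e2, e3, e4, e5⟩
    have hone : ∀ U z : ℕ, P {ω | Real.log n ^ 2 / C ≤ U ∧ (U : ℝ) ≤ C * Real.log n ^ 2 ∧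
          Real.log n ^ 5 ≤ z ∧ (z : ℝ) ≤ Real.log n ^ 7 ∧
          ε < |(sv (fun q => a q ω) z n U : ℝ) * (MM z / U) -
            sv (fun q => a q ω) (lv k n) n U * (MM (lv k n) / U)|} ≤
        ENNReal.ofReal (2 * Real.exp (-(2 / 2 * Real.log n ^ (1 + 1 / (k : ℝ) / 4 / 2)))) := by
      intro U z
      by_cases hc : Real.log n ^ 2 / C ≤ U ∧ (U : ℝ) ≤ C * Real.log n ^ 2 ∧
          Real.log n ^ 5 ≤ z ∧ (z : ℝ) ≤ Real.log n ^ 7
      · obtain ⟨c1, c2, c3, c4, c5, c6, c7, c8⟩ := h1 U z hc.1 hc.2.1 hc.2.2.1 hc.2.2.2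
        have h3 := hT Ω P a hmod n U (lv k n) z (Real.log n ^ (-1 + 1 / (k : ℝ) / 4)) (ε * (U / MM z))
          c4 c5 c6 c7
        have hMz : 0 < MM z := con_MM_pos z
        refine (measure_mono ?_).trans (h3.trans ?_)
        · intro ω hω
          have h4 := hω.2.2.2.2
          simp only [Set.mem_ofPred_eq]
          have h5 : |(sv (fun q => a q ω) z n U : ℝ) * (MM z / U) -
            sv (fun q => a q ω) (lv k n) n U * (MM (lv k n) / U)| * (U / MM z) =
            |(sv (fun q => a q ω) z n U : ℝ) - sv (fun q => a q ω) (lv k n) n U * (MM (lv k n) / MM z)| := by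
            have h6 : (U : ℝ) / MM z = |(U : ℝ) / MM z| :=
              (abs_of_pos (show (0 : ℝ) < U / MM z by positivity)).symm
            rw [h6, ← abs_mul]
            congr 1
            field_simp
          rw [← h5]
          exact mul_lt_mul_of_pos_right h4 (by positivity)
        · apply ENNReal.ofReal_le_ofReal
          apply mul_le_mul_of_nonneg_left _ (by norm_num)
          exact Real.exp_le_exp.2 c8
      · have : {ω | Real.log n ^ 2 / C ≤ U ∧ (U : ℝ) ≤ C * Real.log n ^ 2 ∧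
          Real.log n ^ 5 ≤ z ∧ (z : ℝ) ≤ Real.log n ^ 7 ∧
          ε < |(sv (fun q => a q ω) z n U : ℝ) * (MM z / U) -
            sv (fun q => a q ω) (lv k n) n U * (MM (lv k n) / U)|} = ∅ := by
          ext ω
          simp only [Set.mem_ofPred_eq, Set.mem_empty_iff_false, iff_false]
          rintro ⟨e1, e2, e3, e4, _⟩
          exact hc ⟨e1, e2, e3, e4⟩
        rw [this, measure_empty]
        exact bot_le
    refine (measure_mono hsub).trans ?_
    refine (measure_biUnion_finset_le _ _).trans ?_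
    refine (Finset.sum_le_sum fun U _ => (measure_biUnion_finset_le _ _).trans
      (Finset.sum_le_sum fun z _ => hone U z)).trans ?_
    rw [Finset.sum_const, Finset.sum_const, Finset.card_range, Finset.card_range, nsmul_eq_mul, nsmul_eq_mul,
      ← ENNReal.ofReal_natCast, ← ENNReal.ofReal_natCast, ← ENNReal.ofReal_mul (Nat.cast_nonneg _),
      ← ENNReal.ofReal_mul (Nat.cast_nonneg _)]
    apply ENNReal.ofReal_le_ofReal
    push_cast
    refine le_trans (le_of_eq ?_) h2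
    ring
  obtain ⟨n0, hn0⟩ := eventually_atTop.1 hev
  have hsum : ∑' n : ℕ, P (Bad a k C ε (n + n0)) ≠ ⊤ := by
    have h1 : ∑' n : ℕ, P (Bad a k C ε (n + n0)) ≤ ∑' n : ℕ, ENNReal.ofReal (1 / ((n + n0 : ℕ) : ℝ) ^ 2) :=
      ENNReal.tsum_le_tsum fun n => hn0 (n + n0) (by omega)
    have h2 : Summable fun n : ℕ => 1 / ((n + n0 : ℕ) : ℝ) ^ 2 :=
      (summable_nat_add_iff (f := fun n : ℕ => 1 / (n : ℝ) ^ 2) n0).2 (Real.summable_one_div_nat_pow.2 (by norm_num))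
    exact ne_top_of_le_ne_top (h2.tsum_ofReal_ne_top) h1
  filter_upwards [ae_eventually_notMem hsum] with ω hω
  obtain ⟨m, hm⟩ := eventually_atTop.1 hω
  filter_upwards [eventually_ge_atTop (m + n0)] with n hn
  have := hm (n - n0) (by omega)
  rwa [Nat.sub_add_cancel (by omega)] at this

end Pool.Agent.H50.CW.CONAx

namespace Pool.Agent.H50.CW

open Pool.Agent.H50.BF CONAx

/-- CONA -/
theorem cona (hT : Pool.Agent.H50.BF.S_TAIL) (hD : Pool.Agent.H50.BF.S_DSUM) : S_CONA := by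
  intro Ω _ P a hmod
  have hall : ∀ᵐ ω ∂P, ∀ (k m j : ℕ), 1 ≤ k → 1 ≤ m →
      ∀ᶠ n : ℕ in atTop, ω ∉ CONAx.Bad a k (m : ℝ) (1 / ((j : ℝ) + 1)) n := by
    rw [ae_all_iff]
    intro k
    rw [ae_all_iff]
    intro m
    rw [ae_all_iff]
    intro j
    by_cases hk : 1 ≤ k
    · by_cases hm : 1 ≤ m
      · filter_upwards [bad hT hD hmod hk (show (1 : ℝ) ≤ m by exact_mod_cast hm)
          (show (0:ℝ) < 1 / ((j : ℝ) + 1) by positivity)] with ω hω
        exact fun _ _ => hω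
      · exact Eventually.of_forall fun ω _ h => absurd h hm
    · exact Eventually.of_forall fun ω h _ => absurd h hk
  filter_upwards [hall] with ω hω
  intro k C ε hk hC hε
  obtain ⟨m, hm⟩ := exists_nat_ge C
  obtain ⟨j, hj⟩ := exists_nat_one_div_lt hε
  have hm1 : 1 ≤ m := by
    have : (1 : ℝ) ≤ m := hC.trans hm
    exact_mod_cast this
  filter_upwards [hω k m j hk hm1] with n h1
  intro U q hU1 hU2 hq1 hq2
  by_contra hcon
  push Not at hcon
  apply h1
  refine ⟨U, q, le_trans ?_ hU1, hU2.trans ?_, hq1, hq2, hj.trans hcon⟩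
  · exact div_le_div_of_nonneg_left (by positivity) (by linarith) hm
  · exact mul_le_mul_of_nonneg_right hm (by positivity)

end Pool.Agent.H50.CW
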