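import Pool.Agent.H50.CW.Stm

set_option autoImplicit false

open MeasureTheory Filter
open scoped Topology ENNReal

namespace Pool.Agent.H50.CW

theorem DIV.omega_le (d : ℕ) (hd : 1 ≤ d) : d.primeFactors.card ≤ Nat.log 2 d := by
  rw [Nat.le_log_iff_pow_le (by norm_num) (by omega)]
  have h1 : 2 ^ d.primeFactors.card ≤ ∏ p ∈ d.primeFactors, p := by
    refine Finset.pow_card_le_prod _ _ _ fun p hp => ?_
    exact (Nat.prime_of_mem_primeFactors hp).two_le
  exact h1.trans (Nat.le_of_dvd hd (Nat.prod_primeFactors_dvd d))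

theorem dv : S_DIV := by
  intro q z U n n' Y hq hn hn'
  classical
  have hq' : (0 : ℝ) < q := by exact_mod_cast hq
  have h1 : ∀ p : ℕ, (prs n n' U p : ℝ) / p = ∑ kk ∈ Finset.range U ×ˢ Finset.range U,
      (if p ∣ (n' + kk.2) - (n + kk.1) then (1 : ℝ) / p else 0) := by
    intro p
    rw [prs, Finset.card_filter, Nat.cast_sum, Finset.sum_div]
    refine Finset.sum_congr rfl fun kk _ => ?_
    split_ifs <;> simp
  have h2 : ∀ kk ∈ Finset.range U ×ˢ Finset.range U,
      ∑ p ∈ (Finset.Ioc q z).filter Nat.Prime,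
        (if p ∣ (n' + kk.2) - (n + kk.1) then (1 : ℝ) / p else 0) ≤ (Nat.log 2 Y : ℝ) / q := by
    intro kk hkk
    obtain ⟨hk1, hk2⟩ := Finset.mem_product.1 hkk
    rw [Finset.mem_range] at hk1 hk2
    obtain ⟨d, hd⟩ : ∃ d : ℕ, d = (n' + kk.2) - (n + kk.1) := ⟨_, rfl⟩
    rw [← hd]
    have hd1 : 1 ≤ d := by omega
    have hdY : d ≤ Y := by omega
    rw [← Finset.sum_filter]
    have h3 : ∀ p ∈ ((Finset.Ioc q z).filter Nat.Prime).filter (fun p => p ∣ d),
        (1 : ℝ) / p ≤ 1 / q := by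
      intro p hp
      rw [Finset.mem_filter, Finset.mem_filter, Finset.mem_Ioc] at hp
      have : (q : ℝ) ≤ p := by exact_mod_cast hp.1.1.1.le
      exact one_div_le_one_div_of_le hq' this
    refine (Finset.sum_le_sum h3).trans ?_
    rw [Finset.sum_const, nsmul_eq_mul, mul_one_div]
    have h4 : (((Finset.Ioc q z).filter Nat.Prime).filter (fun p => p ∣ d)).card ≤ Nat.log 2 Y := by
      refine le_trans (Finset.card_le_card ?_) ((DIV.omega_le d hd1).trans (Nat.log_mono_right hdY))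
      intro p hp
      rw [Finset.mem_filter, Finset.mem_filter] at hp
      exact Nat.mem_primeFactors.2 ⟨hp.1.2, hp.2, by omega⟩
    gcongr
  calc ∑ p ∈ (Finset.Ioc q z).filter Nat.Prime, (prs n n' U p : ℝ) / p
      = ∑ kk ∈ Finset.range U ×ˢ Finset.range U, ∑ p ∈ (Finset.Ioc q z).filter Nat.Prime,
        (if p ∣ (n' + kk.2) - (n + kk.1) then (1 : ℝ) / p else 0) := by
        rw [Finset.sum_comm]
        exact Finset.sum_congr rfl fun p _ => h1 p
    _ ≤ ∑ _kk ∈ Finset.range U ×ˢ Finset.range U, (Nat.log 2 Y : ℝ) / q := Finset.sum_le_sum h2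
    _ = (U : ℝ) ^ 2 * Nat.log 2 Y / q := by
        rw [Finset.sum_const, Finset.card_product, Finset.card_range, nsmul_eq_mul]
        push_cast
        ring

end Pool.Agent.H50.CW
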