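import Pool.Agent.H50.CW.Stm

set_option autoImplicit false

open MeasureTheory Filter
open scoped Topology ENNReal

namespace Pool.Agent.H50.CW

theorem dpi : BF.S_IND → S_DPI := by
  intro hIND Ω _ P a hM q F hF
  obtain ⟨p, hp, hpp⟩ := Nat.exists_infinite_primes (q + 1)
  refine (hIND Ω P a hM p hpp (fun _ b => F b) fun r b b' h => ?_).1 0
  exact hF b b' fun p' hp' hle => h p' hp' (by omega)

end Pool.Agent.H50.CW
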