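import Pool.Agent.H50.CW.TRC
import Pool.Agent.H50.BF.SUB

/-! CW-EXD (helper63) -/

set_option autoImplicit false

namespace Pool.Agent.H50.CW

open Pool.Agent.H50.BF Pool.Agent.H50.BF.BTaux Filter
open scoped Topology

namespace CWaux

lemma floor_two (w : ℕ) : ⌊(w : ℝ) ^ (2 : ℝ)⌋₊ = w ^ 2 := by
  rw [Real.rpow_two, ← Nat.cast_pow, Nat.floor_natCast]

lemma val_two (w t : ℕ) : (sv (fun _ => 0) w t ⌊(w : ℝ) ^ (2 : ℝ)⌋₊ : ℝ) * MM w / (w : ℝ) ^ (2 : ℝ) =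
    (sv (fun _ => 0) w t (w ^ 2) : ℝ) * (MM w / ((w ^ 2 : ℕ) : ℝ)) := by
  rw [floor_two, Real.rpow_two]
  push_cast
  ring

lemma lo_two (w : ℕ) : lo w 2 = ⨅ t : ℕ, (sv (fun _ => 0) w t (w ^ 2) : ℝ) * (MM w / ((w ^ 2 : ℕ) : ℝ)) := by
  unfold lo
  congr 1
  funext t
  exact val_two w t

lemma hi_two (w : ℕ) : hi w 2 = ⨆ t : ℕ, (sv (fun _ => 0) w t (w ^ 2) : ℝ) * (MM w / ((w ^ 2 : ℕ) : ℝ)) := by
  unfold hi
  congr 1
  funext t
  exact val_two w t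

lemma val_nonneg (w t : ℕ) : 0 ≤ (sv (fun _ => 0) w t (w ^ 2) : ℝ) * (MM w / ((w ^ 2 : ℕ) : ℝ)) := by
  have := MM_pos w
  positivity

lemma lo_le (w t : ℕ) : lo w 2 ≤ (sv (fun _ => 0) w t (w ^ 2) : ℝ) * (MM w / ((w ^ 2 : ℕ) : ℝ)) := by
  rw [lo_two]
  refine ciInf_le ⟨0, ?_⟩ t
  rintro _ ⟨t, rfl⟩
  exact val_nonneg w t

lemma bdd_above (w : ℕ) : BddAbove (Set.range fun t : ℕ =>
    (sv (fun _ => 0) w t (w ^ 2) : ℝ) * (MM w / ((w ^ 2 : ℕ) : ℝ))) := by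
  have := MM_pos w
  refine ⟨((w ^ 2 : ℕ) : ℝ) * (MM w / ((w ^ 2 : ℕ) : ℝ)), ?_⟩
  rintro _ ⟨t, rfl⟩
  exact mul_le_mul_of_nonneg_right (Nat.cast_le.2 (sv_le _ _ _ _)) (by positivity)

lemma le_hi (w t : ℕ) : (sv (fun _ => 0) w t (w ^ 2) : ℝ) * (MM w / ((w ^ 2 : ℕ) : ℝ)) ≤ hi w 2 := by
  rw [hi_two]
  exact le_ciSup (bdd_above w) t

/-- the density changes little if the interval is slightly prolonged -/
lemma dens_close {S S' M U U' δ C1 : ℝ} (hM : 0 ≤ M) (hU : 0 < U) (hUU : U ≤ U') (hU' : U' ≤ (1 + δ) * U)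
    (hδ : 0 ≤ δ) (hS : 0 ≤ S) (hSS : S ≤ S')
    (h1 : (S' - S) * (M / U) ≤ C1 * δ) (h2 : S * (M / U) ≤ C1) :
    |S' * (M / U') - S * (M / U)| ≤ C1 * δ := by
  have hU'0 : 0 < U' := lt_of_lt_of_le hU hUU
  have hMU : 0 ≤ M / U := by positivity
  rw [abs_le]
  constructor
  · have e1 : S * (M / U) * (U / U') ≤ S' * (M / U') := by
      have : S * (M / U) * (U / U') = S * (M / U') := by
        field_simp
      rw [this]
      exact mul_le_mul_of_nonneg_right hSS (by positivity)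
    have e2 : 1 - δ ≤ U / U' := by
      rw [le_div_iff₀ hU'0]
      rcases le_total δ 1 with h | h
      · calc (1 - δ) * U' ≤ (1 - δ) * ((1 + δ) * U) := mul_le_mul_of_nonneg_left hU' (by linarith)
          _ = U - δ ^ 2 * U := by ring
          _ ≤ U := by
            have : 0 ≤ δ ^ 2 * U := by positivity
            linarith
      · have : (1 - δ) * U' ≤ 0 := mul_nonpos_of_nonpos_of_nonneg (by linarith) hU'0.le
        linarith
    have e3 : S * (M / U) * (1 - δ) ≤ S * (M / U) * (U / U') :=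
      mul_le_mul_of_nonneg_left e2 (by positivity)
    have e4 : S * (M / U) * δ ≤ C1 * δ := mul_le_mul_of_nonneg_right h2 hδ
    linarith
  · have e1 : S' * (M / U') ≤ S' * (M / U) := by
      refine mul_le_mul_of_nonneg_left ?_ (hS.trans hSS)
      exact div_le_div_of_nonneg_left hM hU hUU
    linarith

end CWaux

open CWaux

theorem exd : S_TRANS → S_SUB → S_CRT → S_EXD := by
  intro ⟨C0, hC0, htrans⟩ ⟨C1, hC1, hsub⟩ hcrt C ε hC hε
  set η : ℝ := min (1 / 2) (ε / (2 * C0)) with hηd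
  have hη : 0 < η := lt_min (by norm_num) (by positivity)
  have hη1 : η ≤ 1 / 2 := min_le_left _ _
  have hηε : C0 * η ≤ ε / 2 := by
    calc C0 * η ≤ C0 * (ε / (2 * C0)) := mul_le_mul_of_nonneg_left (min_le_right _ _) hC0.le
      _ = ε / 2 := by field_simp
  set δ : ℝ := min 1 (ε / (2 * C1)) with hδd
  have hδ : 0 < δ := lt_min (by norm_num) (by positivity)
  have hδ1 : δ ≤ 1 := min_le_left _ _
  have hδε : C1 * δ ≤ ε / 2 := by
    calc C1 * δ ≤ C1 * (ε / (2 * C1)) := mul_le_mul_of_nonneg_left (min_le_right _ _) hC1.le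
      _ = ε / 2 := by field_simp
  refine ⟨η / 4, by positivity, by linarith, ?_⟩
  obtain ⟨N0, hN0⟩ := eventually_atTop.1 (htrans η hη hη1)
  obtain ⟨N1, hN1⟩ := eventually_atTop.1 (hsub δ hδ hδ1)
  filter_upwards [tendsto_log_nat.eventually (lev (C := 4 * C) (by linarith) hη hη1),
    tendsto_log_nat.eventually_ge_atTop (2 * C * (N0 + N1 + 1 + 2 / δ))] with n h2 h3
  intro a m U v hU1 hU2 hv1 hv2
  have hN : (0 : ℝ) ≤ N0 := Nat.cast_nonneg _
  have hN' : (0 : ℝ) ≤ N1 := Nat.cast_nonneg _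
  have hδi : 0 < 2 / δ := by positivity
  have hC0' : 0 < C := by linarith
  have hL2 : 2 * C ≤ Real.log n := by
    refine le_trans ?_ h3
    have : 0 ≤ 2 * C * (N0 + N1 + 2 / δ) := by positivity
    linarith
  have hL1 : 1 ≤ Real.log n := by linarith
  obtain ⟨b1, b2, b3, b4, b5⟩ := sqrt_bd hC hL2 hU1 hU2
  set L := Real.log n with hLd
  set w := Nat.sqrt U with hwd
  have hwb : N0 + N1 + 1 + 2 / δ ≤ w := by
    refine le_trans ?_ b5
    rw [le_div_iff₀ (by linarith)]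
    linarith
  have hwN : N0 ≤ w := by
    have : (N0 : ℝ) ≤ w := by linarith
    exact_mod_cast this
  have hwN1 : N1 ≤ w := by
    have : (N1 : ℝ) ≤ w := by linarith
    exact_mod_cast this
  have hw1 : (1 : ℝ) ≤ w := by linarith
  have hwδ : 2 / δ ≤ w := by linarith
  obtain ⟨c1, c2⟩ := h2 w (Nat.cast_nonneg _) b1 b2
  have hv3 : (v : ℝ) ≤ (w : ℝ) ^ (1 + η) := by
    refine hv2.trans (le_trans ?_ c2)
    have : 0 < L ^ (1 + η / 4) := Real.rpow_pos_of_pos (by linarith) _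
    linarith
  have hw2 : (w : ℝ) ^ 2 / 2 ≤ U := by
    have : 0 ≤ (w : ℝ) ^ 2 := by positivity
    linarith
  have hww1 : (w : ℝ) ^ (1 - η) ≤ w := by
    calc (w : ℝ) ^ (1 - η) ≤ (w : ℝ) ^ (1 : ℝ) := Real.rpow_le_rpow_of_exponent_le hw1 (by linarith)
      _ = w := Real.rpow_one _
  have hww2 : (w : ℝ) ≤ (w : ℝ) ^ (1 + η) := by
    calc (w : ℝ) = (w : ℝ) ^ (1 : ℝ) := (Real.rpow_one _).symm
      _ ≤ (w : ℝ) ^ (1 + η) := Real.rpow_le_rpow_of_exponent_le hw1 (by linarith)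
  have h5 := two_lev (hN0 w hwN) a v w m U (c1.trans hv1) hww1 hv3 hww2 hw2
  obtain ⟨N, hNN⟩ := hcrt.1 a w
  rw [hNN m U] at h5
  have hww : ((w ^ 2 : ℕ) : ℝ) = (w : ℝ) ^ 2 := by push_cast; ring
  have hsq1 : Real.sqrt w ≤ w := by
    rw [Real.sqrt_le_left (by linarith)]
    nlinarith
  have hww3 : (w : ℝ) ≤ (w : ℝ) ^ 2 := by nlinarith
  have hUU : w ^ 2 ≤ U := by
    have : ((w ^ 2 : ℕ) : ℝ) ≤ U := by rw [hww]; exact b3
    exact_mod_cast this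
  have hU' : (U : ℝ) ≤ (1 + δ) * ((w ^ 2 : ℕ) : ℝ) := by
    rw [hww]
    refine b4.trans ?_
    rw [div_le_iff₀ hδ] at hwδ
    nlinarith
  have h6 := hN1 w hwN1 (fun _ => 0) w (m + N) (w ^ 2) U hsq1 hww3 (by rw [hww]; linarith) hUU hU'
  have hMM := MM_pos w
  have h7 := dens_close (U := ((w ^ 2 : ℕ) : ℝ)) (U' := (U : ℝ)) hMM.le (by rw [hww]; positivity)
    (by exact_mod_cast hUU) hU' hδ.le (Nat.cast_nonneg _)
    (Nat.cast_le.2 (sv_mono (m + N) hUU)) h6.1 h6.2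
  have h8 := lo_le w (m + N)
  have h9 := le_hi w (m + N)
  rw [abs_le] at h5 h7
  constructor <;> linarith [h5.1, h5.2, h7.1, h7.2]

end Pool.Agent.H50.CW
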