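import Pool.Agent.H50.CW.Stm

set_option autoImplicit false

open MeasureTheory Filter
open scoped Topology ENNReal

namespace Pool.Agent.H50.CW

open Pool.Agent.H50.BF

theorem EXI.XX_tendsto {C : ℝ} (hC : 0 < C) : Tendsto (XX C) atTop atTop := by
  unfold XX
  refine tendsto_nat_ceil_atTop.comp (Real.tendsto_exp_atTop.comp ?_)
  exact tendsto_natCast_atTop_atTop.atTop_div_const (Real.sqrt_pos.2 hC)

theorem exi : S_EXJ → S_EXI := by
  intro hEXJ Ω _ P a hM C t δ σ hC ht hδ hσ hlt U Z hU hZ hfr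
  obtain ⟨δ', hδ'0, hδ'δ, hδ'1⟩ : ∃ δ' : ℝ, 0 < δ' ∧ δ' ≤ δ ∧
      C * σ * ((1 + t) * Real.log (1 + t) - t) + δ' * |Real.log (1 + t)| < 1 := by
    obtain ⟨g, hg⟩ : ∃ g : ℝ, g = 1 - C * σ * ((1 + t) * Real.log (1 + t) - t) := ⟨_, rfl⟩
    have hg0 : 0 < g := by linarith
    have hK : 0 < |Real.log (1 + t)| + 1 := by positivity
    refine ⟨min δ (g / (2 * (|Real.log (1 + t)| + 1))), lt_min hδ (by positivity),
      min_le_left _ _, ?_⟩
    have h1 : min δ (g / (2 * (|Real.log (1 + t)| + 1))) * |Real.log (1 + t)| ≤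
        g / (2 * (|Real.log (1 + t)| + 1)) * (|Real.log (1 + t)| + 1) :=
      mul_le_mul (min_le_right _ _) (by linarith) (abs_nonneg _) (by positivity)
    have h2 : g / (2 * (|Real.log (1 + t)| + 1)) * (|Real.log (1 + t)| + 1) = g / 2 := by
      field_simp
    linarith
  have hnull : ∀ m : ℕ, P {ω | ∀ X : ℕ, m ≤ X → ¬ ∃ n : ℕ, X ≤ n ∧ n ≤ 3 * X ∧
      |(sv (fun p => a p ω) (Z X) n (U X) : ℝ) / Real.log X - (1 + t) * (C * σ)| ≤ δ'} = 0 := by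
    intro m
    refine le_antisymm (ENNReal.le_of_forall_pos_le_add fun ε hε _ => ?_) zero_le
    rw [zero_add]
    obtain ⟨η, hη, hev⟩ := hEXJ Ω P a hM C t δ' σ hC ht hδ'0 hσ hδ'1 U Z hU hZ ε
      (by exact_mod_cast hε)
    have hXX := (EXI.XX_tendsto hC).eventually_ge_atTop m
    have hfr' : ∃ᶠ w : ℕ in atTop, |hi w 2 - σ| ≤ η ∨ |lo w 2 - σ| ≤ η := by
      rcases hfr with h | h
      · exact (h η hη).mono fun w hw => Or.inl hw
      · exact (h η hη).mono fun w hw => Or.inr hw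
    obtain ⟨w, hw1, hw2, hw3⟩ := (hfr'.and_eventually (hev.and hXX)).exists
    have h1 := hw2 hw1
    rw [ENNReal.ofReal_coe_nnreal] at h1
    refine le_trans (measure_mono fun ω hω => ?_) h1
    exact hω (XX C w) hw3
  have h2 : P (⋃ m : ℕ, {ω | ∀ X : ℕ, m ≤ X → ¬ ∃ n : ℕ, X ≤ n ∧ n ≤ 3 * X ∧
      |(sv (fun p => a p ω) (Z X) n (U X) : ℝ) / Real.log X - (1 + t) * (C * σ)| ≤ δ'}) = 0 :=
    measure_iUnion_null hnull
  show P {ω | ¬ ∃ᶠ X : ℕ in atTop, ∃ n : ℕ, X ≤ n ∧ n ≤ 3 * X ∧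
    |(sv (fun p => a p ω) (Z X) n (U X) : ℝ) / Real.log X - (1 + t) * (C * σ)| ≤ δ} = 0
  refine measure_mono_null (fun ω hω => ?_) h2
  simp only [Set.mem_setOf_eq, not_frequently] at hω
  obtain ⟨m, hm⟩ := eventually_atTop.1 hω
  refine Set.mem_iUnion.2 ⟨m, fun X hX => ?_⟩
  rintro ⟨n, hn1, hn2, hn3⟩
  exact hm X hX ⟨n, hn1, hn2, hn3.trans hδ'δ⟩

end Pool.Agent.H50.CW
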