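import Pool.Agent.H50.CW.SEC

/-!
# Project CW: existence of windows with a prescribed number of survivors (proof of `S_EXJ`)
-/

set_option autoImplicit false

open MeasureTheory Filter
open scoped Topology ENNReal

namespace Pool.Agent.H50.CW

open Pool.Agent.H50.BF

namespace EXJp

open SECp

theorem ev_rpow {κ η : ℝ} (hκ : 0 < κ) (hη : 0 < η) :
    ∀ᶠ L : ℝ in atTop, (2 * L) ^ (1 - η) ≤ κ * L - 1 := by
  have h1 : Tendsto (fun L : ℝ => (2 * L) ^ (-η)) atTop (𝓝 0) :=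
    (tendsto_rpow_neg_atTop hη).comp (tendsto_id.const_mul_atTop (by norm_num))
  have h2 : ∀ᶠ L : ℝ in atTop, (2 * L) ^ (-η) < κ / 4 := h1.eventually_lt_const (by positivity)
  filter_upwards [h2, eventually_ge_atTop (2 / κ), eventually_gt_atTop 0] with L h3 h4 h5
  have h6 : (2 * L) ^ (1 - η) = 2 * L * (2 * L) ^ (-η) := by
    rw [sub_eq_add_neg, Real.rpow_add (by positivity), Real.rpow_one]
  rw [h6]
  rw [div_le_iff₀ hκ] at h4
  have h7 : 2 * L * (2 * L) ^ (-η) ≤ 2 * L * (κ / 4) :=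
    mul_le_mul_of_nonneg_left h3.le (by positivity)
  linarith

theorem ev_exp {b : ℝ} (hb : 0 < b) (D E : ℝ) :
    ∀ᶠ L : ℝ in atTop, D * L ^ 2 + E ≤ Real.exp (b * L) := by
  have h1 : (fun L : ℝ => D * L ^ 2 + E) =o[atTop] fun L => Real.exp (b * L) := by
    refine Asymptotics.IsLittleO.add ?_ ?_
    · exact (isLittleO_pow_exp_pos_mul_atTop (k := 2) hb).const_mul_left D
    · have h2 := (isLittleO_pow_exp_pos_mul_atTop (k := 0) hb).const_mul_left E
      simpa using h2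
  have h3 := h1.bound (c := 1) one_pos
  filter_upwards [h3] with L h4
  rw [one_mul, Real.norm_eq_abs, Real.norm_eq_abs, abs_of_pos (Real.exp_pos _)] at h4
  exact (le_abs_self _).trans h4

theorem ev_MM (hMERT : S_MERT) : ∀ᶠ L : ℝ in atTop, MM ⌈L ^ 6⌉₊ < L / 2 := by
  have hγ : 0 < Real.exp Real.eulerMascheroniConstant := Real.exp_pos _
  set A : ℝ := Real.exp Real.eulerMascheroniConstant + 1 with hA
  have h1 : ∀ᶠ N : ℕ in atTop, MM N / Real.log N < A :=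
    hMERT.eventually_lt_const (by rw [hA]; linarith)
  have h2 : Tendsto (fun L : ℝ => ⌈L ^ 6⌉₊) atTop atTop :=
    tendsto_nat_ceil_atTop.comp (tendsto_pow_atTop (by norm_num))
  have h3 := h2.eventually h1
  have h4 : (fun L : ℝ => Real.log L) =o[atTop] fun L => L := Real.isLittleO_log_id_atTop
  have hA0 : 0 < A := by positivity
  have h5 := h4.bound (c := 1 / (15 * A)) (by positivity)
  filter_upwards [h3, h5, eventually_ge_atTop 2] with L h6 h7 h8
  have hL0 : 0 < L := by linarith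
  have hL6 : (64 : ℝ) ≤ L ^ 6 := by
    calc (64 : ℝ) = 2 ^ 6 := by norm_num
      _ ≤ L ^ 6 := by gcongr
  have hN1 : (L ^ 6 : ℝ) ≤ (⌈L ^ 6⌉₊ : ℝ) := Nat.le_ceil _
  have hN2 : (⌈L ^ 6⌉₊ : ℝ) < L ^ 6 + 1 := Nat.ceil_lt_add_one (by positivity)
  have hN3 : (⌈L ^ 6⌉₊ : ℝ) ≤ L ^ 7 := by
    have : L ^ 6 * 2 ≤ L ^ 6 * L := mul_le_mul_of_nonneg_left h8 (by positivity)
    have h9 : L ^ 7 = L ^ 6 * L := by ring
    linarith
  have hlog : Real.log (⌈L ^ 6⌉₊ : ℝ) ≤ 7 * Real.log L := by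
    calc Real.log (⌈L ^ 6⌉₊ : ℝ) ≤ Real.log (L ^ 7) := Real.log_le_log (by linarith) hN3
      _ = 7 * Real.log L := by
          rw [Real.log_pow]
          norm_num
  have hlogpos : 0 < Real.log (⌈L ^ 6⌉₊ : ℝ) := Real.log_pos (by linarith)
  rw [div_lt_iff₀ hlogpos] at h6
  have hlogL : 0 ≤ Real.log L := Real.log_nonneg (by linarith)
  rw [Real.norm_eq_abs, Real.norm_eq_abs, abs_of_nonneg hlogL, abs_of_pos hL0] at h7
  calc MM ⌈L ^ 6⌉₊ < A * Real.log (⌈L ^ 6⌉₊ : ℝ) := h6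
    _ ≤ A * (7 * Real.log L) := mul_le_mul_of_nonneg_left hlog hA0.le
    _ ≤ A * (7 * (1 / (15 * A) * L)) := by gcongr
    _ = 7 / 15 * L := by field_simp
    _ ≤ L / 2 := by linarith

theorem asym (hMERT : S_MERT) {C κ η₁ η₂ η₀ ν : ℝ} (K : ℝ) (hC : 0 < C) (hκ : 0 < κ)
    (hη₁ : 0 < η₁) (hη₂ : 0 < η₂) (hη₀ : 0 < η₀) (hν : 0 < ν) :
    ∀ᶠ L : ℝ in atTop, 32 ≤ L ∧ (2 * L) ^ (1 - η₂) ≤ κ * L - 1 ∧ (2 * L) ^ (1 - η₁) ≤ κ * L - 1 ∧
      8 * C ^ 2 * L ^ 4 * (L + 2) ≤ ν * L ^ 6 ∧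
      2 * C * L ^ 2 ≤ L ^ 6 ∧ K * (2 * (2 * C * L ^ 2)) ≤ 1 / 2 * L ^ 6 ∧
      4 * C * L ^ 2 + 2 ≤ Real.exp (η₀ / 2 * L) ∧ 2 * C * L ^ 2 ≤ Real.exp L ∧
      MM ⌈L ^ 6⌉₊ < L / 2 := by
  filter_upwards [eventually_ge_atTop 32, ev_rpow hκ hη₂, ev_rpow hκ hη₁,
    eventually_ge_atTop (16 * C ^ 2 / ν), eventually_ge_atTop (2 * C),
    eventually_ge_atTop (8 * K * C), ev_exp (b := η₀ / 2) (by positivity) (4 * C) 2,
    ev_exp (b := 1) one_pos (2 * C) 0, ev_MM hMERT] with L h1 h2 h3 h4 h5 h6 h7 h8 h9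
  have hL0 : 0 < L := by linarith
  have hL4 : L ≤ L ^ 4 := by
    calc L = L ^ 1 := (pow_one L).symm
      _ ≤ L ^ 4 := pow_le_pow_right₀ (by linarith) (by norm_num)
  refine ⟨h1, h2, h3, ?_, ?_, ?_, h7, ?_, h9⟩
  · rw [div_le_iff₀ hν] at h4
    have h10 : L + 2 ≤ 2 * L := by linarith
    calc 8 * C ^ 2 * L ^ 4 * (L + 2) ≤ 8 * C ^ 2 * L ^ 4 * (2 * L) := by gcongr
      _ = (16 * C ^ 2) * L ^ 5 := by ring
      _ ≤ (L * ν) * L ^ 5 := by gcongr
      _ = ν * L ^ 6 := by ring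
  · calc 2 * C * L ^ 2 ≤ L ^ 4 * L ^ 2 := by
          gcongr
          linarith
      _ = L ^ 6 := by ring
  · have h10 : 8 * K * C ≤ L ^ 4 := h6.trans hL4
    have h11 : 0 ≤ L ^ 2 := by positivity
    calc K * (2 * (2 * C * L ^ 2)) = 1 / 2 * (8 * K * C) * L ^ 2 := by ring
      _ ≤ 1 / 2 * L ^ 4 * L ^ 2 := by gcongr
      _ = 1 / 2 * L ^ 6 := by ring
  · simpa using h8

theorem bnd_congr {b b' : ℕ → ℕ} {C ε η : ℝ} {n : ℕ}
    (h : ∀ p : ℕ, p.Prime → p ≤ ⌈Real.log n ^ 7⌉₊ + ⌈Real.log n ^ (1 + η)⌉₊ →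
      b p % p = b' p % p) (hb : Bnd b C ε η n) : Bnd b' C ε η n := by
  intro U q v h1 h2 h3 h4 h5 h6
  have hq : q ≤ ⌈Real.log n ^ 7⌉₊ := by
    have := h4.trans (Nat.le_ceil _)
    exact_mod_cast this
  have hv : v ≤ ⌈Real.log n ^ (1 + η)⌉₊ := by
    have := h6.trans (Nat.le_ceil _)
    exact_mod_cast this
  have e1 : sv b q n U = sv b' q n U := sv_congr (fun p hp hpq => h p hp (by omega)) n U
  have e2 : sv b v n U = sv b' v n U := sv_congr (fun p hp hpq => h p hp (by omega)) n U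
  rw [← e1, ← e2]
  exact hb U q v h1 h2 h3 h4 h5 h6

theorem XX_ge (C : ℝ) (w : ℕ) : Real.exp (w / Real.sqrt C) ≤ (XX C w : ℝ) := Nat.le_ceil _

theorem XX_pos (C : ℝ) (w : ℕ) : (0 : ℝ) < XX C w :=
  lt_of_lt_of_le (Real.exp_pos _) (XX_ge C w)

theorem log_XX_ge (C : ℝ) (w : ℕ) : (w : ℝ) / Real.sqrt C ≤ Real.log (XX C w) := by
  rw [Real.le_log_iff_exp_le (XX_pos C w)]
  exact XX_ge C w

theorem log_XX_le {C : ℝ} (w : ℕ) : Real.log (XX C w) ≤ w / Real.sqrt C + 1 := by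
  have h0 : 0 ≤ (w : ℝ) / Real.sqrt C := div_nonneg (Nat.cast_nonneg _) (Real.sqrt_nonneg _)
  have h1 : (XX C w : ℝ) < Real.exp (w / Real.sqrt C) + 1 :=
    Nat.ceil_lt_add_one (Real.exp_pos _).le
  have h2 : 1 ≤ Real.exp (w / Real.sqrt C) := Real.one_le_exp h0
  have h3 : (2 : ℝ) ≤ Real.exp 1 := by
    have := Real.add_one_le_exp (1 : ℝ)
    linarith
  rw [Real.log_le_iff_le_exp (XX_pos C w), Real.exp_add]
  nlinarith

theorem XX_tendsto {C : ℝ} (hC : 0 < C) : Tendsto (XX C) atTop atTop := by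
  have h1 : Tendsto (fun w : ℕ => Real.exp (w / Real.sqrt C)) atTop atTop :=
    Real.tendsto_exp_atTop.comp
      (tendsto_natCast_atTop_atTop.atTop_div_const (Real.sqrt_pos.2 hC))
  exact tendsto_nat_ceil_atTop.comp h1

theorem ratio_tendsto {C : ℝ} (hC : 0 < C) :
    Tendsto (fun w : ℕ => Real.log (XX C w) / w) atTop (𝓝 (1 / Real.sqrt C)) := by
  have hs : 0 < Real.sqrt C := Real.sqrt_pos.2 hC
  have h1 : Tendsto (fun w : ℕ => 1 / Real.sqrt C + 1 / (w : ℝ)) atTop (𝓝 (1 / Real.sqrt C)) := by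
    have := tendsto_one_div_atTop_nhds_zero_nat (𝕜 := ℝ)
    simpa using this.const_add (1 / Real.sqrt C)
  refine tendsto_of_tendsto_of_tendsto_of_le_of_le' tendsto_const_nhds h1 ?_ ?_
  · filter_upwards [eventually_gt_atTop 0] with w hw
    have hw' : (0 : ℝ) < w := by exact_mod_cast hw
    rw [le_div_iff₀ hw']
    have := log_XX_ge C w
    calc 1 / Real.sqrt C * w = w / Real.sqrt C := by ring
      _ ≤ _ := this
  · filter_upwards [eventually_gt_atTop 0] with w hw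
    have hw' : (0 : ℝ) < w := by exact_mod_cast hw
    rw [div_le_iff₀ hw']
    have := log_XX_le (C := C) w
    calc Real.log (XX C w) ≤ w / Real.sqrt C + 1 := this
      _ = (1 / Real.sqrt C + 1 / (w : ℝ)) * w := by field_simp

theorem aux_sq {L : ℝ} (h : 32 ≤ L) : (L + 2) ^ 2 ≤ 2 * L ^ 2 := by nlinarith

theorem aux_lin {x L : ℝ} (hx : 0 ≤ x) (h : 32 ≤ L) : 4 * x ≤ 8 * x * (L + 2) := by nlinarith

end EXJp

open EXJp SECp

theorem exj (hSEC : S_SEC) (hNUM : S_NUM) (hPOS : S_POS) (hEXW : S_EXW) (hTRC : S_TRC)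
    (hCONA : S_CONA) (hTND : S_TND) (hMERT : Pool.Agent.H50.BF.S_MERT) : S_EXJ := by
  classical
  intro Ω _ P a hM C t δ σ hC ht hδ hσ hnum U Z hU hZ ε hε
  have hPp : IsProbabilityMeasure P := prob hM
  obtain ⟨η₀, t₁, t₂, hη₀, hη₀1, ht₁, h₁, h₂, hN⟩ := hNUM C t δ σ hC ht hδ hσ hnum
  have hθ : 0 < ε / 20 := by positivity
  have hN' := hN (ε / 20) hθ
  set C' : ℝ := 1 + 4 * C + 4 / C with hC'
  have hC4 : 0 < 4 / C := by positivity
  have hC'1 : 1 ≤ C' := by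
    rw [hC']
    linarith
  obtain ⟨η₁, hη₁, hη₁', hW⟩ := hEXW C' (η₀ / 4) hC'1 (by positivity)
  obtain ⟨η₂, hη₂, hη₂', hT⟩ := hTRC C' (η₀ / 4) hC'1 (by positivity)
  have hae : ∀ᵐ ω ∂P, ∀ᶠ n : ℕ in atTop, Bnd (fun p => a p ω) C' (η₀ / 4) η₂ n := by
    filter_upwards [hCONA Ω P a hM] with ω hω using hT _ hω
  have htnd := hTND Ω P a hM (fun n b => Bnd b C' (η₀ / 4) η₂ n) (fun n =>
    ⟨⌈Real.log n ^ 7⌉₊ + ⌈Real.log n ^ (1 + η₂)⌉₊, fun b b' h => propext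
      ⟨bnd_congr h, bnd_congr fun p hp hpq => (h p hp hpq).symm⟩⟩) hae
  have htnd' : ∀ᶠ m : ℕ in atTop,
      P {ω | ∃ n : ℕ, m ≤ n ∧ ¬ Bnd (fun p => a p ω) C' (η₀ / 4) η₂ n} < ENNReal.ofReal (ε / 2) :=
    htnd.eventually_lt_const (by
      rw [ENNReal.ofReal_pos]
      positivity)
  set K : ℝ := |t| / (1 + t) with hK
  have hK0 : 0 ≤ K := div_nonneg (abs_nonneg _) (by linarith)
  obtain ⟨ν, hν, hνb⟩ : ∃ ν : ℝ, 0 < ν ∧ ∀ x y : ℝ, x ≤ ν → y ≤ ν →
      Real.exp (2 * K ^ 2 * x) - 1 + 2 * (1 - Real.exp (-(K ^ 2 * y))) ≤ ε / 4 := by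
    have hcont : ContinuousAt (fun x : ℝ =>
        Real.exp (2 * K ^ 2 * x) - 1 + 2 * (1 - Real.exp (-(K ^ 2 * x)))) 0 := by fun_prop
    have hev : ∀ᶠ x : ℝ in 𝓝 0,
        Real.exp (2 * K ^ 2 * x) - 1 + 2 * (1 - Real.exp (-(K ^ 2 * x))) < ε / 4 := by
      refine hcont.eventually_lt continuousAt_const ?_
      simp only [mul_zero, Real.exp_zero, neg_zero, sub_self, add_zero]
      positivity
    obtain ⟨r, hr, hball⟩ := Metric.eventually_nhds_iff.1 hev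
    refine ⟨r / 2, by positivity, fun x y hx hy => ?_⟩
    have hd : dist (r / 2) 0 < r := by
      rw [Real.dist_eq, sub_zero, abs_of_pos (by positivity)]
      linarith
    have h1 := hball hd
    have e1 : Real.exp (2 * K ^ 2 * x) ≤ Real.exp (2 * K ^ 2 * (r / 2)) := by
      rw [Real.exp_le_exp]
      gcongr
    have e2 : Real.exp (-(K ^ 2 * (r / 2))) ≤ Real.exp (-(K ^ 2 * y)) := by
      rw [Real.exp_le_exp]
      have : K ^ 2 * y ≤ K ^ 2 * (r / 2) := by gcongr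
      linarith
    linarith
  have hX := XX_tendsto hC
  have hL : Tendsto (fun w : ℕ => Real.log (XX C w)) atTop atTop :=
    Real.tendsto_log_atTop.comp (tendsto_natCast_atTop_atTop.comp hX)
  have hUX : Tendsto (fun w : ℕ => (U (XX C w) : ℝ) / Real.log (XX C w) ^ 2) atTop (𝓝 C) :=
    hU.comp hX
  have hZX : Tendsto (fun w : ℕ => MM (Z (XX C w)) / Real.log (XX C w)) atTop (𝓝 1) :=
    hZ.comp hX
  have hUw : Tendsto (fun w : ℕ => (U (XX C w) : ℝ) / (w : ℝ) ^ 2) atTop (𝓝 1) := by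
    have h1 := hUX.mul ((ratio_tendsto hC).pow 2)
    have h2 : C * (1 / Real.sqrt C) ^ 2 = 1 := by
      rw [div_pow, one_pow, Real.sq_sqrt hC.le]
      field_simp
    rw [h2] at h1
    refine h1.congr' ?_
    filter_upwards [hL.eventually_gt_atTop 0] with w hw
    rw [div_pow]
    field_simp
  set κ : ℝ := η₀ / 4 with hκ
  have hκ0 : 0 < κ := by positivity
  have hκ1 : κ ≤ 1 := by
    rw [hκ]
    linarith
  have hasym := hL.eventually (asym hMERT K hC hκ0 hη₁ hη₂ hη₀ hν)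
  have ev1 : ∀ᶠ w : ℕ in atTop,
      |(U (XX C w) : ℝ) / Real.log (XX C w) ^ 2 - C| < min η₀ (C / 2) := by
    have := Metric.tendsto_nhds.1 hUX (min η₀ (C / 2)) (by positivity)
    simpa [Real.dist_eq] using this
  have ev2 : ∀ᶠ w : ℕ in atTop,
      |MM (Z (XX C w)) / Real.log (XX C w) - 1| < min η₀ (1 / 4) := by
    have := Metric.tendsto_nhds.1 hZX (min η₀ (1 / 4)) (by positivity)
    simpa only [Real.dist_eq] using this
  have ev3 : ∀ᶠ w : ℕ in atTop, |(U (XX C w) : ℝ) / (w : ℝ) ^ 2 - 1| < η₁ := by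
    have := Metric.tendsto_nhds.1 hUw η₁ hη₁
    simpa only [Real.dist_eq] using this
  refine ⟨κ, hκ0, ?_⟩
  filter_upwards [hX.eventually hN', hX.eventually hW, hX.eventually htnd', hasym, ev1, ev2, ev3,
    eventually_gt_atTop 0] with w hw1 hw2 hw3 hw4 hw5 hw6 hw7 hw0 hdens
  obtain ⟨hL32, hA2, hA1, hA3, hA4, hA5, hA6, hA7, hA8⟩ := hw4
  have hXpos : (0 : ℝ) < XX C w := XX_pos C w
  generalize XX C w = X at *
  set L : ℝ := Real.log X with hLdef
  have hXexp : (X : ℝ) = Real.exp L := (Real.exp_log hXpos).symm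
  generalize U X = Uw at *
  generalize Z X = z at *
  have hL0 : 0 < L := by linarith
  have hL2 : 0 < L ^ 2 := by positivity
  have h6 := hw5.trans_le (min_le_right _ _)
  have h6' := hw5.trans_le (min_le_left _ _)
  rw [abs_lt] at h6
  have hUlow : C / 2 * L ^ 2 ≤ Uw := by
    have : C / 2 < (Uw : ℝ) / L ^ 2 := by linarith [h6.1]
    rw [lt_div_iff₀ hL2] at this
    exact this.le
  have hUup : (Uw : ℝ) ≤ 2 * C * L ^ 2 := by
    have : (Uw : ℝ) / L ^ 2 < 2 * C := by linarith [h6.2]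
    rw [div_lt_iff₀ hL2] at this
    exact this.le
  have h7 := hw6.trans_le (min_le_right _ _)
  have h7' := hw6.trans_le (min_le_left _ _)
  rw [abs_lt] at h7
  have hMMz : L / 2 < MM z := by
    have : 1 / 2 < MM z / L := by linarith [h7.1]
    rw [lt_div_iff₀ hL0] at this
    linarith
  set q : ℕ := ⌈L ^ 6⌉₊ with hq
  have hqz : q ≤ z := by
    by_contra hn
    have := MM_mono (not_le.1 hn).le
    linarith
  have hq6 : L ^ 6 ≤ (q : ℝ) := Nat.le_ceil _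
  have hq6' : (q : ℝ) < L ^ 6 + 1 := Nat.ceil_lt_add_one (by positivity)
  have hLpow : L ≤ L ^ 6 := by
    calc L = L ^ 1 := (pow_one L).symm
      _ ≤ L ^ 6 := pow_le_pow_right₀ (by linarith) (by norm_num)
  have hqpos : (0 : ℝ) < q := by linarith
  have hq7 : (q : ℝ) ≤ L ^ 7 := by
    have h8 : L ^ 7 = L ^ 6 * L := by ring
    have h9 : L ^ 6 * 2 ≤ L ^ 6 * L := mul_le_mul_of_nonneg_left (by linarith) (by positivity)
    linarith
  set v : ℕ := ⌊κ * L⌋₊ with hv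
  have hv1 : κ * L - 1 ≤ v := by
    have := Nat.lt_floor_add_one (κ * L)
    linarith
  have hv2 : (v : ℝ) ≤ κ * L := Nat.floor_le (by positivity)
  have hv3 : (v : ℝ) ≤ L := by
    calc (v : ℝ) ≤ κ * L := hv2
      _ ≤ 1 * L := by gcongr
      _ = L := one_mul L
  -- the range of `log n`
  have hlog3 : Real.log 3 ≤ 2 := by
    have := Real.log_le_sub_one_of_pos (show (0 : ℝ) < 3 by norm_num)
    linarith
  have hexp2 : (4 : ℝ) ≤ Real.exp 2 := by
    have h8 : (2 : ℝ) ≤ Real.exp 1 := by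
      have := Real.add_one_le_exp (1 : ℝ)
      linarith
    have h9 : Real.exp 2 = Real.exp 1 * Real.exp 1 := by
      rw [← Real.exp_add]
      norm_num
    rw [h9]
    calc (4 : ℝ) = 2 * 2 := by norm_num
      _ ≤ Real.exp 1 * Real.exp 1 := mul_le_mul h8 h8 (by norm_num) (Real.exp_pos _).le
  have hrange : ∀ n : ℕ, X ≤ n → n ≤ 3 * X → L ≤ Real.log n ∧ Real.log n ≤ L + 2 := by
    intro n h8 h9
    have hn : (X : ℝ) ≤ n := by exact_mod_cast h8
    have hn3 : (n : ℝ) ≤ 3 * X := by exact_mod_cast h9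
    refine ⟨Real.log_le_log hXpos hn, ?_⟩
    calc Real.log n ≤ Real.log (3 * X) := Real.log_le_log (by linarith) hn3
      _ = Real.log 3 + L := by rw [Real.log_mul (by norm_num) hXpos.ne']
      _ ≤ L + 2 := by linarith
  have hconds : ∀ ℓ η : ℝ, L ≤ ℓ → ℓ ≤ L + 2 → 0 < η → η ≤ 1 / 2 → (2 * L) ^ (1 - η) ≤ κ * L - 1 →
      ℓ ^ 2 / C' ≤ Uw ∧ (Uw : ℝ) ≤ C' * ℓ ^ 2 ∧ ℓ ^ 5 ≤ q ∧ (q : ℝ) ≤ ℓ ^ 7 ∧
        ℓ ^ (1 - η) ≤ v ∧ (v : ℝ) ≤ ℓ ^ (1 + η) := by
    intro ℓ η h8 h9 hη hη' h10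
    have hℓ0 : 0 < ℓ := by linarith
    refine ⟨?_, ?_, ?_, ?_, ?_, ?_⟩
    · rw [div_le_iff₀ (by linarith)]
      have h11 : ℓ ^ 2 ≤ 2 * L ^ 2 := by
        have : ℓ ^ 2 ≤ (L + 2) ^ 2 := by gcongr
        exact this.trans (aux_sq hL32)
      have h12 : 2 ≤ C / 2 * C' := by
        have h14 : C / 2 * (1 + 4 * C + 4 / C) = C / 2 * (1 + 4 * C) + 2 := by
          field_simp
          ring
        have h13 : 0 ≤ C / 2 * (1 + 4 * C) := by positivity
        rw [hC', h14]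
        linarith
      calc ℓ ^ 2 ≤ 2 * L ^ 2 := h11
        _ ≤ C / 2 * C' * L ^ 2 := by gcongr
        _ = C / 2 * L ^ 2 * C' := by ring
        _ ≤ Uw * C' := by
            refine mul_le_mul_of_nonneg_right hUlow (by linarith)
    · have h11 : L ^ 2 ≤ ℓ ^ 2 := by gcongr
      calc (Uw : ℝ) ≤ 2 * C * L ^ 2 := hUup
        _ ≤ C' * ℓ ^ 2 := by
            refine mul_le_mul ?_ h11 hL2.le (by linarith)
            rw [hC']
            linarith
    · have h11 : ℓ ≤ 2 * L := by linarith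
      calc ℓ ^ 5 ≤ (2 * L) ^ 5 := by gcongr
        _ = 32 * L ^ 5 := by ring
        _ ≤ L * L ^ 5 := by gcongr
        _ = L ^ 6 := by ring
        _ ≤ q := hq6
    · exact hq7.trans (by gcongr)
    · have h11 : ℓ ≤ 2 * L := by linarith
      calc ℓ ^ (1 - η) ≤ (2 * L) ^ (1 - η) :=
            Real.rpow_le_rpow hℓ0.le h11 (by linarith)
        _ ≤ κ * L - 1 := h10
        _ ≤ v := hv1
    · calc (v : ℝ) ≤ ℓ := hv3.trans h8
        _ = ℓ ^ (1 : ℝ) := (Real.rpow_one ℓ).symm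
        _ ≤ ℓ ^ (1 + η) := Real.rpow_le_rpow_of_exponent_le (by linarith) (by linarith)
  -- the window for the zero residues
  have hwpos : (0 : ℝ) < w := by exact_mod_cast hw0
  have hUw2 : |(Uw : ℝ) - (w : ℝ) ^ 2| ≤ η₁ * (w : ℝ) ^ 2 := by
    have h8 : (Uw : ℝ) - (w : ℝ) ^ 2 = ((Uw : ℝ) / (w : ℝ) ^ 2 - 1) * (w : ℝ) ^ 2 := by
      field_simp
    rw [h8, abs_mul, abs_of_pos (show (0 : ℝ) < (w : ℝ) ^ 2 by positivity)]
    exact mul_le_mul_of_nonneg_right hw7.le (by positivity)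
  obtain ⟨c1, c2, c3, c4, c5, c6⟩ := hconds L η₁ le_rfl (by linarith) hη₁ hη₁' hA1
  have hw2' := hw2 w Uw v c1 c2 hUw2 c5 c6
  obtain ⟨m, hm⟩ : ∃ m : ℕ, |(sv (fun _ => 0) v m Uw : ℝ) * (MM v / Uw) - σ| ≤ η₀ / 2 := by
    rcases hdens with h8 | h8
    · obtain ⟨m, hm⟩ := hw2'.1
      refine ⟨m, ?_⟩
      calc |(sv (fun _ => 0) v m Uw : ℝ) * (MM v / Uw) - σ| =
            |((sv (fun _ => 0) v m Uw : ℝ) * (MM v / Uw) - hi w 2) + (hi w 2 - σ)| := by
            congr 1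
            ring
        _ ≤ _ := abs_add_le _ _
        _ ≤ κ + κ := add_le_add hm h8
        _ = η₀ / 2 := by
            rw [hκ]
            ring
    · obtain ⟨m, hm⟩ := hw2'.2
      refine ⟨m, ?_⟩
      calc |(sv (fun _ => 0) v m Uw : ℝ) * (MM v / Uw) - σ| =
            |((sv (fun _ => 0) v m Uw : ℝ) * (MM v / Uw) - lo w 2) + (lo w 2 - σ)| := by
            congr 1
            ring
        _ ≤ _ := abs_add_le _ _
        _ ≤ κ + κ := add_le_add hm h8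
        _ = η₀ / 2 := by
            rw [hκ]
            ring
  -- the positions
  have hprim : (primorial v : ℝ) ≤ Real.exp (η₀ / 2 * L) := by
    calc (primorial v : ℝ) ≤ ((4 ^ v : ℕ) : ℝ) := by exact_mod_cast primorial_le_four_pow v
      _ = (4 : ℝ) ^ v := by push_cast; rfl
      _ ≤ Real.exp 2 ^ v := by gcongr
      _ = Real.exp (v * 2) := by rw [← Real.exp_nat_mul]
      _ ≤ Real.exp (η₀ / 2 * L) := by
          rw [Real.exp_le_exp]
          have : (v : ℝ) * 2 ≤ κ * L * 2 := by linarith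
          rw [hκ] at this
          linarith
  have hprimpos : 0 < primorial v := primorial_pos v
  set D : ℕ := primorial v * (Uw + 1) with hD
  have hDpos : 0 < D := Nat.mul_pos hprimpos (Nat.succ_pos _)
  set M : ℕ := X / D with hMdef
  have hp1 : primorial v ≤ X := by
    have : (primorial v : ℝ) ≤ X := by
      rw [hXexp]
      refine hprim.trans ?_
      rw [Real.exp_le_exp]
      have h8 : η₀ / 2 ≤ 1 := by linarith
      calc η₀ / 2 * L ≤ 1 * L := mul_le_mul_of_nonneg_right h8 hL0.le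
        _ = L := one_mul L
    exact_mod_cast this
  obtain ⟨pos, hpos1, hpos2, hpos3, hpos4⟩ := hPOS v m X M Uw hp1 (Nat.div_mul_le_self X D)
  have hMbig : (X : ℝ) ^ (1 - η₀) ≤ M := by
    have h8 : X < D * (M + 1) := Nat.lt_mul_div_succ X hDpos
    have h8' : (X : ℝ) < (D : ℝ) * (M + 1) := by exact_mod_cast h8
    have h9 : (D : ℝ) ≤ Real.exp (η₀ * L) / 2 := by
      have h10 : (Uw : ℝ) + 1 ≤ Real.exp (η₀ / 2 * L) / 2 := by linarith
      have h11 : Real.exp (η₀ * L) = Real.exp (η₀ / 2 * L) * Real.exp (η₀ / 2 * L) := by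
        rw [← Real.exp_add]
        congr 1
        ring
      rw [hD, h11]
      push_cast
      calc (primorial v : ℝ) * (Uw + 1) ≤ Real.exp (η₀ / 2 * L) * (Real.exp (η₀ / 2 * L) / 2) := by
            gcongr
        _ = _ := by ring
    have h10 : (X : ℝ) ^ (1 - η₀) = Real.exp ((1 - η₀) * L) := by
      rw [Real.rpow_def_of_pos hXpos]
      congr 1
      rw [← hLdef]
      ring
    rw [h10]
    have h11 : Real.exp ((1 - η₀) * L) * Real.exp (η₀ * L) = X := by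
      rw [← Real.exp_add, hXexp]
      congr 1
      ring
    have h12 : 1 ≤ Real.exp ((1 - η₀) * L) := Real.one_le_exp (by
      have : 0 < 1 - η₀ := by linarith
      positivity)
    have h13 : (X : ℝ) < Real.exp (η₀ * L) / 2 * (M + 1) :=
      lt_of_lt_of_le h8' (by gcongr)
    rw [← h11] at h13
    have h14 : 0 < Real.exp (η₀ * L) := Real.exp_pos _
    have h15 : Real.exp ((1 - η₀) * L) < (M + 1) / 2 := by
      by_contra hn
      have := mul_le_mul_of_nonneg_left (not_lt.1 hn) h14.le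
      linarith
    linarith
  -- the event
  let F : (ℕ → ℕ) → Prop := fun b => ∀ i < M, |(sv b q (pos b i) Uw : ℝ) * (MM q / Uw) - σ| ≤ η₀
  have hvq : v ≤ q := by
    have : (v : ℝ) ≤ q := hv3.trans (hLpow.trans hq6)
    exact_mod_cast this
  have hposq : Dep q pos := fun b b' h => hpos1 b b' fun p hp hpv => h p hp (hpv.trans hvq)
  have hFq : Dep q F := by
    intro b b' h
    have e1 := hposq b b' h
    simp only [F, e1, sv_congr h]
  have hUq : Uw ≤ q := by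
    have : (Uw : ℝ) ≤ q := hUup.trans (hA4.trans hq6)
    exact_mod_cast this
  have hUX' : Uw ≤ X := by
    have : (Uw : ℝ) ≤ X := by
      rw [hXexp]
      exact hUup.trans hA7
    exact_mod_cast this
  have hq1 : 1 ≤ q := by
    have : (1 : ℝ) ≤ q := by linarith
    exact_mod_cast this
  have hsm : K * (2 * (Uw : ℝ) / q) ≤ 1 / 2 := by
    rw [← mul_div_assoc, div_le_iff₀ hqpos]
    calc K * (2 * (Uw : ℝ)) ≤ K * (2 * (2 * C * L ^ 2)) := by gcongr
      _ ≤ 1 / 2 * L ^ 6 := hA5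
      _ ≤ 1 / 2 * q := by linarith
  have hnumF : ∀ b, F b → _ := fun b hb => hw1 Uw q z M (fun i => sv b q (pos b i) Uw) h6'.le h7'.le
    c3 c4 hMbig hb
  have hsec := hSEC Ω P a hM q z Uw M (4 * X) t t₁ t₂ (((1 + t) * (C * σ) - δ) * L)
    (((1 + t) * (C * σ) + δ) * L) (ε / 20) F pos ht₁ h₁ h₂ hq1 hUq hqz hθ.le hFq hposq
    (fun b i j hij _ => hpos2 b i j hij)
    (fun b j hj => by
      have := (hpos3 b j hj).2
      omega) hsm (fun b hb => (hnumF b hb).1) (fun b hb => (hnumF b hb).2)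
  -- sizes
  have hU4 : (Uw : ℝ) ^ 2 ≤ 4 * C ^ 2 * L ^ 4 := by
    calc (Uw : ℝ) ^ 2 ≤ (2 * C * L ^ 2) ^ 2 := by gcongr
      _ = 4 * C ^ 2 * L ^ 4 := by ring
  have hνq : ν * L ^ 6 ≤ ν * q := by gcongr
  have hy : (Uw : ℝ) ^ 2 / q ≤ ν := by
    rw [div_le_iff₀ hqpos]
    have h8 : 4 * C ^ 2 * L ^ 4 ≤ 8 * C ^ 2 * L ^ 4 * (L + 2) := by
      have h9 : 0 ≤ C ^ 2 * L ^ 4 := by positivity
      have h10 := aux_lin h9 hL32
      calc 4 * C ^ 2 * L ^ 4 = 4 * (C ^ 2 * L ^ 4) := by ring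
        _ ≤ 8 * (C ^ 2 * L ^ 4) * (L + 2) := h10
        _ = _ := by ring
    linarith
  have hlog : (Nat.log 2 (4 * X) : ℝ) ≤ 2 * (L + 2) := by
    have h8 : (Nat.log 2 (4 * X) : ℝ) ≤ Real.logb 2 ((4 * X : ℕ) : ℝ) := Real.natLog_le_logb _ _
    refine h8.trans ?_
    rw [Real.logb, div_le_iff₀ (Real.log_pos (by norm_num))]
    push_cast
    rw [Real.log_mul (by norm_num) hXpos.ne', ← hLdef]
    have h9 : Real.log 4 ≤ 2 := by
      rw [Real.log_le_iff_le_exp (by norm_num)]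
      exact hexp2
    have h10 := Real.log_two_gt_d9
    calc Real.log 4 + L ≤ 2 * (L + 2) * (1 / 2) := by linarith
      _ ≤ 2 * (L + 2) * Real.log 2 := mul_le_mul_of_nonneg_left (by linarith) (by linarith)
  have hx : (Uw : ℝ) ^ 2 * Nat.log 2 (4 * X) / q ≤ ν := by
    rw [div_le_iff₀ hqpos]
    calc (Uw : ℝ) ^ 2 * Nat.log 2 (4 * X) ≤ 4 * C ^ 2 * L ^ 4 * (2 * (L + 2)) := by gcongr
      _ = 8 * C ^ 2 * L ^ 4 * (L + 2) := by ring
      _ ≤ ν * L ^ 6 := hA3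
      _ ≤ ν * q := hνq
  have hsmall := hνb _ _ hx hy
  have hsec' : P {ω | F (fun p => a p ω) ∧ ∀ i < M,
      ¬ (((1 + t) * (C * σ) - δ) * L ≤
          (sv (fun p => a p ω) z (pos (fun p => a p ω) i) Uw : ℝ) ∧
        (sv (fun p => a p ω) z (pos (fun p => a p ω) i) Uw : ℝ) ≤
          ((1 + t) * (C * σ) + δ) * L)} ≤ ENNReal.ofReal (ε / 2) := by
    refine hsec.trans (ENNReal.ofReal_le_ofReal ?_)
    linarith
  -- the inclusion
  have hsub : {ω | ¬ ∃ n : ℕ, X ≤ n ∧ n ≤ 3 * X ∧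
      |(sv (fun p => a p ω) z n Uw : ℝ) / L - (1 + t) * (C * σ)| ≤ δ} ⊆
      {ω | ∃ n : ℕ, X ≤ n ∧ ¬ Bnd (fun p => a p ω) C' κ η₂ n} ∪
      {ω | F (fun p => a p ω) ∧ ∀ i < M,
      ¬ (((1 + t) * (C * σ) - δ) * L ≤
          (sv (fun p => a p ω) z (pos (fun p => a p ω) i) Uw : ℝ) ∧
        (sv (fun p => a p ω) z (pos (fun p => a p ω) i) Uw : ℝ) ≤
          ((1 + t) * (C * σ) + δ) * L)} := by
    intro ω hω
    by_cases hB : ∃ n : ℕ, X ≤ n ∧ ¬ Bnd (fun p => a p ω) C' κ η₂ n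
    · exact Or.inl hB
    · right
      have hB' : ∀ n : ℕ, X ≤ n → Bnd (fun p => a p ω) C' κ η₂ n := by
        intro n hn
        by_contra h
        exact hB ⟨n, hn, h⟩
      refine ⟨fun i hi => ?_, fun i hi hk => hω ⟨pos (fun p => a p ω) i,
        (hpos3 _ i hi).1, (hpos3 _ i hi).2, ?_⟩⟩
      · obtain ⟨g1, g2⟩ := hpos3 (fun p => a p ω) i hi
        obtain ⟨r1, r2⟩ := hrange _ g1 g2
        obtain ⟨d1, d2, d3, d4, d5, d6⟩ := hconds _ η₂ r1 r2 hη₂ hη₂' hA2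
        have hb := hB' _ g1 Uw q v d1 d2 d3 d4 d5 d6
        rw [hpos4 (fun p => a p ω) i Uw] at hb
        calc |(sv (fun p => a p ω) q (pos (fun p => a p ω) i) Uw : ℝ) * (MM q / Uw) - σ| =
              |((sv (fun p => a p ω) q (pos (fun p => a p ω) i) Uw : ℝ) * (MM q / Uw) -
                (sv (fun _ => 0) v m Uw : ℝ) * (MM v / Uw)) +
                ((sv (fun _ => 0) v m Uw : ℝ) * (MM v / Uw) - σ)| := by
              congr 1
              ring
          _ ≤ _ := abs_add_le _ _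
          _ ≤ κ + η₀ / 2 := add_le_add hb hm
          _ ≤ η₀ := by
              rw [hκ]
              linarith
      · rw [abs_le]
        obtain ⟨k1, k2⟩ := hk
        constructor
        · have : (1 + t) * (C * σ) - δ ≤
              (sv (fun p => a p ω) z (pos (fun p => a p ω) i) Uw : ℝ) / L := by
            rw [le_div_iff₀ hL0]
            exact k1
          linarith
        · have : (sv (fun p => a p ω) z (pos (fun p => a p ω) i) Uw : ℝ) / L ≤
              (1 + t) * (C * σ) + δ := by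
            rw [div_le_iff₀ hL0]
            exact k2
          linarith
  calc P {ω | ¬ ∃ n : ℕ, X ≤ n ∧ n ≤ 3 * X ∧
      |(sv (fun p => a p ω) z n Uw : ℝ) / L - (1 + t) * (C * σ)| ≤ δ} ≤ _ := measure_mono hsub
    _ ≤ _ := measure_union_le _ _
    _ ≤ ENNReal.ofReal (ε / 2) + ENNReal.ofReal (ε / 2) := add_le_add hw3.le hsec'
    _ = ENNReal.ofReal ε := by
        rw [← ENNReal.ofReal_add (by positivity) (by positivity)]
        congr 1
        ring

end Pool.Agent.H50.CW
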