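import Pool.Agent.H50.CW.EXD

/-! CW-EXW (helper63) -/

set_option autoImplicit false

namespace Pool.Agent.H50.CW

open Pool.Agent.H50.BF Pool.Agent.H50.BF.BTaux Filter CWaux
open scoped Topology

theorem exw : S_TRANS → S_SUB → S_EXW := by
  intro ⟨C0, hC0, htrans⟩ ⟨C1, hC1, hsub⟩ C ε hC hε
  set θ : ℝ := min (1 / 2) (ε / (4 * C0)) with hθd
  have hθ : 0 < θ := lt_min (by norm_num) (by positivity)
  have hθ1 : θ ≤ 1 / 2 := min_le_left _ _
  have hθε : C0 * θ ≤ ε / 4 := by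
    calc C0 * θ ≤ C0 * (ε / (4 * C0)) := mul_le_mul_of_nonneg_left (min_le_right _ _) hC0.le
      _ = ε / 4 := by field_simp
  set δ : ℝ := min 1 (ε / (4 * C1)) with hδd
  have hδ : 0 < δ := lt_min (by norm_num) (by positivity)
  have hδ1 : δ ≤ 1 := min_le_left _ _
  have hδε : C1 * δ ≤ ε / 4 := by
    calc C1 * δ ≤ C1 * (ε / (4 * C1)) := mul_le_mul_of_nonneg_left (min_le_right _ _) hC1.le
      _ = ε / 4 := by field_simp
  set η : ℝ := min (θ / 4) (δ / 2) with hηd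
  have hη : 0 < η := lt_min (by positivity) (by positivity)
  have hη4 : η ≤ θ / 4 := min_le_left _ _
  have hηδ : η ≤ δ / 2 := min_le_right _ _
  refine ⟨η, hη, by linarith, ?_⟩
  obtain ⟨N0, hN0⟩ := eventually_atTop.1 (htrans θ hθ hθ1)
  obtain ⟨N1, hN1⟩ := eventually_atTop.1 (hsub δ hδ hδ1)
  filter_upwards [tendsto_log_nat.eventually (lev (C := 4 * C) (by linarith) hθ hθ1),
    tendsto_log_nat.eventually_ge_atTop (2 * C * (N0 + N1 + 1))] with n h2 h3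
  intro w U v hU1 hU2 hUw hv1 hv2
  have hN : (0 : ℝ) ≤ N0 := Nat.cast_nonneg _
  have hN' : (0 : ℝ) ≤ N1 := Nat.cast_nonneg _
  have hC0' : 0 < C := by linarith
  have hL2 : 2 * C ≤ Real.log n := by
    refine le_trans ?_ h3
    have : 0 ≤ 2 * C * (N0 + N1 : ℝ) := by positivity
    linarith
  have hL1 : 1 ≤ Real.log n := by linarith
  set L := Real.log n with hLd
  have hw0 : (0 : ℝ) ≤ (w : ℝ) ^ 2 := by positivity
  rw [abs_le] at hUw
  have hη2 : η ≤ 1 / 8 := by linarith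
  have hw8 : η * (w : ℝ) ^ 2 ≤ 1 / 8 * (w : ℝ) ^ 2 := mul_le_mul_of_nonneg_right hη2 hw0
  have hUl : (7 / 8 : ℝ) * (w : ℝ) ^ 2 ≤ U := by linarith [hUw.1]
  have hUu : (U : ℝ) ≤ 9 / 8 * (w : ℝ) ^ 2 := by linarith [hUw.2]
  have hL0 : (0 : ℝ) ≤ L ^ 2 / C := by positivity
  have b1 : L ^ 2 / (4 * C) ≤ (w : ℝ) ^ 2 := by
    have : L ^ 2 / (4 * C) = L ^ 2 / C / 4 := by
      field_simp
    rw [this]
    linarith
  have b2 : (w : ℝ) ^ 2 ≤ 4 * C * L ^ 2 := by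
    have : 0 ≤ C * L ^ 2 := by positivity
    linarith
  have b5 : L / (2 * C) ≤ w := by
    refine abs_le_of_sq_le_sq' (b := (w : ℝ)) (le_trans ?_ b1) (by positivity) |>.2
    calc (L / (2 * C)) ^ 2 = L ^ 2 / (4 * (C * C)) := by
          rw [div_pow]
          ring
      _ ≤ L ^ 2 / (4 * C) := by
        refine div_le_div_of_nonneg_left (by positivity) (by positivity) (by nlinarith)
  have hwb : N0 + N1 + 1 ≤ (w : ℝ) := by
    refine le_trans ?_ b5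
    rw [le_div_iff₀ (by linarith)]
    linarith
  have hwN : N0 ≤ w := by
    have : (N0 : ℝ) ≤ w := by linarith
    exact_mod_cast this
  have hwN1 : N1 ≤ w := by
    have : (N1 : ℝ) ≤ w := by linarith
    exact_mod_cast this
  have hw1 : (1 : ℝ) ≤ w := by linarith
  obtain ⟨c1, c2⟩ := h2 w (Nat.cast_nonneg _) b1 b2
  have hv0 : (w : ℝ) ^ (1 - θ) ≤ v := by
    refine c1.trans (le_trans ?_ hv1)
    exact Real.rpow_le_rpow_of_exponent_le hL1 (by linarith)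
  have hv3 : (v : ℝ) ≤ (w : ℝ) ^ (1 + θ) := by
    refine hv2.trans (le_trans ?_ c2)
    have h4 : L ^ (1 + η) ≤ L ^ (1 + θ / 4) := Real.rpow_le_rpow_of_exponent_le hL1 (by linarith)
    have : 0 < L ^ (1 + θ / 4) := Real.rpow_pos_of_pos (by linarith) _
    linarith
  have hww1 : (w : ℝ) ^ (1 - θ) ≤ w := by
    calc (w : ℝ) ^ (1 - θ) ≤ (w : ℝ) ^ (1 : ℝ) := Real.rpow_le_rpow_of_exponent_le hw1 (by linarith)
      _ = w := Real.rpow_one _
  have hww2 : (w : ℝ) ≤ (w : ℝ) ^ (1 + θ) := by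
    calc (w : ℝ) = (w : ℝ) ^ (1 : ℝ) := (Real.rpow_one _).symm
      _ ≤ (w : ℝ) ^ (1 + θ) := Real.rpow_le_rpow_of_exponent_le hw1 (by linarith)
  have hww : ((w ^ 2 : ℕ) : ℝ) = (w : ℝ) ^ 2 := by push_cast; ring
  have hsq1 : Real.sqrt w ≤ w := by
    rw [Real.sqrt_le_left (by linarith)]
    nlinarith
  have hww3 : (w : ℝ) ≤ (w : ℝ) ^ 2 := by nlinarith
  have hMM := MM_pos w
  have hw20 : (0 : ℝ) < (w : ℝ) ^ 2 := by positivity
  have hU0 : (0 : ℝ) < U := by linarith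
  have key : ∀ m : ℕ, |(sv (fun _ => 0) v m U : ℝ) * (MM v / U) -
      (sv (fun _ => 0) w m (w ^ 2) : ℝ) * (MM w / ((w ^ 2 : ℕ) : ℝ))| ≤ ε / 2 := by
    intro m
    have h5 := two_lev (hN0 w hwN) (fun _ => 0) v w m U hv0 hww1 hv3 hww2 (by linarith)
    have h7 : |(sv (fun _ => 0) w m U : ℝ) * (MM w / U) -
        (sv (fun _ => 0) w m (w ^ 2) : ℝ) * (MM w / ((w ^ 2 : ℕ) : ℝ))| ≤ C1 * δ := by
      rcases le_total (w ^ 2) U with hUU | hUU
      · have hU' : (U : ℝ) ≤ (1 + δ) * ((w ^ 2 : ℕ) : ℝ) := by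
          rw [hww]
          have : η * (w : ℝ) ^ 2 ≤ δ * (w : ℝ) ^ 2 := mul_le_mul_of_nonneg_right (by linarith) hw0
          linarith [hUw.2]
        have h6 := hN1 w hwN1 (fun _ => 0) w m (w ^ 2) U hsq1 hww3 (by rw [hww]; linarith) hUU hU'
        exact dens_close (U := ((w ^ 2 : ℕ) : ℝ)) (U' := (U : ℝ)) hMM.le (by rw [hww]; positivity)
          (by exact_mod_cast hUU) hU' hδ.le (Nat.cast_nonneg _)
          (Nat.cast_le.2 (sv_mono m hUU)) h6.1 h6.2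
      · have hU' : ((w ^ 2 : ℕ) : ℝ) ≤ (1 + δ) * U := by
          rw [hww]
          have h9 : (1 - η) * (w : ℝ) ^ 2 ≤ U := by linarith [hUw.1]
          have h10 : (1 : ℝ) ≤ (1 + δ) * (1 - η) := by nlinarith
          calc (w : ℝ) ^ 2 = 1 * (w : ℝ) ^ 2 := (one_mul _).symm
            _ ≤ (1 + δ) * (1 - η) * (w : ℝ) ^ 2 := mul_le_mul_of_nonneg_right h10 hw0
            _ = (1 + δ) * ((1 - η) * (w : ℝ) ^ 2) := by ring
            _ ≤ (1 + δ) * U := mul_le_mul_of_nonneg_left h9 (by linarith)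
        have h6 := hN1 w hwN1 (fun _ => 0) w m U (w ^ 2) hsq1 hww3 (by linarith) hUU hU'
        rw [abs_sub_comm]
        exact dens_close (U := (U : ℝ)) (U' := ((w ^ 2 : ℕ) : ℝ)) hMM.le hU0
          (by exact_mod_cast hUU) hU' hδ.le (Nat.cast_nonneg _)
          (Nat.cast_le.2 (sv_mono m hUU)) h6.1 h6.2
    have h8 := abs_sub_le ((sv (fun _ => 0) v m U : ℝ) * (MM v / U))
      ((sv (fun _ => 0) w m U : ℝ) * (MM w / U))
      ((sv (fun _ => 0) w m (w ^ 2) : ℝ) * (MM w / ((w ^ 2 : ℕ) : ℝ)))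
    linarith
  constructor
  · obtain ⟨m, hm⟩ : ∃ m : ℕ, hi w 2 - ε / 4 <
        (sv (fun _ => 0) w m (w ^ 2) : ℝ) * (MM w / ((w ^ 2 : ℕ) : ℝ)) := by
      have : hi w 2 - ε / 4 < ⨆ t : ℕ, (sv (fun _ => 0) w t (w ^ 2) : ℝ) * (MM w / ((w ^ 2 : ℕ) : ℝ)) := by
        rw [← hi_two]
        linarith
      exact exists_lt_of_lt_ciSup this
    refine ⟨m, ?_⟩
    have h5 := key m
    have h6 := le_hi w m
    rw [abs_le] at h5 ⊢
    constructor <;> linarith [h5.1, h5.2]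
  · obtain ⟨m, hm⟩ : ∃ m : ℕ,
        (sv (fun _ => 0) w m (w ^ 2) : ℝ) * (MM w / ((w ^ 2 : ℕ) : ℝ)) < lo w 2 + ε / 4 := by
      have : (⨅ t : ℕ, (sv (fun _ => 0) w t (w ^ 2) : ℝ) * (MM w / ((w ^ 2 : ℕ) : ℝ))) < lo w 2 + ε / 4 := by
        rw [← lo_two]
        linarith
      exact exists_lt_of_ciInf_lt this
    refine ⟨m, ?_⟩
    have h5 := key m
    have h6 := lo_le w m
    rw [abs_le] at h5 ⊢
    constructor <;> linarith [h5.1, h5.2]

end Pool.Agent.H50.CW
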