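import Pool.Agent.H50.CW.Stm
import Pool.Agent.H50.BF.FIN

set_option autoImplicit false

open MeasureTheory Filter
open scoped Topology ENNReal

namespace Pool.Agent.H50.CW

open Pool.Agent.H50.BF

/-! ## Limits -/

lemma limsup_le_of {f : ℝ → ℝ} {c : ℝ} (hc : 0 ≤ c)
    (h : ∀ j : ℕ, ∀ᶠ x : ℝ in atTop, f x ≤ c + 1 / ((j : ℝ) + 1)) :
    limsup (fun x : ℝ => ENNReal.ofReal (f x)) atTop ≤ ENNReal.ofReal c := by
  refine ENNReal.le_of_forall_pos_le_add fun ε hε _ => ?_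
  obtain ⟨j, hj⟩ := exists_nat_one_div_lt (show (0 : ℝ) < ε by exact_mod_cast hε)
  refine limsup_le_of_le (by isBoundedDefault) ?_
  filter_upwards [h j] with x hx
  calc ENNReal.ofReal (f x) ≤ ENNReal.ofReal (c + ε) := ENNReal.ofReal_le_ofReal (by linarith)
    _ ≤ ENNReal.ofReal c + ENNReal.ofReal ε := ENNReal.ofReal_add_le
    _ = _ := by rw [ENNReal.ofReal_coe_nnreal]

lemma le_limsup_of {f : ℝ → ℝ} {c : ℝ}
    (h : ∀ j : ℕ, ∃ᶠ x : ℝ in atTop, c - 1 / ((j : ℝ) + 1) ≤ f x) :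
    ENNReal.ofReal c ≤ limsup (fun x : ℝ => ENNReal.ofReal (f x)) atTop := by
  refine ENNReal.le_of_forall_pos_le_add fun ε hε _ => ?_
  obtain ⟨j, hj⟩ := exists_nat_one_div_lt (show (0 : ℝ) < ε by exact_mod_cast hε)
  have h1 : ENNReal.ofReal (c - ε) ≤ limsup (fun x : ℝ => ENNReal.ofReal (f x)) atTop := by
    refine le_limsup_of_frequently_le ?_ (by isBoundedDefault)
    exact (h j).mono fun x hx => ENNReal.ofReal_le_ofReal (by linarith)
  calc ENNReal.ofReal c = ENNReal.ofReal ((c - ε) + ε) := by ring_nf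
    _ ≤ ENNReal.ofReal (c - ε) + ENNReal.ofReal ε := ENNReal.ofReal_add_le
    _ ≤ _ := by rw [ENNReal.ofReal_coe_nnreal]; gcongr

lemma liminf_le_of {f : ℝ → ℝ} {c : ℝ} (hc : 0 ≤ c)
    (h : ∀ j : ℕ, ∃ᶠ x : ℝ in atTop, f x ≤ c + 1 / ((j : ℝ) + 1)) :
    liminf (fun x : ℝ => ENNReal.ofReal (f x)) atTop ≤ ENNReal.ofReal c := by
  refine ENNReal.le_of_forall_pos_le_add fun ε hε _ => ?_
  obtain ⟨j, hj⟩ := exists_nat_one_div_lt (show (0 : ℝ) < ε by exact_mod_cast hε)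
  refine liminf_le_of_frequently_le ?_ (by isBoundedDefault)
  refine (h j).mono fun x hx => ?_
  calc ENNReal.ofReal (f x) ≤ ENNReal.ofReal (c + ε) := ENNReal.ofReal_le_ofReal (by linarith)
    _ ≤ ENNReal.ofReal c + ENNReal.ofReal ε := ENNReal.ofReal_add_le
    _ = _ := by rw [ENNReal.ofReal_coe_nnreal]

lemma le_liminf_of {f : ℝ → ℝ} {c : ℝ}
    (h : ∀ j : ℕ, ∀ᶠ x : ℝ in atTop, c - 1 / ((j : ℝ) + 1) ≤ f x) :
    ENNReal.ofReal c ≤ liminf (fun x : ℝ => ENNReal.ofReal (f x)) atTop := by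
  refine ENNReal.le_of_forall_pos_le_add fun ε hε _ => ?_
  obtain ⟨j, hj⟩ := exists_nat_one_div_lt (show (0 : ℝ) < ε by exact_mod_cast hε)
  have h1 : ENNReal.ofReal (c - ε) ≤ liminf (fun x : ℝ => ENNReal.ofReal (f x)) atTop := by
    refine le_liminf_of_le (by isBoundedDefault) ?_
    filter_upwards [h j] with x hx
    exact ENNReal.ofReal_le_ofReal (by linarith)
  calc ENNReal.ofReal c = ENNReal.ofReal ((c - ε) + ε) := by ring_nf
    _ ≤ ENNReal.ofReal (c - ε) + ENNReal.ofReal ε := ENNReal.ofReal_add_le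
    _ ≤ _ := by rw [ENNReal.ofReal_coe_nnreal]; gcongr

/-! ## The extremal densities -/

lemma hi_facts {B : ℝ} (hB : ∀ᶠ w : ℕ in atTop, hi w 2 ≤ B) : sh 2 < ∞ ∧
    (∀ ε : ℝ, 0 < ε → ∀ᶠ w : ℕ in atTop, hi w 2 ≤ (sh 2).toReal + ε) ∧
    (∀ ε : ℝ, 0 < ε → ∃ᶠ w : ℕ in atTop, |hi w 2 - (sh 2).toReal| ≤ ε) := by
  have h1 : sh 2 ≤ ENNReal.ofReal B := by
    refine limsup_le_of_le (by isBoundedDefault) ?_
    filter_upwards [hB] with w hw
    exact ENNReal.ofReal_le_ofReal hw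
  have h2 : sh 2 < ∞ := h1.trans_lt ENNReal.ofReal_lt_top
  have h3 : ∀ ε : ℝ, 0 < ε → ∀ᶠ w : ℕ in atTop, hi w 2 ≤ (sh 2).toReal + ε := by
    intro ε hε
    have h4 : sh 2 < sh 2 + ENNReal.ofReal ε :=
      ENNReal.lt_add_right h2.ne (by simpa using hε)
    filter_upwards [eventually_lt_of_limsup_lt (show limsup (fun w : ℕ => ENNReal.ofReal (hi w 2)) atTop <
      sh 2 + ENNReal.ofReal ε from h4) (by isBoundedDefault)] with w hw
    have h5 := (ENNReal.ofReal_le_iff_le_toReal (by simp [h2.ne])).1 hw.le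
    rwa [ENNReal.toReal_add h2.ne ENNReal.ofReal_ne_top, ENNReal.toReal_ofReal hε.le] at h5
  refine ⟨h2, h3, fun ε hε => ?_⟩
  have h6 : ∃ᶠ w : ℕ in atTop, (sh 2).toReal - ε ≤ hi w 2 := by
    by_cases h0 : (sh 2).toReal - ε < 0
    · exact Eventually.frequently (Eventually.of_forall fun w => h0.le.trans (hi_nonneg w 2))
    · push Not at h0
      have h7 : ENNReal.ofReal ((sh 2).toReal - ε) < limsup (fun w : ℕ => ENNReal.ofReal (hi w 2)) atTop := by
        change ENNReal.ofReal ((sh 2).toReal - ε) < sh 2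
        rw [ENNReal.ofReal_lt_iff_lt_toReal h0 h2.ne]
        linarith
      refine (frequently_lt_of_lt_limsup (by isBoundedDefault) h7).mono fun w hw => ?_
      exact (ENNReal.ofReal_lt_ofReal_iff_of_nonneg h0).1 hw |>.le
  refine (h6.and_eventually (h3 ε hε)).mono fun w hw => ?_
  rw [abs_le]
  constructor <;> linarith [hw.1, hw.2]

lemma lo_facts (h2 : sl 2 < ∞) :
    (∀ ε : ℝ, 0 < ε → ∀ᶠ w : ℕ in atTop, (sl 2).toReal - ε ≤ lo w 2) ∧
    (∀ ε : ℝ, 0 < ε → ∃ᶠ w : ℕ in atTop, |lo w 2 - (sl 2).toReal| ≤ ε) := by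
  have h3 : ∀ ε : ℝ, 0 < ε → ∀ᶠ w : ℕ in atTop, (sl 2).toReal - ε ≤ lo w 2 := by
    intro ε hε
    by_cases h0 : (sl 2).toReal - ε < 0
    · exact Eventually.of_forall fun w => h0.le.trans (lo_nonneg w 2)
    · push Not at h0
      have h7 : ENNReal.ofReal ((sl 2).toReal - ε) < liminf (fun w : ℕ => ENNReal.ofReal (lo w 2)) atTop := by
        change ENNReal.ofReal ((sl 2).toReal - ε) < sl 2
        rw [ENNReal.ofReal_lt_iff_lt_toReal h0 h2.ne]
        linarith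
      filter_upwards [eventually_lt_of_lt_liminf h7 (by isBoundedDefault)] with w hw
      exact (ENNReal.ofReal_lt_ofReal_iff_of_nonneg h0).1 hw |>.le
  refine ⟨h3, fun ε hε => ?_⟩
  have h4 : sl 2 < sl 2 + ENNReal.ofReal ε :=
    ENNReal.lt_add_right h2.ne (by simpa using hε)
  have h6 : ∃ᶠ w : ℕ in atTop, lo w 2 ≤ (sl 2).toReal + ε := by
    refine (frequently_lt_of_liminf_lt (by isBoundedDefault) (show liminf (fun w : ℕ => ENNReal.ofReal (lo w 2)) atTop <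
      sl 2 + ENNReal.ofReal ε from h4)).mono fun w hw => ?_
    have h5 := (ENNReal.ofReal_le_iff_le_toReal (by simp [h2.ne])).1 hw.le
    rwa [ENNReal.toReal_add h2.ne ENNReal.ofReal_ne_top, ENNReal.toReal_ofReal hε.le] at h5
  refine (h6.and_eventually (h3 ε hε)).mono fun w hw => ?_
  rw [abs_le]
  constructor <;> linarith [hw.1, hw.2]

/-! ## Windows of the random set -/

/-- the number of members of `S` in the open interval `(x, x + y)` -/
noncomputable def cnt (S : Set ℕ) (x y : ℝ) : ℕ := Set.ncard {m : ℕ | m ∈ S ∧ x < m ∧ (m : ℝ) < x + y}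

lemma fin_win (S : Set ℕ) (n U : ℕ) : {m : ℕ | m ∈ S ∧ n < m ∧ m ≤ n + U}.Finite :=
  (Set.finite_Iic (n + U)).subset fun m hm => hm.2.2

lemma sv_ncard (a : ℕ → ℕ) (w n U : ℕ) :
    sv a w n U = Set.ncard {m : ℕ | (∀ p : ℕ, p.Prime → p ≤ w → m % p ≠ a p % p) ∧ n < m ∧ m ≤ n + U} := by
  classical
  have h : {m : ℕ | (∀ p : ℕ, p.Prime → p ≤ w → m % p ≠ a p % p) ∧ n < m ∧ m ≤ n + U} =
      (((Finset.range U).filter (fun k => ∀ p : ℕ, p.Prime → p ≤ w → (n + k + 1) % p ≠ a p % p)).image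
        (fun k => n + k + 1) : Finset ℕ) := by
    ext m
    simp only [Set.mem_ofPred_eq, Finset.coe_image, Set.mem_image, Finset.mem_coe, Finset.mem_filter, Finset.mem_range]
    constructor
    · rintro ⟨h3, h1, h2⟩
      refine ⟨m - n - 1, ⟨by omega, ?_⟩, by omega⟩
      rw [show n + (m - n - 1) + 1 = m by omega]
      exact h3
    · rintro ⟨k, ⟨h1, h2⟩, rfl⟩
      exact ⟨h2, by omega, by omega⟩
  rw [h, Set.ncard_coe_finset, Finset.card_image_of_injective _ (fun x y h => by simpa using h)]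
  unfold sv
  rfl

lemma cnt_le (a z : ℕ → ℕ) (hz : Monotone z) {x y : ℝ} {n U k : ℕ} (h1 : (n : ℝ) ≤ x) (hk : k ≤ n)
    (h2 : x + y ≤ n + U) : cnt (Rset a z) x y ≤ sv a (z k) n U := by
  rw [sv_ncard]
  refine Set.ncard_le_ncard ?_ (fin_win _ n U)
  rintro m ⟨hm1, hm2, hm3⟩
  have h3 : n < m := by
    have : (n : ℝ) < m := by linarith
    exact_mod_cast this
  refine ⟨fun p hp hpz => hm1 p hp (hpz.trans (hz (by omega))), h3, ?_⟩
  have : (m : ℝ) ≤ ((n + U : ℕ) : ℝ) := by push_cast; linarith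
  exact_mod_cast this

lemma le_cnt (a z : ℕ → ℕ) (hz : Monotone z) {x y : ℝ} {n U k : ℕ} (h1 : x < (n : ℝ) + 1) (hk : n + U ≤ k)
    (h2 : (n : ℝ) + U < x + y) : sv a (z k) n U ≤ cnt (Rset a z) x y := by
  rw [sv_ncard]
  refine Set.ncard_le_ncard ?_ ?_
  · rintro m ⟨hm1, hm2, hm3⟩
    refine ⟨fun p hp hpz => hm1 p hp (hpz.trans (hz (by omega))), ?_, ?_⟩
    · have : ((n + 1 : ℕ) : ℝ) ≤ m := by exact_mod_cast hm2
      push_cast at this
      linarith
    · have : (m : ℝ) ≤ ((n + U : ℕ) : ℝ) := by exact_mod_cast hm3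
      push_cast at this
      linarith
  · refine (Set.finite_Iic ⌈x + y⌉₊).subset fun m hm => ?_
    exact_mod_cast (hm.2.2.le.trans (Nat.le_ceil _))

end Pool.Agent.H50.CW
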