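import Pool.Agent.H50.CW.FIN

set_option autoImplicit false

open MeasureTheory Filter
open scoped Topology ENNReal

namespace Pool.Agent.H50.CW

open Pool.Agent.H50.BF

lemma tlog : Tendsto (fun n : ℕ => Real.log (n : ℝ)) atTop atTop :=
  Real.tendsto_log_atTop.comp tendsto_natCast_atTop_atTop

lemma log_ratio {g : ℕ → ℕ} (h : ∀ᶠ n : ℕ in atTop, n ≤ g n ∧ g n ≤ 5 * n) :
    Tendsto (fun n : ℕ => Real.log (g n) / Real.log n) atTop (𝓝 1) := by
  have h1 : Tendsto (fun n : ℕ => 1 + Real.log 5 / Real.log n) atTop (𝓝 (1 + 0)) :=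
    tendsto_const_nhds.add (tendsto_const_nhds.div_atTop tlog)
  rw [add_zero] at h1
  refine tendsto_of_tendsto_of_tendsto_of_le_of_le' tendsto_const_nhds h1 ?_ ?_
  · filter_upwards [h, eventually_ge_atTop 2] with n hn h2
    have h3 : (1 : ℝ) < n := by exact_mod_cast h2
    have h4 := Real.log_pos h3
    rw [le_div_iff₀ h4, one_mul]
    exact Real.log_le_log (by linarith) (by exact_mod_cast hn.1)
  · filter_upwards [h, eventually_ge_atTop 2] with n hn h2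
    have h3 : (1 : ℝ) < n := by exact_mod_cast h2
    have h4 := Real.log_pos h3
    have h5 : (g n : ℝ) ≤ 5 * n := by exact_mod_cast hn.2
    have h6 : (0 : ℝ) < g n := by
      have : (n : ℝ) ≤ g n := by exact_mod_cast hn.1
      linarith
    rw [div_le_iff₀ h4]
    calc Real.log (g n) ≤ Real.log (5 * n) := Real.log_le_log h6 h5
      _ = Real.log 5 + Real.log n := Real.log_mul (by norm_num) (by linarith)
      _ = _ := by field_simp; ring

lemma tend_g {g : ℕ → ℕ} (h : ∀ᶠ n : ℕ in atTop, n ≤ g n ∧ g n ≤ 5 * n) : Tendsto g atTop atTop := by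
  refine tendsto_atTop_mono' _ (h.mono fun n hn => hn.1) tendsto_id

lemma lim_z {z g : ℕ → ℕ} (hz : Tendsto (fun n : ℕ => MM (z n) / Real.log n) atTop (𝓝 1))
    (h : ∀ᶠ n : ℕ in atTop, n ≤ g n ∧ g n ≤ 5 * n) :
    Tendsto (fun n : ℕ => MM (z (g n)) / Real.log n) atTop (𝓝 1) := by
  have h1 := (hz.comp (tend_g h)).mul (log_ratio h)
  rw [one_mul] at h1
  refine h1.congr' ?_
  filter_upwards [h, eventually_ge_atTop 2] with n hn h2
  have h3 : (1 : ℝ) < g n := by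
    have : (n : ℝ) ≤ g n := by exact_mod_cast hn.1
    have : (2 : ℝ) ≤ n := by exact_mod_cast h2
    linarith
  have h4 := (Real.log_pos h3).ne'
  simp only [Function.comp]
  field_simp

lemma lim_U {g U : ℕ → ℕ} {C : ℝ} (h : ∀ᶠ n : ℕ in atTop, n ≤ g n ∧ g n ≤ 5 * n)
    (hU : ∀ᶠ n : ℕ in atTop, |(U n : ℝ) - C * Real.log (g n) ^ 2| ≤ 3) :
    Tendsto (fun n : ℕ => (U n : ℝ) / Real.log n ^ 2) atTop (𝓝 C) := by
  have h1 : Tendsto (fun n : ℕ => C * (Real.log (g n) / Real.log n) ^ 2) atTop (𝓝 (C * 1 ^ 2)) :=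
    ((log_ratio h).pow 2).const_mul C
  have h2 : Tendsto (fun n : ℕ => ((U n : ℝ) - C * Real.log (g n) ^ 2) / Real.log n ^ 2) atTop (𝓝 0) := by
    have h3 : Tendsto (fun n : ℕ => (3 : ℝ) / Real.log n ^ 2) atTop (𝓝 0) :=
      tendsto_const_nhds.div_atTop ((tendsto_pow_atTop (by norm_num)).comp tlog)
    refine squeeze_zero_norm' ?_ h3
    filter_upwards [hU] with n hn
    rw [Real.norm_eq_abs, abs_div, abs_of_nonneg (sq_nonneg (Real.log (n : ℝ)))]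
    gcongr
  have h4 := h1.add h2
  rw [one_pow, mul_one, add_zero] at h4
  refine h4.congr' ?_
  filter_upwards [eventually_ge_atTop 2] with n hn
  have h3 : (1 : ℝ) < n := by exact_mod_cast hn
  have := (Real.log_pos h3).ne'
  field_simp
  ring

lemma floor_tend : Tendsto (fun x : ℝ => ⌊x⌋₊) atTop atTop := tendsto_nat_floor_atTop

lemma floor_log : Tendsto (fun x : ℝ => Real.log (⌊x⌋₊ : ℕ) / Real.log x) atTop (𝓝 1) := by
  have h1 : Tendsto (fun x : ℝ => 1 - Real.log 2 / Real.log x) atTop (𝓝 (1 - 0)) :=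
    tendsto_const_nhds.sub (tendsto_const_nhds.div_atTop Real.tendsto_log_atTop)
  rw [sub_zero] at h1
  refine tendsto_of_tendsto_of_tendsto_of_le_of_le' h1 tendsto_const_nhds ?_ ?_
  · filter_upwards [eventually_ge_atTop 2] with x hx
    have h4 := Real.log_pos (show (1 : ℝ) < x by linarith)
    have h5 : (1 : ℝ) ≤ (⌊x⌋₊ : ℕ) := by
      have : 1 ≤ ⌊x⌋₊ := Nat.le_floor (by push_cast; linarith)
      exact_mod_cast this
    have h6 := Nat.lt_floor_add_one x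
    rw [le_div_iff₀ h4]
    have h7 : Real.log x ≤ Real.log 2 + Real.log (⌊x⌋₊ : ℕ) := by
      rw [← Real.log_mul (by norm_num) (by linarith)]
      exact Real.log_le_log (by linarith) (by linarith)
    have h8 : (1 - Real.log 2 / Real.log x) * Real.log x = Real.log x - Real.log 2 := by
      field_simp
    rw [h8]
    linarith
  · filter_upwards [eventually_ge_atTop 2] with x hx
    have h4 := Real.log_pos (show (1 : ℝ) < x by linarith)
    have h5 : (1 : ℝ) ≤ (⌊x⌋₊ : ℕ) := by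
      have : 1 ≤ ⌊x⌋₊ := Nat.le_floor (by push_cast; linarith)
      exact_mod_cast this
    rw [div_le_iff₀ h4, one_mul]
    exact Real.log_le_log (by linarith) (Nat.floor_le (by linarith))

lemma log_sq_le {x y : ℝ} (hx : 1 ≤ x) (hxy : x ≤ y) : Real.log x ^ 2 ≤ Real.log y ^ 2 := by
  have h1 := Real.log_nonneg hx
  have h2 := Real.log_le_log (by linarith) hxy
  exact pow_le_pow_left₀ h1 h2 2

section main

variable {Ω : Type} [MeasurableSpace Ω] {P : Measure Ω} {a : ℕ → Ω → ℕ} {z : ℕ → ℕ} {C : ℝ}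

/-- upper bound for the upper limit -/
lemma partA (hupx : S_UPX) (hrate : S_RATE) (ha : Model P a) (hz : Monotone z)
    (hlim : Tendsto (fun n : ℕ => MM (z n) / Real.log n) atTop (𝓝 1)) (hC : 0 < C) {σ : ℝ} (hσ : 0 < σ)
    (hhi : ∀ ε : ℝ, 0 < ε → ∀ᶠ w : ℕ in atTop, hi w 2 ≤ σ + ε) :
    ∀ᵐ ω ∂P, ∀ j : ℕ, ∀ᶠ x : ℝ in atTop,
      (cnt (Rset (fun q => a q ω) z) x (C * Real.log x ^ 2) : ℝ) / Real.log x ≤ up (C * σ) + 1 / ((j : ℝ) + 1) := by
  rw [ae_all_iff]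
  intro j
  have hj : (0 : ℝ) < 1 / ((j : ℝ) + 1) := by positivity
  obtain ⟨t, ht, h1⟩ := hrate.1 (C * σ) (up (C * σ) + 1 / ((j : ℝ) + 1)) (by positivity) (by linarith)
  have hup0 : 0 ≤ up (C * σ) + 1 / ((j : ℝ) + 1) := by
    have := hrate.2.2.2.2.2.2.2 (C * σ) (by positivity)
    have : 0 < C * σ := by positivity
    linarith
  have hg : ∀ᶠ n : ℕ in atTop, n ≤ (fun n : ℕ => n + 1) n ∧ (fun n : ℕ => n + 1) n ≤ 5 * n := by
    filter_upwards [eventually_ge_atTop 1] with n hn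
    constructor
    · simp
    · show n + 1 ≤ 5 * n
      omega
  have hU : Tendsto (fun n : ℕ => ((⌈C * Real.log ((n + 1 : ℕ) : ℝ) ^ 2⌉₊ + 1 : ℕ) : ℝ) / Real.log n ^ 2) atTop (𝓝 C) := by
    refine lim_U hg (Eventually.of_forall fun n => ?_)
    have h2 := Nat.ceil_lt_add_one (show 0 ≤ C * Real.log ((n + 1 : ℕ) : ℝ) ^ 2 by positivity)
    have h3 := Nat.le_ceil (C * Real.log ((n + 1 : ℕ) : ℝ) ^ 2)
    rw [abs_le]
    push_cast at h2 h3 ⊢
    constructor <;> linarith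
  have h2 := (hupx Ω P a ha C t _ σ hC (by linarith) hσ.le h1 _ z hU hlim).1 ht hhi
  filter_upwards [h2] with ω hω
  filter_upwards [floor_tend.eventually hω, eventually_ge_atTop 2] with x hx hx2
  have h4 := Real.log_pos (show (1 : ℝ) < x by linarith)
  have h5 : (1 : ℝ) ≤ (⌊x⌋₊ : ℕ) := by
    have : 1 ≤ ⌊x⌋₊ := Nat.le_floor (by push_cast; linarith)
    exact_mod_cast this
  have h6 := Nat.lt_floor_add_one x
  have h7 := Nat.floor_le (show 0 ≤ x by linarith)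
  have h8 : cnt (Rset (fun q => a q ω) z) x (C * Real.log x ^ 2) ≤
      sv (fun q => a q ω) (z ⌊x⌋₊) ⌊x⌋₊ (⌈C * Real.log ((⌊x⌋₊ + 1 : ℕ) : ℝ) ^ 2⌉₊ + 1) := by
    refine cnt_le _ z hz h7 le_rfl ?_
    have h9 := Nat.le_ceil (C * Real.log ((⌊x⌋₊ + 1 : ℕ) : ℝ) ^ 2)
    have h10 : C * Real.log x ^ 2 ≤ C * Real.log ((⌊x⌋₊ + 1 : ℕ) : ℝ) ^ 2 := by
      refine mul_le_mul_of_nonneg_left (log_sq_le (by linarith) ?_) hC.le
      push_cast
      linarith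
    push_cast at h9 h10 ⊢
    linarith
  have h9 : (cnt (Rset (fun q => a q ω) z) x (C * Real.log x ^ 2) : ℝ) ≤
      sv (fun q => a q ω) (z ⌊x⌋₊) ⌊x⌋₊ (⌈C * Real.log ((⌊x⌋₊ + 1 : ℕ) : ℝ) ^ 2⌉₊ + 1) := by exact_mod_cast h8
  rw [div_le_iff₀ h4]
  refine h9.trans (hx.le.trans ?_)
  exact mul_le_mul_of_nonneg_left (Real.log_le_log (by linarith) h7) hup0

/-- lower bound for the lower limit -/
lemma partB (hupx : S_UPX) (hrate : S_RATE) (ha : Model P a) (hz : Monotone z)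
    (hlim : Tendsto (fun n : ℕ => MM (z n) / Real.log n) atTop (𝓝 1)) (hC : 0 < C) {σ : ℝ} (hσ : 0 ≤ σ)
    (hlo : ∀ ε : ℝ, 0 < ε → ∀ᶠ w : ℕ in atTop, σ - ε ≤ lo w 2) :
    ∀ᵐ ω ∂P, ∀ j : ℕ, ∀ᶠ x : ℝ in atTop,
      dn (C * σ) - 1 / ((j : ℝ) + 1) ≤ (cnt (Rset (fun q => a q ω) z) x (C * Real.log x ^ 2) : ℝ) / Real.log x := by
  rw [ae_all_iff]
  intro j
  by_cases h0 : dn (C * σ) - 1 / ((j : ℝ) + 1) ≤ 0
  · refine Eventually.of_forall fun ω => ?_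
    filter_upwards [eventually_ge_atTop 2] with x hx
    exact h0.trans (div_nonneg (Nat.cast_nonneg _) (Real.log_nonneg (by linarith)))
  push Not at h0
  set u : ℝ := dn (C * σ) - 1 / ((j : ℝ) + 2) with hu
  have hj1 : (1 : ℝ) / ((j : ℝ) + 2) < 1 / ((j : ℝ) + 1) :=
    one_div_lt_one_div_of_lt (by positivity) (by linarith)
  have hj2 : (0 : ℝ) < 1 / ((j : ℝ) + 2) := by positivity
  have hu1 : dn (C * σ) - 1 / ((j : ℝ) + 1) < u := by rw [hu]; linarith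
  have hu0 : 0 < u := by linarith
  have hu2 : u < dn (C * σ) := by rw [hu]; linarith
  have hl : 0 < C * σ := by
    rcases hσ.lt_or_eq with h | h
    · positivity
    · exfalso
      rw [← h, mul_zero, hrate.2.2.2.2.2.1 0 le_rfl zero_le_one] at hu2
      linarith
  obtain ⟨t, ht1, ht, h1⟩ := hrate.2.2.1 (C * σ) u hl hu0.le hu2
  have hg : ∀ᶠ n : ℕ in atTop, n ≤ (fun n : ℕ => n) n ∧ (fun n : ℕ => n) n ≤ 5 * n :=
    Eventually.of_forall fun n => ⟨le_rfl, by show n ≤ 5 * n; omega⟩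
  have hg2 : ∀ᶠ n : ℕ in atTop, n ≤ (fun n : ℕ => 2 * n) n ∧ (fun n : ℕ => 2 * n) n ≤ 5 * n :=
    Eventually.of_forall fun n => ⟨by show n ≤ 2 * n; omega, by show 2 * n ≤ 5 * n; omega⟩
  have hU : Tendsto (fun n : ℕ => ((⌊C * Real.log (n : ℝ) ^ 2⌋₊ - 1 : ℕ) : ℝ) / Real.log n ^ 2) atTop (𝓝 C) := by
    refine lim_U (g := fun n => n) hg (Eventually.of_forall fun n => ?_)
    have h2 := Nat.lt_floor_add_one (C * Real.log (n : ℝ) ^ 2)
    have h3 := Nat.floor_le (show 0 ≤ C * Real.log (n : ℝ) ^ 2 by positivity)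
    have h4 : ((⌊C * Real.log (n : ℝ) ^ 2⌋₊ - 1 : ℕ) : ℝ) ≤ ⌊C * Real.log (n : ℝ) ^ 2⌋₊ := by
      exact_mod_cast Nat.sub_le _ _
    have h5 : (⌊C * Real.log (n : ℝ) ^ 2⌋₊ : ℝ) ≤ ((⌊C * Real.log (n : ℝ) ^ 2⌋₊ - 1 : ℕ) : ℝ) + 1 := by
      have : ⌊C * Real.log (n : ℝ) ^ 2⌋₊ ≤ (⌊C * Real.log (n : ℝ) ^ 2⌋₊ - 1) + 1 := by omega
      exact_mod_cast this
    rw [abs_le]
    constructor <;> linarith
  have h2 := (hupx Ω P a ha C t _ σ hC ht1 hσ h1 _ (fun n => z (2 * n)) hU (lim_z hlim hg2)).2 ht hlo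
  filter_upwards [h2] with ω hω
  have h10 : ∀ᶠ x : ℝ in atTop, dn (C * σ) - 1 / ((j : ℝ) + 1) ≤ u * (Real.log (⌊x⌋₊ : ℕ) / Real.log x) := by
    have h11 : Tendsto (fun x : ℝ => u * (Real.log (⌊x⌋₊ : ℕ) / Real.log x)) atTop (𝓝 (u * 1)) :=
      floor_log.const_mul u
    rw [mul_one] at h11
    exact (h11.eventually (lt_mem_nhds hu1)).mono fun x hx => hx.le
  have h12 : ∀ᶠ n : ℕ in atTop, ⌊C * Real.log (n : ℝ) ^ 2⌋₊ - 1 ≤ n := by
    have h13 : Tendsto (fun n : ℕ => ((⌊C * Real.log (n : ℝ) ^ 2⌋₊ - 1 : ℕ) : ℝ) / Real.log n ^ 2 *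
        (Real.log n ^ 2 / n)) atTop (𝓝 (C * 0)) := by
      refine hU.mul ?_
      have := (Real.isLittleO_pow_log_id_atTop (n := 2)).tendsto_div_nhds_zero.comp tendsto_natCast_atTop_atTop
      exact this
    rw [mul_zero] at h13
    filter_upwards [h13.eventually (gt_mem_nhds one_pos), eventually_ge_atTop 2] with n hn hn2
    have h14 : (1 : ℝ) < n := by exact_mod_cast hn2
    have h15 := (Real.log_pos h14).ne'
    rw [div_mul_div_comm, mul_comm (Real.log (n : ℝ) ^ 2) (n : ℝ), mul_div_mul_right _ _ (by positivity),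
      div_lt_one (by linarith)] at hn
    exact_mod_cast hn.le
  filter_upwards [floor_tend.eventually hω, eventually_ge_atTop 3, h10, floor_tend.eventually h12,
    floor_tend.eventually (tlog.eventually_gt_atTop 0)] with x hx hx2 h13 h14 h15
  have h4 := Real.log_pos (show (1 : ℝ) < x by linarith)
  have h5 : (1 : ℝ) ≤ (⌊x⌋₊ : ℕ) := by
    have : 1 ≤ ⌊x⌋₊ := Nat.le_floor (by push_cast; linarith)
    exact_mod_cast this
  have h6 := Nat.lt_floor_add_one x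
  have h7 := Nat.floor_le (show 0 ≤ x by linarith)
  have h8 : sv (fun q => a q ω) (z (2 * ⌊x⌋₊)) ⌊x⌋₊ (⌊C * Real.log (⌊x⌋₊ : ℝ) ^ 2⌋₊ - 1) ≤
      cnt (Rset (fun q => a q ω) z) x (C * Real.log x ^ 2) := by
    by_cases hf : ⌊C * Real.log (⌊x⌋₊ : ℝ) ^ 2⌋₊ = 0
    · rw [hf]
      simp [sv]
    refine le_cnt _ z hz h6 (by omega) ?_
    have h9 := Nat.floor_le (show 0 ≤ C * Real.log (⌊x⌋₊ : ℝ) ^ 2 by positivity)
    have h10 : C * Real.log (⌊x⌋₊ : ℝ) ^ 2 ≤ C * Real.log x ^ 2 :=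
      mul_le_mul_of_nonneg_left (log_sq_le h5 h7) hC.le
    rw [Nat.cast_sub (by omega)]
    push_cast
    linarith
  have h9 : (sv (fun q => a q ω) (z (2 * ⌊x⌋₊)) ⌊x⌋₊ (⌊C * Real.log (⌊x⌋₊ : ℝ) ^ 2⌋₊ - 1) : ℝ) ≤
      cnt (Rset (fun q => a q ω) z) x (C * Real.log x ^ 2) := by exact_mod_cast h8
  refine h13.trans ?_
  rw [← mul_div_assoc]
  gcongr
  linarith

/-- lower bound for the upper limit -/
lemma partC (hexi : S_EXI) (hrate : S_RATE) (ha : Model P a) (hz : Monotone z)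
    (hlim : Tendsto (fun n : ℕ => MM (z n) / Real.log n) atTop (𝓝 1)) (hC : 0 < C) {σ : ℝ} (hσ : 0 < σ)
    (hhi : ∀ ε : ℝ, 0 < ε → ∃ᶠ w : ℕ in atTop, |hi w 2 - σ| ≤ ε) :
    ∀ᵐ ω ∂P, ∀ j : ℕ, ∃ᶠ x : ℝ in atTop,
      up (C * σ) - 1 / ((j : ℝ) + 1) ≤ (cnt (Rset (fun q => a q ω) z) x (C * Real.log x ^ 2) : ℝ) / Real.log x := by
  rw [ae_all_iff]
  intro j
  have hj1 : (1 : ℝ) / ((j : ℝ) + 2) < 1 / ((j : ℝ) + 1) :=
    one_div_lt_one_div_of_lt (by positivity) (by linarith)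
  have hj2 : (0 : ℝ) < 1 / ((j : ℝ) + 2) := by positivity
  obtain ⟨t, ht, h1, h2⟩ := hrate.2.1 (C * σ) (up (C * σ) - 1 / ((j : ℝ) + 2)) (by positivity) (by linarith)
  set δ : ℝ := (1 / ((j : ℝ) + 1) - 1 / ((j : ℝ) + 2)) / 2 with hδ
  have hδ0 : 0 < δ := by rw [hδ]; linarith
  have hg : ∀ᶠ n : ℕ in atTop, n ≤ (fun n : ℕ => n) n ∧ (fun n : ℕ => n) n ≤ 5 * n :=
    Eventually.of_forall fun n => ⟨le_rfl, by show n ≤ 5 * n; omega⟩
  have hg4 : ∀ᶠ n : ℕ in atTop, n ≤ (fun n : ℕ => 4 * n) n ∧ (fun n : ℕ => 4 * n) n ≤ 5 * n :=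
    Eventually.of_forall fun n => ⟨by show n ≤ 4 * n; omega, by show 4 * n ≤ 5 * n; omega⟩
  have hg3 : ∀ᶠ n : ℕ in atTop, n ≤ (fun n : ℕ => 3 * n) n ∧ (fun n : ℕ => 3 * n) n ≤ 5 * n :=
    Eventually.of_forall fun n => ⟨by show n ≤ 3 * n; omega, by show 3 * n ≤ 5 * n; omega⟩
  have hU : Tendsto (fun n : ℕ => ((⌊C * Real.log (n : ℝ) ^ 2⌋₊ - 1 : ℕ) : ℝ) / Real.log n ^ 2) atTop (𝓝 C) := by
    refine lim_U (g := fun n => n) hg (Eventually.of_forall fun n => ?_)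
    have h2 := Nat.lt_floor_add_one (C * Real.log (n : ℝ) ^ 2)
    have h3 := Nat.floor_le (show 0 ≤ C * Real.log (n : ℝ) ^ 2 by positivity)
    have h4 : ((⌊C * Real.log (n : ℝ) ^ 2⌋₊ - 1 : ℕ) : ℝ) ≤ ⌊C * Real.log (n : ℝ) ^ 2⌋₊ := by
      exact_mod_cast Nat.sub_le _ _
    have h5 : (⌊C * Real.log (n : ℝ) ^ 2⌋₊ : ℝ) ≤ ((⌊C * Real.log (n : ℝ) ^ 2⌋₊ - 1 : ℕ) : ℝ) + 1 := by
      have : ⌊C * Real.log (n : ℝ) ^ 2⌋₊ ≤ (⌊C * Real.log (n : ℝ) ^ 2⌋₊ - 1) + 1 := by omega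
      exact_mod_cast this
    rw [abs_le]
    constructor <;> linarith
  have h3 := hexi Ω P a ha C t δ σ hC (by linarith) hδ0 hσ.le h2 _ (fun n => z (4 * n)) hU (lim_z hlim hg4) (Or.inl hhi)
  filter_upwards [h3] with ω hω
  set v : ℝ := (1 + t) * (C * σ) - δ with hv
  have hv1 : up (C * σ) - 1 / ((j : ℝ) + 1) < v := by rw [hv]; linarith
  have h12 : ∀ᶠ n : ℕ in atTop, ⌊C * Real.log (n : ℝ) ^ 2⌋₊ - 1 ≤ n := by
    have h13 : Tendsto (fun n : ℕ => ((⌊C * Real.log (n : ℝ) ^ 2⌋₊ - 1 : ℕ) : ℝ) / Real.log n ^ 2 *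
        (Real.log n ^ 2 / n)) atTop (𝓝 (C * 0)) := by
      refine hU.mul ?_
      have := (Real.isLittleO_pow_log_id_atTop (n := 2)).tendsto_div_nhds_zero.comp tendsto_natCast_atTop_atTop
      exact this
    rw [mul_zero] at h13
    filter_upwards [h13.eventually (gt_mem_nhds one_pos), eventually_ge_atTop 2] with n hn hn2
    have h14 : (1 : ℝ) < n := by exact_mod_cast hn2
    have h15 := (Real.log_pos h14).ne'
    rw [div_mul_div_comm, mul_comm (Real.log (n : ℝ) ^ 2) (n : ℝ), mul_div_mul_right _ _ (by positivity),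
      div_lt_one (by linarith)] at hn
    exact_mod_cast hn.le
  have h16 : ∀ᶠ X : ℕ in atTop, up (C * σ) - 1 / ((j : ℝ) + 1) ≤ v * (Real.log X / Real.log (3 * X : ℕ)) := by
    have h17 : Tendsto (fun X : ℕ => v * (Real.log X / Real.log (3 * X : ℕ))) atTop (𝓝 (v * 1⁻¹)) := by
      refine ((log_ratio hg3).inv₀ one_ne_zero).const_mul v |>.congr fun n => ?_
      rw [inv_div]
    rw [inv_one, mul_one] at h17
    exact (h17.eventually (lt_mem_nhds hv1)).mono fun x hx => hx.le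
  rw [frequently_atTop]
  intro b
  obtain ⟨X, ⟨n, hn1, hn2, hn3⟩, hX1, hX2, hX3, hX4⟩ := (hω.and_eventually
    (h12.and (h16.and ((eventually_ge_atTop 3).and (eventually_ge_atTop ⌈b⌉₊))))).exists
  refine ⟨n, ?_, ?_⟩
  · calc b ≤ ⌈b⌉₊ := Nat.le_ceil b
      _ ≤ X := by exact_mod_cast hX4
      _ ≤ n := by exact_mod_cast hn1
  · have h4 : (1 : ℝ) < X := by exact_mod_cast (show 1 < X by omega)
    have h4' : (X : ℝ) ≤ n := by exact_mod_cast hn1
    have h5 := Real.log_pos h4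
    have h6 := Real.log_pos (show (1 : ℝ) < n by linarith)
    have h6' : Real.log X ≤ Real.log n := Real.log_le_log (by linarith) h4'
    have h7 : Real.log n ≤ Real.log (3 * X : ℕ) := Real.log_le_log (by linarith) (by exact_mod_cast hn2)
    have h8 : sv (fun q => a q ω) (z (4 * X)) n (⌊C * Real.log (X : ℝ) ^ 2⌋₊ - 1) ≤
        cnt (Rset (fun q => a q ω) z) n (C * Real.log n ^ 2) := by
      by_cases hf : ⌊C * Real.log (X : ℝ) ^ 2⌋₊ = 0
      · rw [hf]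
        simp [sv]
      refine le_cnt _ z hz (by linarith) (by omega) ?_
      have h9 := Nat.floor_le (show 0 ≤ C * Real.log (X : ℝ) ^ 2 by positivity)
      have h10 : C * Real.log (X : ℝ) ^ 2 ≤ C * Real.log n ^ 2 :=
        mul_le_mul_of_nonneg_left (log_sq_le h4.le h4') hC.le
      rw [Nat.cast_sub (by omega)]
      push_cast
      linarith
    have h9 : (sv (fun q => a q ω) (z (4 * X)) n (⌊C * Real.log (X : ℝ) ^ 2⌋₊ - 1) : ℝ) ≤
        cnt (Rset (fun q => a q ω) z) n (C * Real.log n ^ 2) := by exact_mod_cast h8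
    have h10 : v ≤ (sv (fun q => a q ω) (z (4 * X)) n (⌊C * Real.log (X : ℝ) ^ 2⌋₊ - 1) : ℝ) / Real.log X := by
      have := (abs_le.1 hn3).1
      rw [hv]
      linarith
    by_cases hv0 : v ≤ 0
    · exact (hv1.le.trans hv0).trans (div_nonneg (Nat.cast_nonneg _) h6.le)
    push Not at hv0
    refine hX2.trans ?_
    calc v * (Real.log X / Real.log (3 * X : ℕ)) ≤ v * (Real.log X / Real.log n) := by gcongr
      _ ≤ (sv (fun q => a q ω) (z (4 * X)) n (⌊C * Real.log (X : ℝ) ^ 2⌋₊ - 1) : ℝ) / Real.log X *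
          (Real.log X / Real.log n) := by gcongr
      _ = (sv (fun q => a q ω) (z (4 * X)) n (⌊C * Real.log (X : ℝ) ^ 2⌋₊ - 1) : ℝ) / Real.log n := by
          field_simp
      _ ≤ _ := by gcongr

/-- upper bound for the lower limit -/
lemma partD (hexi : S_EXI) (hrate : S_RATE) (ha : Model P a) (hz : Monotone z)
    (hlim : Tendsto (fun n : ℕ => MM (z n) / Real.log n) atTop (𝓝 1)) (hC : 0 < C) {σ : ℝ} (hσ : 0 ≤ σ)
    (hlo : ∀ ε : ℝ, 0 < ε → ∃ᶠ w : ℕ in atTop, |lo w 2 - σ| ≤ ε) :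
    ∀ᵐ ω ∂P, ∀ j : ℕ, ∃ᶠ x : ℝ in atTop,
      (cnt (Rset (fun q => a q ω) z) x (C * Real.log x ^ 2) : ℝ) / Real.log x ≤ dn (C * σ) + 1 / ((j : ℝ) + 1) := by
  rw [ae_all_iff]
  intro j
  have hj1 : (1 : ℝ) / ((j : ℝ) + 2) < 1 / ((j : ℝ) + 1) :=
    one_div_lt_one_div_of_lt (by positivity) (by linarith)
  have hj2 : (0 : ℝ) < 1 / ((j : ℝ) + 2) := by positivity
  obtain ⟨t, ht1, ht, h1, h2⟩ := hrate.2.2.2.1 (C * σ) (dn (C * σ) + 1 / ((j : ℝ) + 2)) (by positivity) (by linarith)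
  set δ : ℝ := (1 / ((j : ℝ) + 1) - 1 / ((j : ℝ) + 2)) / 2 with hδ
  have hδ0 : 0 < δ := by rw [hδ]; linarith
  have hdn0 := hrate.2.2.2.2.2.2.1 (C * σ) (by positivity)
  have hg3 : ∀ᶠ n : ℕ in atTop, n ≤ (fun n : ℕ => 3 * n) n ∧ (fun n : ℕ => 3 * n) n ≤ 5 * n :=
    Eventually.of_forall fun n => ⟨by show n ≤ 3 * n; omega, by show 3 * n ≤ 5 * n; omega⟩
  have hU : Tendsto (fun n : ℕ => ((⌈C * Real.log ((3 * n : ℕ) : ℝ) ^ 2⌉₊ + 1 : ℕ) : ℝ) / Real.log n ^ 2) atTop (𝓝 C) := by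
    refine lim_U hg3 (Eventually.of_forall fun n => ?_)
    have h2 := Nat.ceil_lt_add_one (show 0 ≤ C * Real.log ((3 * n : ℕ) : ℝ) ^ 2 by positivity)
    have h3 := Nat.le_ceil (C * Real.log ((3 * n : ℕ) : ℝ) ^ 2)
    rw [abs_le]
    push_cast at h2 h3 ⊢
    constructor <;> linarith
  have h3 := hexi Ω P a ha C t δ σ hC ht1 hδ0 hσ h2 _ z hU hlim (Or.inr hlo)
  filter_upwards [h3] with ω hω
  rw [frequently_atTop]
  intro b
  obtain ⟨X, ⟨n, hn1, hn2, hn3⟩, hX3, hX4⟩ := (hω.and_eventually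
    ((eventually_ge_atTop 3).and (eventually_ge_atTop ⌈b⌉₊))).exists
  refine ⟨n, ?_, ?_⟩
  · calc b ≤ ⌈b⌉₊ := Nat.le_ceil b
      _ ≤ X := by exact_mod_cast hX4
      _ ≤ n := by exact_mod_cast hn1
  · have h4 : (1 : ℝ) < X := by exact_mod_cast (show 1 < X by omega)
    have h4' : (X : ℝ) ≤ n := by exact_mod_cast hn1
    have h4'' : (n : ℝ) ≤ ((3 * X : ℕ) : ℝ) := by exact_mod_cast hn2
    have h5 := Real.log_pos h4
    have h6 := Real.log_pos (show (1 : ℝ) < n by linarith)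
    have h6' : Real.log X ≤ Real.log n := Real.log_le_log (by linarith) h4'
    have h8 : cnt (Rset (fun q => a q ω) z) n (C * Real.log n ^ 2) ≤
        sv (fun q => a q ω) (z X) n (⌈C * Real.log ((3 * X : ℕ) : ℝ) ^ 2⌉₊ + 1) := by
      refine cnt_le _ z hz le_rfl hn1 ?_
      have h9 := Nat.le_ceil (C * Real.log ((3 * X : ℕ) : ℝ) ^ 2)
      have h10 : C * Real.log (n : ℝ) ^ 2 ≤ C * Real.log ((3 * X : ℕ) : ℝ) ^ 2 :=
        mul_le_mul_of_nonneg_left (log_sq_le (by linarith) h4'') hC.le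
      push_cast at h9 h10 ⊢
      linarith
    have h9 : (cnt (Rset (fun q => a q ω) z) n (C * Real.log n ^ 2) : ℝ) ≤
        sv (fun q => a q ω) (z X) n (⌈C * Real.log ((3 * X : ℕ) : ℝ) ^ 2⌉₊ + 1) := by exact_mod_cast h8
    have h10 : (sv (fun q => a q ω) (z X) n (⌈C * Real.log ((3 * X : ℕ) : ℝ) ^ 2⌉₊ + 1) : ℝ) / Real.log X ≤
        dn (C * σ) + 1 / ((j : ℝ) + 1) := by
      have := (abs_le.1 hn3).2
      linarith
    rw [div_le_iff₀ h5] at h10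
    rw [div_le_iff₀ h6]
    refine h9.trans (h10.trans ?_)
    gcongr

end main

end Pool.Agent.H50.CW
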