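import Pool.Agent.H50.CW.Step31

/-! CW-LOB (helper31). -/

set_option autoImplicit false

open MeasureTheory Filter
open scoped Topology ENNReal

namespace Pool.Agent.H50.CW

open Pool.Agent.H50.BF Pool.Agent.H50.CW.Step31

theorem lob : S_IND → S_DPI → S_STP → S_WIN → S_LOB := by
  intro hI _ hS hW Ω _ P a H q z U t Φ pos ht hq1 hUq hqz hΦ hpos hΦ0 hK
  obtain ⟨K, hKd⟩ : ∃ K, K = |t| / (1 + t) := ⟨_, rfl⟩
  rw [← hKd] at hK ⊢
  have hK0 : 0 ≤ K := by
    rw [hKd]
    exact div_nonneg (abs_nonneg t) (by linarith)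
  have hq0 : (0 : ℝ) < q := by exact_mod_cast hq1
  have hU0 : (0 : ℝ) ≤ U := Nat.cast_nonneg _
  have key : ∀ v, q ≤ v → v ≤ z →
      Real.exp (-(K ^ 2 * (U : ℝ) ^ 2 * (1 / q - 1 / v))) *
      ∫ ω, Φ (fun p => a p ω) *
        (1 + ta t z q) ^ sv (fun p => a p ω) q (pos (fun p => a p ω)) U ∂P ≤
      ∫ ω, Φ (fun p => a p ω) *
        (1 + ta t z v) ^ sv (fun p => a p ω) v (pos (fun p => a p ω)) U ∂P := by
    intro v hv
    induction v, hv using Nat.le_induction with
    | base =>
      intro _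
      rw [sub_self, mul_zero, neg_zero, Real.exp_zero, one_mul]
    | succ v hqv ih =>
      intro hvz
      have ih := ih (by omega)
      have hv0 : (0 : ℝ) < v := by
        have : 0 < v := by omega
        exact_mod_cast this
      obtain ⟨A, hA⟩ : ∃ A, A = ∫ ω, Φ (fun p => a p ω) *
        (1 + ta t z q) ^ sv (fun p => a p ω) q (pos (fun p => a p ω)) U ∂P := ⟨_, rfl⟩
      obtain ⟨B, hB⟩ : ∃ B, B = ∫ ω, Φ (fun p => a p ω) *
        (1 + ta t z v) ^ sv (fun p => a p ω) v (pos (fun p => a p ω)) U ∂P := ⟨_, rfl⟩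
      rw [← hA, ← hB] at ih
      rw [← hA]
      have hB0 : 0 ≤ B := by
        rw [hB]
        refine integral_nonneg fun ω => ?_
        have := ta_gt ht (show v ≤ z by omega)
        exact mul_nonneg (hΦ0 _) (pow_nonneg (by linarith) _)
      have hvv : (1 : ℝ) / v - 1 / ((v + 1 : ℕ) : ℝ) = 1 / (v * ((v + 1 : ℕ) : ℝ)) := by
        push_cast
        field_simp
        ring
      have hsplit : Real.exp (-(K ^ 2 * (U : ℝ) ^ 2 * (1 / q - 1 / ((v + 1 : ℕ) : ℝ)))) =
          Real.exp (-(K ^ 2 * (U : ℝ) ^ 2 * (1 / (v * ((v + 1 : ℕ) : ℝ))))) *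
          Real.exp (-(K ^ 2 * (U : ℝ) ^ 2 * (1 / q - 1 / v))) := by
        rw [← Real.exp_add, ← hvv]
        congr 1
        ring
      rw [hsplit, mul_assoc]
      refine (mul_le_mul_of_nonneg_left ih (Real.exp_pos _).le).trans ?_
      have hE1 : Real.exp (-(K ^ 2 * (U : ℝ) ^ 2 * (1 / (v * ((v + 1 : ℕ) : ℝ))))) ≤ 1 := by
        apply Real.exp_le_one_iff.mpr
        have : 0 ≤ K ^ 2 * (U : ℝ) ^ 2 * (1 / (v * ((v + 1 : ℕ) : ℝ))) := by positivity
        linarith
      by_cases hp : (v + 1).Prime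
      · have hcmp : Real.exp (-(K ^ 2 * (U : ℝ) ^ 2 * (1 / (v * ((v + 1 : ℕ) : ℝ))))) ≤
            Real.exp (-(K * ((U : ℝ) / ((v + 1 : ℕ) : ℝ))) ^ 2) := by
          apply Real.exp_le_exp.mpr
          have h1 : (K * ((U : ℝ) / ((v + 1 : ℕ) : ℝ))) ^ 2 =
              K ^ 2 * (U : ℝ) ^ 2 * (1 / (((v + 1 : ℕ) : ℝ) * ((v + 1 : ℕ) : ℝ))) := by
            ring
          rw [h1, neg_le_neg_iff]
          apply mul_le_mul_of_nonneg_left _ (by positivity)
          apply one_div_le_one_div_of_le (by positivity)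
          apply mul_le_mul_of_nonneg_right _ (by positivity)
          push_cast
          linarith
        refine (mul_le_mul_of_nonneg_right hcmp hB0).trans ?_
        obtain ⟨c, hc⟩ : ∃ c, c = Real.exp (-(K * ((U : ℝ) / ((v + 1 : ℕ) : ℝ))) ^ 2) := ⟨_, rfl⟩
        rw [← hc, hB, ← integral_const_mul]
        have hc0 : 0 ≤ c := by rw [hc]; exact (Real.exp_pos _).le
        refine step_ge hI H hp
          (G := fun r b => Φ b * (1 + ta t z (v + 1)) ^
            (sv b v (pos b) U - cls b v (pos b) U (v + 1) r))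
          (F1 := fun b => Φ b * (1 + ta t z (v + 1)) ^ sv b (v + 1) (pos b) U)
          (F0 := fun b => c * (Φ b * (1 + ta t z v) ^ sv b v (pos b) U)) ?_ ?_ ?_ ?_
        · intro r b b' hb
          change Φ b * (1 + ta t z (v + 1)) ^ (sv b v (pos b) U - cls b v (pos b) U (v + 1) r) =
            Φ b' * (1 + ta t z (v + 1)) ^ (sv b' v (pos b') U - cls b' v (pos b') U (v + 1) r)
          rw [dep_mono hqv hΦ b b' hb, sv_dep hqv hpos U hb, cls_dep hqv hpos U (v + 1) r hb]
        · intro b b' hb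
          change c * (Φ b * (1 + ta t z v) ^ (sv b v (pos b) U)) =
            c * (Φ b' * (1 + ta t z v) ^ (sv b' v (pos b') U))
          rw [dep_mono hqv hΦ b b' hb, sv_dep hqv hpos U hb]
        · intro b
          have h1 := (hW b (pos b) U (v + 1) hp (by omega)).1
          rw [Nat.add_sub_cancel] at h1
          change Φ b * (1 + ta t z (v + 1)) ^ sv b (v + 1) (pos b) U = _
          rw [h1]
        · intro b
          obtain ⟨-, h2, h3, -⟩ := hW b (pos b) U (v + 1) hp (by omega)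
          rw [Nat.add_sub_cancel] at h2 h3
          have hX : (sv b v (pos b) U : ℝ) ≤ U := by exact_mod_cast sv_le b v (pos b) U
          have hXp : (sv b v (pos b) U : ℝ) / ((v + 1 : ℕ) : ℝ) ≤ (U : ℝ) / ((v + 1 : ℕ) : ℝ) :=
            div_le_div_of_nonneg_right hX (by positivity)
          have hKv := ta_K ht hvz
          rw [← hKd] at hKv
          have hτ0 : 0 ≤ |ta t z (v + 1)| / (1 + ta t z (v + 1)) := by
            have := ta_gt ht hvz
            exact div_nonneg (abs_nonneg _) (by linarith)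
          have hy : |ta t z (v + 1)| / (1 + ta t z (v + 1)) *
              ((sv b v (pos b) U : ℝ) / ((v + 1 : ℕ) : ℝ)) ≤ K * ((U : ℝ) / ((v + 1 : ℕ) : ℝ)) :=
            mul_le_mul hKv hXp (by positivity) hK0
          have hUv : (U : ℝ) / ((v + 1 : ℕ) : ℝ) ≤ (U : ℝ) / q := by
            apply div_le_div_of_nonneg_left hU0 hq0
            have : q ≤ v + 1 := by omega
            exact_mod_cast this
          have hy2 : |ta t z (v + 1)| / (1 + ta t z (v + 1)) *
              ((sv b v (pos b) U : ℝ) / ((v + 1 : ℕ) : ℝ)) ≤ 1 / 2 :=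
            (hy.trans (mul_le_mul_of_nonneg_left hUv hK0)).trans hK
          have h4 := (hS (v + 1) hp.two_le (ta t z (v + 1)) (ta_gt ht hvz) _ _ _ _ h2 h2 h3 h3).2.1 hy2
          rw [ta_succ_prime t z hp] at h4
          have h5 : (((v + 1 : ℕ) : ℝ))⁻¹ * ∑ r ∈ Finset.range (v + 1), Φ b *
              (1 + ta t z (v + 1)) ^ (sv b v (pos b) U - cls b v (pos b) U (v + 1) r) =
              Φ b * ((((v + 1 : ℕ) : ℝ))⁻¹ * ∑ r ∈ Finset.range (v + 1),
              (1 + ta t z (v + 1)) ^ (sv b v (pos b) U - cls b v (pos b) U (v + 1) r)) := by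
            rw [← Finset.mul_sum]
            ring
          rw [h5]
          have h6 : c ≤ Real.exp (-(|ta t z (v + 1)| / (1 + ta t z (v + 1)) *
              ((sv b v (pos b) U : ℝ) / ((v + 1 : ℕ) : ℝ))) ^ 2) := by
            rw [hc]
            apply Real.exp_le_exp.mpr
            rw [neg_le_neg_iff]
            exact pow_le_pow_left₀ (by positivity) hy 2
          have h7 : 0 ≤ (1 + ta t z v) ^ sv b v (pos b) U := by
            have := ta_gt ht (show v ≤ z by omega)
            exact pow_nonneg (by linarith) _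
          calc c * (Φ b * (1 + ta t z v) ^ sv b v (pos b) U) =
                Φ b * (c * (1 + ta t z v) ^ sv b v (pos b) U) := by ring
            _ ≤ Φ b * (Real.exp (-(|ta t z (v + 1)| / (1 + ta t z (v + 1)) *
                ((sv b v (pos b) U : ℝ) / ((v + 1 : ℕ) : ℝ))) ^ 2) *
                (1 + ta t z v) ^ sv b v (pos b) U) :=
                mul_le_mul_of_nonneg_left (mul_le_mul_of_nonneg_right h6 h7) (hΦ0 b)
            _ ≤ _ := mul_le_mul_of_nonneg_left h4 (hΦ0 b)
      · simp only [sv_succ_not _ hp, ta_succ_not t z hp]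
        rw [← hB]
        exact mul_le_of_le_one_left hB0 hE1
  have h := key z hqz le_rfl
  rw [ta_self] at h
  refine le_trans ?_ h
  apply mul_le_mul_of_nonneg_right
  · apply Real.exp_le_exp.mpr
    rw [neg_le_neg_iff]
    have h1 : (1 : ℝ) / q - 1 / z ≤ 1 / q := by
      have : (0 : ℝ) ≤ 1 / z := by positivity
      linarith
    calc K ^ 2 * (U : ℝ) ^ 2 * (1 / q - 1 / z) ≤ K ^ 2 * (U : ℝ) ^ 2 * (1 / q) :=
          mul_le_mul_of_nonneg_left h1 (by positivity)
      _ = K ^ 2 * ((U : ℝ) ^ 2 / q) := by ring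
  · refine integral_nonneg fun ω => ?_
    have := ta_gt ht hqz
    unfold ta at this
    exact mul_nonneg (hΦ0 _) (pow_nonneg (by linarith) _)

end Pool.Agent.H50.CW
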