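import Pool.Agent.H50.CW.Stm

/-! # CW-NUM: the numerical inequalities for SEC (helper96) -/

set_option autoImplicit false

open MeasureTheory Filter
open scoped Topology ENNReal

namespace Pool.Agent.H50.CW

open Pool.Agent.H50.BF

namespace NUM

lemma fac {p : ℕ} (hp : p.Prime) : 1 ≤ (1 - (p : ℝ)⁻¹)⁻¹ := by
  have h2 : (2 : ℝ) ≤ p := by exact_mod_cast hp.two_le
  have h3 : (p : ℝ)⁻¹ ≤ 2⁻¹ := inv_anti₀ (by norm_num) h2
  have h4 : 0 < (p : ℝ)⁻¹ := by positivity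
  rw [one_le_inv₀ (by linarith)]
  linarith

lemma MM_mono : Monotone MM := by
  intro a b hab
  unfold MM
  refine Finset.prod_le_prod_of_subset_of_one_le ?_ ?_ ?_
  · intro p hp
    rw [Finset.mem_filter, Finset.mem_Icc] at hp ⊢
    exact ⟨⟨hp.1.1, hp.1.2.trans hab⟩, hp.2⟩
  · intro p hp
    exact zero_le_one.trans (fac (Finset.mem_filter.1 hp).2)
  · intro p hp _
    exact fac (Finset.mem_filter.1 hp).2

lemma MM_one (w : ℕ) : 1 ≤ MM w := by
  unfold MM
  exact Finset.one_le_prod fun p hp => fac (Finset.mem_filter.1 hp).2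

lemma MM_pos (w : ℕ) : 0 < MM w := zero_lt_one.trans_le (MM_one w)

lemma log_low {x : ℝ} (hx : |x| ≤ 1 / 2) : x - 2 * x ^ 2 ≤ Real.log (1 + x) := by
  have h1 : |(-x)| < 1 := by rw [abs_neg]; linarith
  have h2 := Real.abs_log_sub_add_sum_range_le h1 1
  simp only [Finset.sum_range_one, abs_neg, sub_neg_eq_add] at h2
  norm_num at h2
  have h3 : |x| ^ 2 / (1 - |x|) ≤ 2 * x ^ 2 := by
    rw [div_le_iff₀ (by linarith), ← sq_abs x]
    nlinarith [abs_nonneg x, sq_nonneg |x|]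
  rw [sq_abs] at h3
  have h4 := (abs_le.1 h2).1
  linarith

lemma pow_low {t ρ : ℝ} (T : ℕ) (h : |t * ρ| ≤ 1 / 2) :
    Real.exp (T * (t * ρ - 2 * (t * ρ) ^ 2)) ≤ (1 + t * ρ) ^ T := by
  have h0 : 0 < 1 + t * ρ := by
    have := (abs_le.1 h).1
    linarith
  have h1 := log_low h
  rw [← Real.exp_log h0, ← Real.exp_nat_mul]
  apply Real.exp_le_exp.2
  gcongr

lemma pow_up {t ρ : ℝ} (T : ℕ) (h : 0 ≤ 1 + t * ρ) :
    (1 + t * ρ) ^ T ≤ Real.exp (T * (t * ρ)) := by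
  rw [Real.exp_nat_mul]
  have : 1 + t * ρ ≤ Real.exp (t * ρ) := by
    have := Real.add_one_le_exp (t * ρ)
    linarith
  gcongr

lemma rho_ok {t ρ : ℝ} (ht : -1 < t) (hρ0 : 0 ≤ ρ) (hρ1 : ρ ≤ 1) : 0 ≤ 1 + t * ρ := by
  nlinarith

/-- the first two inequalities -/
lemma core {t h μ δ κ L ρ θ : ℝ} {T : ℕ} (ht : -1 < t) (hh : 0 < h) (hh1 : h ≤ (1 + t) / 4)
    (hμ : 0 ≤ μ) (hδ : 0 < δ) (hhδ : 16 * μ * h ≤ δ) (hκ : κ ≤ δ / (8 * (1 + t))) (hL : 0 < L)
    (hρ0 : 0 ≤ ρ) (hρ1 : ρ ≤ 1) (hx : |ρ * T - μ * L| ≤ κ * L) (htρ : |t * ρ| ≤ 1 / 2)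
    (he : 2 * (t * ρ) ^ 2 * T ≤ δ * h / (8 * (1 + t)) * L) (hθ : 0 < θ)
    (hlog : -Real.log θ ≤ δ * h / (8 * (1 + t)) * L) :
    (1 + (t + h) * ρ) ^ T * ((1 + t) / (1 + (t + h))) ^ (((1 + t) * μ + δ) * L) ≤
        θ * (1 + t * ρ) ^ T ∧
      (1 + (t - h) * ρ) ^ T * ((1 + t) / (1 + (t - h))) ^ (((1 + t) * μ - δ) * L) ≤
        θ * (1 + t * ρ) ^ T := by
  obtain ⟨s, hs⟩ : ∃ s, s = 1 + t := ⟨_, rfl⟩
  have hs0 : 0 < s := by linarith
  obtain ⟨y, hy⟩ : ∃ y, y = h / s := ⟨_, rfl⟩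
  have hy0 : 0 < y := by rw [hy]; positivity
  have hys : s * y = h := by rw [hy]; field_simp
  have hy1 : y ≤ 1 / 4 := by
    rw [hy, div_le_iff₀ hs0]
    linarith
  rw [← hs] at hκ he hlog hh1
  have e1 : δ * h / (8 * s) = δ * y / 8 := by rw [hy]; field_simp
  rw [e1] at he hlog
  have hκ2 : h * κ ≤ δ * y / 8 := by
    calc h * κ ≤ h * (δ / (8 * s)) := by gcongr
      _ = δ * h / (8 * s) := by ring
      _ = _ := e1
  have hx1 := (abs_le.1 hx).1
  have hx2 := (abs_le.1 hx).2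
  have hlow : Real.exp (Real.log θ + (t * ρ * T - 2 * (t * ρ) ^ 2 * T)) ≤ θ * (1 + t * ρ) ^ T := by
    rw [Real.exp_add, Real.exp_log hθ]
    have := pow_low T htρ
    have e2 : (T : ℝ) * (t * ρ - 2 * (t * ρ) ^ 2) = t * ρ * T - 2 * (t * ρ) ^ 2 * T := by ring
    rw [e2] at this
    gcongr
  have hμy : 2 * μ * h * y ≤ δ * y / 8 := by
    have : 2 * μ * h ≤ δ / 8 := by linarith
    calc 2 * μ * h * y ≤ δ / 8 * y := by gcongr
      _ = _ := by ring
  constructor
  · refine le_trans ?_ hlow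
    have h1 := pow_up T (rho_ok (by linarith : -1 < t + h) hρ0 hρ1)
    have e3 : (1 + t) / (1 + (t + h)) = (1 + y)⁻¹ := by
      have h' : 1 + (t + h) = s + h := by rw [hs]; ring
      rw [h', ← hs, hy]
      field_simp
    have h2 : ((1 + t) / (1 + (t + h))) ^ (((1 + t) * μ + δ) * L) =
        Real.exp (-(Real.log (1 + y) * ((s * μ + δ) * L))) := by
      rw [e3, Real.rpow_def_of_pos (by positivity), Real.log_inv, hs]
      congr 1
      ring
    rw [h2]
    have h3 : y - 2 * y ^ 2 ≤ Real.log (1 + y) := log_low (by rw [abs_of_pos hy0]; linarith)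
    have h4 : h * μ - δ * y / 8 + δ * (y / 2) ≤ Real.log (1 + y) * (s * μ + δ) := by
      have h5 : (y - 2 * y ^ 2) * (s * μ + δ) ≤ Real.log (1 + y) * (s * μ + δ) := by gcongr
      refine le_trans ?_ h5
      have e4 : (y - 2 * y ^ 2) * (s * μ + δ) = (s * y) * μ - 2 * μ * (s * y) * y +
        δ * (y - 2 * y ^ 2) := by ring
      rw [e4, hys]
      have h6 : y / 2 ≤ y - 2 * y ^ 2 := by nlinarith
      have h7 : δ * (y / 2) ≤ δ * (y - 2 * y ^ 2) := by gcongr
      linarith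
    calc (1 + (t + h) * ρ) ^ T * Real.exp (-(Real.log (1 + y) * ((s * μ + δ) * L)))
        ≤ Real.exp (T * ((t + h) * ρ)) * Real.exp (-(Real.log (1 + y) * ((s * μ + δ) * L))) := by
          gcongr
      _ = Real.exp (T * ((t + h) * ρ) + -(Real.log (1 + y) * ((s * μ + δ) * L))) :=
          (Real.exp_add _ _).symm
      _ ≤ _ := by
          apply Real.exp_le_exp.2
          have h8 : (h * μ - δ * y / 8 + δ * (y / 2)) * L ≤ Real.log (1 + y) * ((s * μ + δ) * L) := by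
            rw [← mul_assoc]
            gcongr
          have h9 : h * (ρ * T) ≤ h * (μ * L + κ * L) := by
            gcongr
            linarith
          have h10 : h * κ * L ≤ δ * y / 8 * L := by gcongr
          nlinarith
  · refine le_trans ?_ hlow
    have hh2 : h < s := by linarith
    have h1 := pow_up T (rho_ok (by linarith : -1 < t - h) hρ0 hρ1)
    have e3 : (1 + t) / (1 + (t - h)) = (1 - y)⁻¹ := by
      have : s - h ≠ 0 := by linarith
      have h' : 1 + (t - h) = s - h := by rw [hs]; ring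
      rw [h', ← hs, hy]
      field_simp
    have hy2 : 0 < 1 - y := by linarith
    have h2 : ((1 + t) / (1 + (t - h))) ^ (((1 + t) * μ - δ) * L) =
        Real.exp (-Real.log (1 - y) * ((s * μ - δ) * L)) := by
      rw [e3, Real.rpow_def_of_pos (by positivity), Real.log_inv, hs]
    rw [h2]
    obtain ⟨l, hl⟩ : ∃ l, l = -Real.log (1 - y) := ⟨_, rfl⟩
    rw [← hl]
    have h3 : l ≤ y + 2 * y ^ 2 := by
      have := log_low (x := -y) (by rw [abs_neg, abs_of_pos hy0]; linarith)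
      rw [hl]
      have e5 : 1 + -y = 1 - y := by ring
      rw [e5] at this
      nlinarith
    have h3' : y ≤ l := by
      rw [hl]
      have := Real.log_le_sub_one_of_pos hy2
      linarith
    have h4 : l * (s * μ - δ) ≤ h * μ + δ * y / 8 - δ * y := by
      have h5 : l * (s * μ) ≤ (y + 2 * y ^ 2) * (s * μ) := by gcongr
      have e4 : (y + 2 * y ^ 2) * (s * μ) = (s * y) * μ + 2 * μ * (s * y) * y := by ring
      rw [e4, hys] at h5
      have h6 : y * δ ≤ l * δ := by gcongr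
      nlinarith
    calc (1 + (t - h) * ρ) ^ T * Real.exp (l * ((s * μ - δ) * L))
        ≤ Real.exp (T * ((t - h) * ρ)) * Real.exp (l * ((s * μ - δ) * L)) := by
          gcongr
      _ = Real.exp (T * ((t - h) * ρ) + l * ((s * μ - δ) * L)) :=
          (Real.exp_add _ _).symm
      _ ≤ _ := by
          apply Real.exp_le_exp.2
          have h8 : l * ((s * μ - δ) * L) ≤ (h * μ + δ * y / 8 - δ * y) * L := by
            rw [← mul_assoc]
            gcongr
          have h9 : h * (μ * L - κ * L) ≤ h * (ρ * T) := by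
            gcongr
            linarith
          have h10 : h * κ * L ≤ δ * y / 8 * L := by gcongr
          have h11 : 0 ≤ δ * y * L := by positivity
          nlinarith

/-- the third inequality -/
lemma core3 {t μ δ κ L ρ θ η G e : ℝ} {M : ℕ} {T : ℕ → ℕ} (ht : -1 < t)
    (hμ : 0 ≤ μ) (hδ : 0 < δ) (hL : 0 < L) (hκ0 : 0 ≤ κ)
    (hρ0 : 0 ≤ ρ) (hx : ∀ i < M, |ρ * T i - μ * L| ≤ κ * L) (htρ : |t * ρ| ≤ 1 / 2)
    (he : ∀ i < M, 2 * (t * ρ) ^ 2 * T i ≤ e * L) (hθ : 0 < θ)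
    (hG : G = 1 - (μ * ((1 + t) * Real.log (1 + t) - t) + δ * |Real.log (1 + t)|))
    (hη : η + |t| * κ ≤ G / 2) (heG : e ≤ G / 4) (hlog : -Real.log θ ≤ G / 4 * L)
    (hM : Real.exp ((1 - η) * L) ≤ M) :
    max ((1 + t) ^ (((1 + t) * μ - δ) * L)) ((1 + t) ^ (((1 + t) * μ + δ) * L)) ≤
      θ * ∑ i ∈ Finset.range M, (1 + t * ρ) ^ T i := by
  have hs0 : 0 < 1 + t := by linarith
  obtain ⟨l, hl⟩ : ∃ l, l = Real.log (1 + t) := ⟨_, rfl⟩
  rw [← hl] at hG
  have h1 : ∀ i ∈ Finset.range M, Real.exp ((t * μ - |t| * κ - e) * L) ≤ (1 + t * ρ) ^ T i := by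
    intro i hi
    have hi := Finset.mem_range.1 hi
    refine le_trans (Real.exp_le_exp.2 ?_) (pow_low (T i) htρ)
    have h2 : t * (μ * L) - |t| * (κ * L) ≤ t * (ρ * T i) := by
      have h3 : |t * (ρ * T i - μ * L)| ≤ |t| * (κ * L) := by
        rw [abs_mul]
        exact mul_le_mul_of_nonneg_left (hx i hi) (abs_nonneg _)
      have := (abs_le.1 h3).1
      linarith
    have h4 := he i hi
    nlinarith
  have h5 : Real.exp ((1 - η) * L) * Real.exp ((t * μ - |t| * κ - e) * L) ≤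
      ∑ i ∈ Finset.range M, (1 + t * ρ) ^ T i := by
    calc Real.exp ((1 - η) * L) * Real.exp ((t * μ - |t| * κ - e) * L)
        ≤ M * Real.exp ((t * μ - |t| * κ - e) * L) := by gcongr
      _ = ∑ i ∈ Finset.range M, Real.exp ((t * μ - |t| * κ - e) * L) := by
          rw [Finset.sum_const, Finset.card_range, nsmul_eq_mul]
      _ ≤ _ := Finset.sum_le_sum h1
  have h6 : ∀ a : ℝ, |a| ≤ δ → (1 + t) ^ (((1 + t) * μ + a) * L) ≤
      θ * ∑ i ∈ Finset.range M, (1 + t * ρ) ^ T i := by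
    intro a ha
    calc (1 + t) ^ (((1 + t) * μ + a) * L) = Real.exp (l * (((1 + t) * μ + a) * L)) := by
          rw [Real.rpow_def_of_pos hs0, hl]
      _ ≤ Real.exp (Real.log θ + ((1 - η) * L + (t * μ - |t| * κ - e) * L)) := by
          apply Real.exp_le_exp.2
          have h7 : l * a ≤ δ * |l| := by
            calc l * a ≤ |l * a| := le_abs_self _
              _ = |l| * |a| := abs_mul _ _
              _ ≤ |l| * δ := by gcongr
              _ = _ := mul_comm _ _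
          have h8 : l * a * L ≤ δ * |l| * L := by gcongr
          have h9 : (η + |t| * κ) * L ≤ G / 2 * L := by gcongr
          have h10 : e * L ≤ G / 4 * L := by gcongr
          have h11 : G * L = (1 - (μ * ((1 + t) * l - t) + δ * |l|)) * L := by rw [hG]
          nlinarith
      _ = θ * (Real.exp ((1 - η) * L) * Real.exp ((t * μ - |t| * κ - e) * L)) := by
          rw [Real.exp_add, Real.exp_log hθ, Real.exp_add]
      _ ≤ _ := by gcongr
  refine max_le ?_ ?_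
  · have := h6 (-δ) (by rw [abs_neg, abs_of_pos hδ])
    rwa [← sub_eq_add_neg] at this
  · exact h6 δ (by rw [abs_of_pos hδ])

lemma abc {a b c σ C η : ℝ} (hσ : 0 ≤ σ) (hC : 0 < C) (hη : 0 < η) (hη1 : η ≤ 1 / 2)
    (ha : |a - σ| ≤ η) (hb : |b - C| ≤ η) (hc : |c - 1| ≤ η) :
    |a * b / c - C * σ| ≤ 2 * (σ + C + 1 + C * σ) * η := by
  have hc0 : 1 / 2 ≤ c := by linarith [(abs_le.1 hc).1]
  have hcp : 0 < c := by linarith
  have h1 : a * b / c - C * σ = ((a - σ) * b + σ * (b - C) - C * σ * (c - 1)) / c := by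
    field_simp
    ring
  have hb2 : |b| ≤ C + 1 := by
    have h2 := abs_le.1 hb
    rw [abs_le]
    constructor <;> linarith [h2.1, h2.2]
  rw [h1, abs_div, abs_of_pos hcp, div_le_iff₀ hcp]
  calc |(a - σ) * b + σ * (b - C) - C * σ * (c - 1)|
      ≤ |(a - σ) * b + σ * (b - C)| + |C * σ * (c - 1)| := abs_sub _ _
    _ ≤ |(a - σ) * b| + |σ * (b - C)| + |C * σ * (c - 1)| := by
        gcongr
        exact abs_add_le _ _
    _ = |a - σ| * |b| + σ * |b - C| + C * σ * |c - 1| := by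
        rw [abs_mul, abs_mul, abs_mul (C * σ), abs_of_nonneg hσ,
          abs_of_nonneg (by positivity : 0 ≤ C * σ)]
    _ ≤ η * (C + 1) + σ * η + C * σ * η := by gcongr
    _ = 2 * (σ + C + 1 + C * σ) * η * (1 / 2) := by ring
    _ ≤ 2 * (σ + C + 1 + C * σ) * η * c := by gcongr

/-- `MM q` is small compared with `log X` -/
lemma small (hM : S_MERT) {r : ℝ} (hr : 0 < r) :
    ∀ᶠ L : ℝ in atTop, ∀ q : ℕ, (q : ℝ) ≤ L ^ 7 → 2 * MM q ≤ r * L := by
  obtain ⟨c, hc⟩ : ∃ c, c = Real.exp Real.eulerMascheroniConstant := ⟨_, rfl⟩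
  have hc0 : 0 < c := by rw [hc]; positivity
  have h1 : ∀ᶠ N : ℕ in atTop, MM N / Real.log N < c + 1 := by
    have := hM
    rw [S_MERT, ← hc] at this
    exact this.eventually_lt_const (by linarith)
  have h2 : ∀ᶠ N : ℕ in atTop, MM N ≤ (c + 1) * Real.log N := by
    filter_upwards [h1, eventually_ge_atTop 3] with N hN hN3
    have : 0 < Real.log N := Real.log_pos (by exact_mod_cast (by omega : 1 < N))
    rw [div_lt_iff₀ this] at hN
    exact hN.le
  have h3 : Tendsto (fun L : ℝ => ⌊L ^ 7⌋₊) atTop atTop :=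
    tendsto_nat_floor_atTop.comp (tendsto_pow_atTop (by norm_num))
  have h4 : ∀ᶠ L : ℝ in atTop, 14 * (c + 1) * Real.log L ≤ r * L := by
    have h5 := Real.isLittleO_log_id_atTop.bound (c := r / (14 * (c + 1))) (by positivity)
    filter_upwards [h5, eventually_ge_atTop (1 : ℝ)] with L hL hL1
    rw [Real.norm_eq_abs, id, Real.norm_eq_abs, abs_of_nonneg (Real.log_nonneg hL1),
      abs_of_nonneg (by linarith)] at hL
    calc 14 * (c + 1) * Real.log L ≤ 14 * (c + 1) * (r / (14 * (c + 1)) * L) := by gcongr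
      _ = r * L := by field_simp
  filter_upwards [h3.eventually h2, h4, eventually_ge_atTop (2 : ℝ)] with L hL h5 hL2 q hq
  have h6 : q ≤ ⌊L ^ 7⌋₊ := Nat.le_floor hq
  have h7 : Real.log (⌊L ^ 7⌋₊ : ℕ) ≤ 7 * Real.log L := by
    have h8 : ((⌊L ^ 7⌋₊ : ℕ) : ℝ) ≤ L ^ 7 := Nat.floor_le (by positivity)
    have h9 : 1 ≤ ⌊L ^ 7⌋₊ := by
      apply Nat.le_floor
      rw [Nat.cast_one]
      exact one_le_pow₀ (by linarith)
    have h10 : (0 : ℝ) < (⌊L ^ 7⌋₊ : ℕ) := by exact_mod_cast h9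
    calc Real.log (⌊L ^ 7⌋₊ : ℕ) ≤ Real.log (L ^ 7) := Real.log_le_log h10 h8
      _ = 7 * Real.log L := by rw [Real.log_pow]; norm_num
  have h11 := MM_mono h6
  calc 2 * MM q ≤ 2 * ((c + 1) * Real.log (⌊L ^ 7⌋₊ : ℕ)) := by linarith
    _ ≤ 2 * ((c + 1) * (7 * Real.log L)) := by gcongr
    _ = 14 * (c + 1) * Real.log L := by ring
    _ ≤ r * L := h5

end NUM

open NUM in
theorem num : S_MERT → S_NUM := by
  intro hM C t δ σ hC ht hδ hσ hlt
  obtain ⟨μ, hμ⟩ : ∃ μ, μ = C * σ := ⟨_, rfl⟩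
  have hμ0 : 0 ≤ μ := by rw [hμ]; positivity
  rw [← hμ] at hlt
  obtain ⟨G, hG⟩ : ∃ G, G = 1 - (μ * ((1 + t) * Real.log (1 + t) - t) + δ * |Real.log (1 + t)|) :=
    ⟨_, rfl⟩
  have hG0 : 0 < G := by rw [hG]; linarith
  obtain ⟨C1, hC1⟩ : ∃ C1, C1 = 2 * (σ + C + 1 + C * σ) := ⟨_, rfl⟩
  have hC10 : 0 < C1 := by rw [hC1]; positivity
  have hs0 : 0 < 1 + t := by linarith
  obtain ⟨h, hh⟩ : ∃ h, h = min ((1 + t) / 4) (δ / (16 * (μ + 1))) := ⟨_, rfl⟩
  have hh0 : 0 < h := by rw [hh]; positivity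
  have hh1 : h ≤ (1 + t) / 4 := hh ▸ min_le_left _ _
  have hh2 : 16 * μ * h ≤ δ := by
    have h1 : h ≤ δ / (16 * (μ + 1)) := hh ▸ min_le_right _ _
    rw [le_div_iff₀ (by positivity)] at h1
    nlinarith
  obtain ⟨η, hη⟩ : ∃ η, η = min (min (1 / 2) (C / 2))
    (min (δ / (8 * (1 + t)) / C1) (G / 2 / (1 + |t| * C1))) := ⟨_, rfl⟩
  have hη0 : 0 < η := by rw [hη]; positivity
  have hη1 : η ≤ 1 / 2 := by rw [hη]; exact (min_le_left _ _).trans (min_le_left _ _)
  have hη2 : η ≤ C / 2 := by rw [hη]; exact (min_le_left _ _).trans (min_le_right _ _)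
  have hη3 : C1 * η ≤ δ / (8 * (1 + t)) := by
    have h1 : η ≤ δ / (8 * (1 + t)) / C1 := by
      rw [hη]; exact (min_le_right _ _).trans (min_le_left _ _)
    rw [le_div_iff₀ hC10] at h1
    linarith
  have hη4 : η + |t| * (C1 * η) ≤ G / 2 := by
    have h1 : η ≤ G / 2 / (1 + |t| * C1) := by
      rw [hη]; exact (min_le_right _ _).trans (min_le_right _ _)
    rw [le_div_iff₀ (by positivity)] at h1
    linarith
  obtain ⟨e, he⟩ : ∃ e, e = min (δ * h / (8 * (1 + t))) (G / 4) := ⟨_, rfl⟩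
  have he0 : 0 < e := by rw [he]; positivity
  have he1 : e ≤ δ * h / (8 * (1 + t)) := he ▸ min_le_left _ _
  have he2 : e ≤ G / 4 := he ▸ min_le_right _ _
  obtain ⟨r, hr⟩ : ∃ r, r = min 1 (min (1 / (2 * (|t| + 1))) (e / (2 * (t ^ 2 + 1) * (μ + C1)))) :=
    ⟨_, rfl⟩
  have hr0 : 0 < r := by rw [hr]; positivity
  have hr1 : r ≤ 1 := hr ▸ min_le_left _ _
  have hr2 : |t| * r ≤ 1 / 2 := by
    have h1 : r ≤ 1 / (2 * (|t| + 1)) := by
      rw [hr]; exact (min_le_right _ _).trans (min_le_left _ _)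
    rw [le_div_iff₀ (by positivity)] at h1
    nlinarith
  have hr3 : 2 * t ^ 2 * r * (μ + C1) ≤ e := by
    have h1 : r ≤ e / (2 * (t ^ 2 + 1) * (μ + C1)) := by
      rw [hr]; exact (min_le_right _ _).trans (min_le_right _ _)
    rw [le_div_iff₀ (by positivity)] at h1
    have h2 : 0 ≤ r * (μ + C1) := by positivity
    nlinarith
  refine ⟨η, t - h, t + h, hη0, by linarith, by linarith, by linarith, by linarith, ?_⟩
  intro θ hθ
  have hLog : Tendsto (fun X : ℕ => Real.log X) atTop atTop :=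
    Real.tendsto_log_atTop.comp tendsto_natCast_atTop_atTop
  filter_upwards [hLog.eventually (small hM hr0), hLog.eventually (eventually_ge_atTop (1 : ℝ)),
    hLog.eventually (eventually_ge_atTop (-Real.log θ / e)), eventually_ge_atTop 1]
    with X hsm hL1 hL2 hX1
  intro U q z M T hU hz _ hq hM' hT
  obtain ⟨L, hL⟩ : ∃ L, L = Real.log X := ⟨_, rfl⟩
  rw [← hL] at hsm hL1 hL2 hU hz hq ⊢
  have hL0 : 0 < L := by linarith
  have hlog : -Real.log θ ≤ e * L := by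
    rw [div_le_iff₀ he0] at hL2
    linarith
  have hzp : 0 < MM z := MM_pos z
  have hz2 : L / 2 ≤ MM z := by
    have h1 := (abs_le.1 hz).1
    have h2 : 1 / 2 ≤ MM z / L := by linarith
    rw [le_div_iff₀ hL0] at h2
    linarith
  have hUp : (U : ℝ) ≠ 0 := by
    intro h0
    have h1 := (abs_le.1 hU).1
    rw [h0] at h1
    simp at h1
    linarith
  obtain ⟨ρ, hρ⟩ : ∃ ρ, ρ = MM q / MM z := ⟨_, rfl⟩
  rw [← hρ]
  have hρ0 : 0 ≤ ρ := by
    rw [hρ]
    have := MM_pos q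
    positivity
  have hρr : ρ ≤ r := by
    rw [hρ, div_le_iff₀ hzp]
    have h1 := hsm q hq
    nlinarith
  have hx : ∀ i < M, |ρ * T i - μ * L| ≤ C1 * η * L := by
    intro i hi
    have h1 := abc hσ hC hη0 hη1 (hT i hi) hU hz
    have h2 : ρ * T i - μ * L =
        ((T i : ℝ) * (MM q / U) * ((U : ℝ) / L ^ 2) / (MM z / L) - C * σ) * L := by
      rw [hρ, hμ]
      field_simp
    rw [h2, abs_mul, abs_of_pos hL0, hC1]
    gcongr
  have htρ : |t * ρ| ≤ 1 / 2 := by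
    rw [abs_mul, abs_of_nonneg hρ0]
    calc |t| * ρ ≤ |t| * r := by gcongr
      _ ≤ _ := hr2
  have hee : ∀ i < M, 2 * (t * ρ) ^ 2 * T i ≤ e * L := by
    intro i hi
    have h1 := (abs_le.1 (hx i hi)).2
    have h2 : ρ * T i ≤ (μ + C1) * L := by
      have : C1 * η * L ≤ C1 * 1 * L := by gcongr; linarith
      linarith
    calc 2 * (t * ρ) ^ 2 * T i = 2 * t ^ 2 * ρ * (ρ * T i) := by ring
      _ ≤ 2 * t ^ 2 * r * ((μ + C1) * L) := by gcongr
      _ = (2 * t ^ 2 * r * (μ + C1)) * L := by ring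
      _ ≤ e * L := by gcongr
  rw [← hμ]
  refine ⟨fun i hi => core ht hh0 hh1 hμ0 hδ hh2 hη3 hL0 hρ0 (hρr.trans hr1) (hx i hi) htρ
    ((hee i hi).trans (by gcongr)) hθ (hlog.trans (by gcongr)), ?_⟩
  refine core3 ht hμ0 hδ hL0 (by positivity) hρ0 hx htρ hee hθ hG hη4 he2
    (hlog.trans (by gcongr)) ?_
  have hXp : (0 : ℝ) < X := by exact_mod_cast hX1
  rw [Real.rpow_def_of_pos hXp, ← hL] at hM'
  rwa [mul_comm]

end Pool.Agent.H50.CW
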