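import Pool.Agent.H50.CW.Step31

/-! CW-PAR (helper31). -/

set_option autoImplicit false

open MeasureTheory Filter
open scoped Topology ENNReal

namespace Pool.Agent.H50.CW

open Pool.Agent.H50.BF Pool.Agent.H50.CW.Step31

namespace ParAux

/-- `∑_{v < p ≤ z} prs p / p` -/
noncomputable def ss (n n' U v z : ℕ) : ℝ :=
  ∑ p ∈ (Finset.Ioc v z).filter Nat.Prime, (prs n n' U p : ℝ) / p

lemma ss_self (n n' U z : ℕ) : ss n n' U z z = 0 := by
  unfold ss
  simp

lemma ss_succ_prime (n n' U : ℕ) {v z : ℕ} (hv : (v + 1).Prime) (hvz : v < z) :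
    ss n n' U v z = (prs n n' U (v + 1) : ℝ) / ((v + 1 : ℕ) : ℝ) + ss n n' U (v + 1) z := by
  unfold ss
  have h1 : (Finset.Ioc v z).filter Nat.Prime =
      insert (v + 1) ((Finset.Ioc (v + 1) z).filter Nat.Prime) := by
    ext q
    simp only [Finset.mem_filter, Finset.mem_Ioc, Finset.mem_insert]
    constructor
    · rintro ⟨⟨h1, h2⟩, h3⟩
      by_cases h : q = v + 1
      · exact Or.inl h
      · exact Or.inr ⟨⟨by omega, h2⟩, h3⟩
    · rintro (rfl | ⟨⟨h1, h2⟩, h3⟩)
      · exact ⟨⟨by omega, by omega⟩, hv⟩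
      · exact ⟨⟨by omega, h2⟩, h3⟩
  rw [h1, Finset.sum_insert (by simp)]

lemma ss_succ_not (n n' U : ℕ) {v z : ℕ} (hv : ¬ (v + 1).Prime) :
    ss n n' U (v + 1) z = ss n n' U v z := by
  unfold ss
  congr 1
  ext q
  simp only [Finset.mem_filter, Finset.mem_Ioc]
  constructor
  · rintro ⟨⟨h1, h2⟩, h3⟩
    exact ⟨⟨by omega, h2⟩, h3⟩
  · rintro ⟨⟨h1, h2⟩, h3⟩
    refine ⟨⟨?_, h2⟩, h3⟩
    by_contra h
    obtain rfl : q = v + 1 := by omega
    exact hv h3

end ParAux

open ParAux in
theorem par : S_IND → S_DPI → S_STP → S_WIN → S_DIV → S_PAR := by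
  intro hI _ hS hW hD Ω _ P a H q z U Y t Φ pos pos' ht hq1 hUq hqz hΦ hpos hpos' hΦ0 hpp hpY hK
  obtain ⟨K, hKd⟩ : ∃ K, K = |t| / (1 + t) := ⟨_, rfl⟩
  rw [← hKd] at hK ⊢
  have hK0 : 0 ≤ K := by
    rw [hKd]
    exact div_nonneg (abs_nonneg t) (by linarith)
  have hq0 : (0 : ℝ) < q := by exact_mod_cast hq1
  have hU0 : (0 : ℝ) ≤ U := Nat.cast_nonneg _
  have key : ∀ v, q ≤ v → v ≤ z →
      ∫ ω, Φ (fun p => a p ω) *
        Real.exp (2 * K ^ 2 * ss (pos (fun p => a p ω)) (pos' (fun p => a p ω)) U v z) *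
        (1 + ta t z v) ^ (sv (fun p => a p ω) v (pos (fun p => a p ω)) U +
          sv (fun p => a p ω) v (pos' (fun p => a p ω)) U) ∂P ≤
      ∫ ω, Φ (fun p => a p ω) *
        Real.exp (2 * K ^ 2 * ss (pos (fun p => a p ω)) (pos' (fun p => a p ω)) U q z) *
        (1 + ta t z q) ^ (sv (fun p => a p ω) q (pos (fun p => a p ω)) U +
          sv (fun p => a p ω) q (pos' (fun p => a p ω)) U) ∂P := by
    intro v hv
    induction v, hv using Nat.le_induction with
    | base => intro _; exact le_rfl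
    | succ v hqv ih =>
      intro hvz
      refine le_trans ?_ (ih (by omega))
      by_cases hp : (v + 1).Prime
      · refine step_le hI H hp
          (G := fun r b => Φ b * Real.exp (2 * K ^ 2 * ss (pos b) (pos' b) U (v + 1) z) *
            (1 + ta t z (v + 1)) ^ ((sv b v (pos b) U - cls b v (pos b) U (v + 1) r) +
              (sv b v (pos' b) U - cls b v (pos' b) U (v + 1) r)))
          (F1 := fun b => Φ b * Real.exp (2 * K ^ 2 * ss (pos b) (pos' b) U (v + 1) z) *
            (1 + ta t z (v + 1)) ^ (sv b (v + 1) (pos b) U + sv b (v + 1) (pos' b) U))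
          (F0 := fun b => Φ b * Real.exp (2 * K ^ 2 * ss (pos b) (pos' b) U v z) *
            (1 + ta t z v) ^ (sv b v (pos b) U + sv b v (pos' b) U)) ?_ ?_ ?_ ?_
        · intro r b b' hb
          change Φ b * Real.exp (2 * K ^ 2 * ss (pos b) (pos' b) U (v + 1) z) *
            (1 + ta t z (v + 1)) ^ ((sv b v (pos b) U - cls b v (pos b) U (v + 1) r) +
              (sv b v (pos' b) U - cls b v (pos' b) U (v + 1) r)) =
            Φ b' * Real.exp (2 * K ^ 2 * ss (pos b') (pos' b') U (v + 1) z) *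
            (1 + ta t z (v + 1)) ^ ((sv b' v (pos b') U - cls b' v (pos b') U (v + 1) r) +
              (sv b' v (pos' b') U - cls b' v (pos' b') U (v + 1) r))
          rw [sv_dep hqv hpos U hb, sv_dep hqv hpos' U hb, cls_dep hqv hpos U (v + 1) r hb,
            cls_dep hqv hpos' U (v + 1) r hb, dep_mono hqv hΦ b b' hb, dep_mono hqv hpos b b' hb,
            dep_mono hqv hpos' b b' hb]
        · intro b b' hb
          change Φ b * Real.exp (2 * K ^ 2 * ss (pos b) (pos' b) U v z) *
            (1 + ta t z v) ^ (sv b v (pos b) U + sv b v (pos' b) U) =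
            Φ b' * Real.exp (2 * K ^ 2 * ss (pos b') (pos' b') U v z) *
            (1 + ta t z v) ^ (sv b' v (pos b') U + sv b' v (pos' b') U)
          rw [sv_dep hqv hpos U hb, sv_dep hqv hpos' U hb, dep_mono hqv hΦ b b' hb,
            dep_mono hqv hpos b b' hb, dep_mono hqv hpos' b b' hb]
        · intro b
          have h1 := (hW b (pos b) U (v + 1) hp (by omega)).1
          have h1' := (hW b (pos' b) U (v + 1) hp (by omega)).1
          rw [Nat.add_sub_cancel] at h1 h1'
          change Φ b * Real.exp (2 * K ^ 2 * ss (pos b) (pos' b) U (v + 1) z) *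
            (1 + ta t z (v + 1)) ^ (sv b (v + 1) (pos b) U + sv b (v + 1) (pos' b) U) = _
          rw [h1, h1']
        · intro b
          obtain ⟨-, h2, h3, h3c⟩ := hW b (pos b) U (v + 1) hp (by omega)
          obtain ⟨-, h2', h3', -⟩ := hW b (pos' b) U (v + 1) hp (by omega)
          have h3c := h3c (pos' b) (hpp b)
          rw [Nat.add_sub_cancel] at h2 h3 h2' h3' h3c
          have hX : (sv b v (pos b) U : ℝ) ≤ U := by exact_mod_cast sv_le b v (pos b) U
          have hX' : (sv b v (pos' b) U : ℝ) ≤ U := by exact_mod_cast sv_le b v (pos' b) U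
          have hp0 : (0 : ℝ) < ((v + 1 : ℕ) : ℝ) := by exact_mod_cast Nat.succ_pos v
          have hXp : ((sv b v (pos b) U : ℝ) + sv b v (pos' b) U) / ((v + 1 : ℕ) : ℝ) ≤
              2 * (U : ℝ) / q := by
            have hqv' : (q : ℝ) ≤ ((v + 1 : ℕ) : ℝ) := by
              have : q ≤ v + 1 := by omega
              exact_mod_cast this
            calc ((sv b v (pos b) U : ℝ) + sv b v (pos' b) U) / ((v + 1 : ℕ) : ℝ) ≤
                  2 * (U : ℝ) / ((v + 1 : ℕ) : ℝ) := by
                  apply div_le_div_of_nonneg_right _ hp0.le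
                  linarith
              _ ≤ 2 * (U : ℝ) / q := div_le_div_of_nonneg_left (by positivity) hq0 hqv'
          have hKv := ta_K ht hvz
          rw [← hKd] at hKv
          have hτ0 : 0 ≤ |ta t z (v + 1)| / (1 + ta t z (v + 1)) := by
            have := ta_gt ht hvz
            exact div_nonneg (abs_nonneg _) (by linarith)
          have hy : |ta t z (v + 1)| / (1 + ta t z (v + 1)) *
              (((sv b v (pos b) U : ℝ) + sv b v (pos' b) U) / ((v + 1 : ℕ) : ℝ)) ≤ 1 / 2 :=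
            (mul_le_mul hKv hXp (by positivity) hK0).trans hK
          have h4 := (hS (v + 1) hp.two_le (ta t z (v + 1)) (ta_gt ht hvz) _ _ _ _ h2 h2' h3 h3').2.2 hy
          rw [ta_succ_prime t z hp] at h4
          have h5 : (((v + 1 : ℕ) : ℝ))⁻¹ * ∑ r ∈ Finset.range (v + 1),
              Φ b * Real.exp (2 * K ^ 2 * ss (pos b) (pos' b) U (v + 1) z) *
              (1 + ta t z (v + 1)) ^ ((sv b v (pos b) U - cls b v (pos b) U (v + 1) r) +
              (sv b v (pos' b) U - cls b v (pos' b) U (v + 1) r)) =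
              Φ b * Real.exp (2 * K ^ 2 * ss (pos b) (pos' b) U (v + 1) z) *
              ((((v + 1 : ℕ) : ℝ))⁻¹ * ∑ r ∈ Finset.range (v + 1),
              (1 + ta t z (v + 1)) ^ ((sv b v (pos b) U - cls b v (pos b) U (v + 1) r) +
              (sv b v (pos' b) U - cls b v (pos' b) U (v + 1) r))) := by
            rw [← Finset.mul_sum]
            ring
          rw [h5]
          have h7 : 0 ≤ (1 + ta t z v) ^ (sv b v (pos b) U + sv b v (pos' b) U) := by
            have := ta_gt ht (show v ≤ z by omega)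
            exact pow_nonneg (by linarith) _
          have h6 : Real.exp (2 * (|ta t z (v + 1)| / (1 + ta t z (v + 1))) ^ 2 *
              (((∑ r ∈ Finset.range (v + 1), cls b v (pos b) U (v + 1) r *
                cls b v (pos' b) U (v + 1) r : ℕ) : ℝ) / ((v + 1 : ℕ) : ℝ))) ≤
              Real.exp (2 * K ^ 2 * ((prs (pos b) (pos' b) U (v + 1) : ℝ) / ((v + 1 : ℕ) : ℝ))) := by
            apply Real.exp_le_exp.mpr
            have e1 : (|ta t z (v + 1)| / (1 + ta t z (v + 1))) ^ 2 ≤ K ^ 2 :=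
              pow_le_pow_left₀ hτ0 hKv 2
            have e2 : ((∑ r ∈ Finset.range (v + 1), cls b v (pos b) U (v + 1) r *
                cls b v (pos' b) U (v + 1) r : ℕ) : ℝ) / ((v + 1 : ℕ) : ℝ) ≤
                (prs (pos b) (pos' b) U (v + 1) : ℝ) / ((v + 1 : ℕ) : ℝ) := by
              apply div_le_div_of_nonneg_right _ hp0.le
              exact_mod_cast h3c
            exact mul_le_mul (by linarith) e2 (by positivity) (by positivity)
          have hE : Real.exp (2 * K ^ 2 * ss (pos b) (pos' b) U v z) =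
              Real.exp (2 * K ^ 2 * ss (pos b) (pos' b) U (v + 1) z) *
              Real.exp (2 * K ^ 2 * ((prs (pos b) (pos' b) U (v + 1) : ℝ) / ((v + 1 : ℕ) : ℝ))) := by
            rw [← Real.exp_add, ss_succ_prime _ _ _ hp (by omega)]
            congr 1
            ring
          change _ ≤ Φ b * Real.exp (2 * K ^ 2 * ss (pos b) (pos' b) U v z) *
            (1 + ta t z v) ^ (sv b v (pos b) U + sv b v (pos' b) U)
          rw [hE]
          have hΦE : 0 ≤ Φ b * Real.exp (2 * K ^ 2 * ss (pos b) (pos' b) U (v + 1) z) :=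
            mul_nonneg (hΦ0 b) (Real.exp_pos _).le
          refine (mul_le_mul_of_nonneg_left (h4.trans (mul_le_mul_of_nonneg_right h6 h7)) hΦE).trans
            (le_of_eq ?_)
          ring
      · refine le_of_eq ?_
        simp only [sv_succ_not _ hp, ta_succ_not t z hp, ss_succ_not _ _ _ hp]
  have h := key z hqz le_rfl
  rw [ta_self] at h
  simp only [ss_self, mul_zero, Real.exp_zero, mul_one] at h
  refine h.trans ?_
  rw [← integral_const_mul]
  have hmono : ∀ b : ℕ → ℕ, Φ b * Real.exp (2 * K ^ 2 * ss (pos b) (pos' b) U q z) *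
      (1 + ta t z q) ^ (sv b q (pos b) U + sv b q (pos' b) U) ≤
      Real.exp (2 * K ^ 2 * ((U : ℝ) ^ 2 * Nat.log 2 Y / q)) * (Φ b *
      (1 + ta t z q) ^ (sv b q (pos b) U + sv b q (pos' b) U)) := by
    intro b
    have h1 : ss (pos b) (pos' b) U q z ≤ (U : ℝ) ^ 2 * Nat.log 2 Y / q :=
      hD q z U (pos b) (pos' b) Y hq1 (hpp b) (hpY b)
    have h2 : Real.exp (2 * K ^ 2 * ss (pos b) (pos' b) U q z) ≤
        Real.exp (2 * K ^ 2 * ((U : ℝ) ^ 2 * Nat.log 2 Y / q)) := by
      apply Real.exp_le_exp.mpr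
      exact mul_le_mul_of_nonneg_left h1 (by positivity)
    have h3 : 0 ≤ (1 + ta t z q) ^ (sv b q (pos b) U + sv b q (pos' b) U) := by
      have := ta_gt ht hqz
      exact pow_nonneg (by linarith) _
    calc Φ b * Real.exp (2 * K ^ 2 * ss (pos b) (pos' b) U q z) *
        (1 + ta t z q) ^ (sv b q (pos b) U + sv b q (pos' b) U) =
        Real.exp (2 * K ^ 2 * ss (pos b) (pos' b) U q z) *
        (Φ b * (1 + ta t z q) ^ (sv b q (pos b) U + sv b q (pos' b) U)) := by ring
      _ ≤ _ := mul_le_mul_of_nonneg_right h2 (mul_nonneg (hΦ0 b) h3)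
  have hdep1 : Dep q (fun b => Φ b * Real.exp (2 * K ^ 2 * ss (pos b) (pos' b) U q z) *
      (1 + ta t z q) ^ (sv b q (pos b) U + sv b q (pos' b) U)) := by
    intro b b' hb
    change Φ b * Real.exp (2 * K ^ 2 * ss (pos b) (pos' b) U q z) *
      (1 + ta t z q) ^ (sv b q (pos b) U + sv b q (pos' b) U) =
      Φ b' * Real.exp (2 * K ^ 2 * ss (pos b') (pos' b') U q z) *
      (1 + ta t z q) ^ (sv b' q (pos b') U + sv b' q (pos' b') U)
    rw [sv_dep le_rfl hpos U hb, sv_dep le_rfl hpos' U hb, hΦ b b' hb, hpos b b' hb, hpos' b b' hb]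
  have hdep2 : Dep q (fun b => Real.exp (2 * K ^ 2 * ((U : ℝ) ^ 2 * Nat.log 2 Y / q)) * (Φ b *
      (1 + ta t z q) ^ (sv b q (pos b) U + sv b q (pos' b) U))) := by
    intro b b' hb
    change Real.exp (2 * K ^ 2 * ((U : ℝ) ^ 2 * Nat.log 2 Y / q)) * (Φ b *
      (1 + ta t z q) ^ (sv b q (pos b) U + sv b q (pos' b) U)) =
      Real.exp (2 * K ^ 2 * ((U : ℝ) ^ 2 * Nat.log 2 Y / q)) * (Φ b' *
      (1 + ta t z q) ^ (sv b' q (pos b') U + sv b' q (pos' b') U))
    rw [sv_dep le_rfl hpos U hb, sv_dep le_rfl hpos' U hb, hΦ b b' hb]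
  exact integral_mono (integ hI H hdep1) (integ hI H hdep2) fun ω => hmono _

end Pool.Agent.H50.CW
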