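import Pool.Agent.H50.CW.Stm

set_option autoImplicit false

open MeasureTheory Filter
open scoped Topology ENNReal

namespace Pool.Agent.H50.CW

open Pool.Agent.H50.BF

namespace POSaux

open Classical in
/-- the residues modulo the primes `≤ v` -/
noncomputable def red (v : ℕ) (b : ℕ → ℕ) : ℕ → ℕ := fun p => if p.Prime ∧ p ≤ v then b p % p else 0

lemma red_dep (v : ℕ) : Dep v (red v) := by
  intro b b' h
  funext p
  unfold red
  by_cases hp : p.Prime ∧ p ≤ v
  · rw [if_pos hp, if_pos hp, h p hp.1 hp.2]
  · rw [if_neg hp, if_neg hp]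

lemma sv_red (v : ℕ) (b : ℕ → ℕ) (n U : ℕ) : sv (red v b) v n U = sv b v n U := by
  classical
  unfold sv
  congr 1
  refine Finset.filter_congr fun k _ => ?_
  refine forall_congr' fun p => forall_congr' fun hp => forall_congr' fun hpv => ?_
  unfold red
  rw [if_pos ⟨hp, hpv⟩, Nat.mod_mod]

lemma sv_shift (a : ℕ → ℕ) (v n c U : ℕ) : sv a v (n + primorial v * c) U = sv a v n U := by
  classical
  unfold sv
  congr 1
  refine Finset.filter_congr fun k _ => ?_
  refine forall_congr' fun p => forall_congr' fun hp => forall_congr' fun hpv => ?_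
  have hpQ : p ∣ primorial v := by
    rw [primorial]
    exact Finset.dvd_prod_of_mem _ (Finset.mem_filter.2 ⟨Finset.mem_range.2 (by omega), hp⟩)
  obtain ⟨e, he⟩ := hpQ
  rw [he, show n + p * e * c + k + 1 = n + k + 1 + p * (e * c) by ring, Nat.add_mul_mod_self_left]

end POSaux

open POSaux in
theorem pos : S_CRT → S_POS := by
  intro hcrt v m X M U hX hM
  have h := fun b : ℕ → ℕ => hcrt.2 b v m X hX
  choose n0 hn1 hn2 hn3 using h
  have hQ : 0 < primorial v := primorial_pos v
  refine ⟨fun b i => n0 (red v b) + i * (primorial v * (U + 1)), ?_, ?_, ?_, ?_⟩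
  · intro b b' h
    funext i
    show n0 (red v b) + _ = n0 (red v b') + _
    rw [red_dep v b b' h]
  · intro b i j hij
    have h1 : i * (primorial v * (U + 1)) + (primorial v * (U + 1)) ≤ j * (primorial v * (U + 1)) := by
      rw [← Nat.succ_mul]
      exact Nat.mul_le_mul_right _ hij
    have h2 : U + 1 ≤ primorial v * (U + 1) := Nat.le_mul_of_pos_left _ hQ
    show n0 (red v b) + _ + U ≤ n0 (red v b) + _
    omega
  · intro b i hi
    have h1 : i * (primorial v * (U + 1)) ≤ M * (primorial v * (U + 1)) := Nat.mul_le_mul_right _ hi.le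
    have h2 := hn1 (red v b)
    have h3 := hn2 (red v b)
    show X ≤ n0 (red v b) + _ ∧ n0 (red v b) + _ ≤ 3 * X
    omega
  · intro b i U'
    show sv b v (n0 (red v b) + i * (primorial v * (U + 1))) U' = _
    rw [show i * (primorial v * (U + 1)) = primorial v * (i * (U + 1)) by ring, sv_shift, ← sv_red, hn3]

end Pool.Agent.H50.CW
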