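import Pool.Agent.H50.CW.Stm

/-!
# Project CW: the second moment with exponential weights (proof of `S_SEC`)
-/

set_option autoImplicit false

open MeasureTheory Filter
open scoped Topology ENNReal

namespace Pool.Agent.H50.CW

open Pool.Agent.H50.BF

namespace SECp

/-- the state: the event, the survivors of level `q` and of level `z` in the windows -/
abbrev St : Type := Prop × (ℕ → ℕ) × (ℕ → ℕ)

open Classical in
/-- indicator of the event -/
noncomputable def u (s : St) : ℝ := if s.1 then 1 else 0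

/-- weights -/
noncomputable def g (c : ℝ) (s : St) (i : ℕ) : ℝ := c ^ s.2.1 i

/-- total weight -/
noncomputable def G (c : ℝ) (M : ℕ) (s : St) : ℝ := ∑ i ∈ Finset.range M, g c s i

open Classical in
/-- truncated weights -/
noncomputable def f (t κ₁ κ₂ : ℝ) (s : St) (i : ℕ) : ℝ :=
  if κ₁ ≤ (s.2.2 i : ℝ) ∧ (s.2.2 i : ℝ) ≤ κ₂ then (1 + t) ^ s.2.2 i else 0

theorem u_nonneg (s : St) : 0 ≤ u s := by
  unfold u
  split_ifs <;> norm_num

theorem u_le_one (s : St) : u s ≤ 1 := by
  unfold u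
  split_ifs <;> norm_num

theorem MM_pos (N : ℕ) : 0 < MM N := by
  unfold MM
  refine Finset.prod_pos fun p hp => ?_
  have hp2 : 2 ≤ p := (Finset.mem_filter.1 hp).2.two_le
  have : (p : ℝ)⁻¹ ≤ 2⁻¹ := inv_anti₀ (by norm_num) (by exact_mod_cast hp2)
  have h3 : 0 < 1 - (p : ℝ)⁻¹ := by norm_num at this ⊢; linarith
  positivity

theorem MM_mono {M N : ℕ} (h : M ≤ N) : MM M ≤ MM N := by
  unfold MM
  refine Finset.prod_le_prod_of_subset_of_one_le ?_ ?_ ?_
  · intro p hp
    rw [Finset.mem_filter, Finset.mem_Icc] at hp ⊢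
    exact ⟨⟨hp.1.1, hp.1.2.trans h⟩, hp.2⟩
  · intro p hp
    have hp2 : 2 ≤ p := (Finset.mem_filter.1 hp).2.two_le
    have : (p : ℝ)⁻¹ ≤ 2⁻¹ := inv_anti₀ (by norm_num) (by exact_mod_cast hp2)
    have h3 : 0 < 1 - (p : ℝ)⁻¹ := by norm_num at this ⊢; linarith
    positivity
  · intro p hp _
    have hp2 : 2 ≤ p := (Finset.mem_filter.1 hp).2.two_le
    have h1 : (p : ℝ)⁻¹ ≤ 2⁻¹ := inv_anti₀ (by norm_num) (by exact_mod_cast hp2)
    have h2 : 0 < (p : ℝ)⁻¹ := by
      have : (0 : ℝ) < p := by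
        have : 0 < p := by omega
        exact_mod_cast this
      positivity
    rw [one_le_inv₀ (by norm_num at h1 ⊢; linarith)]
    linarith

theorem sv_congr {b b' : ℕ → ℕ} {z : ℕ} (h : ∀ p : ℕ, p.Prime → p ≤ z → b p % p = b' p % p)
    (n U : ℕ) : sv b z n U = sv b' z n U := by
  unfold sv
  congr 1
  ext k
  simp only [Finset.mem_filter, Finset.mem_range]
  refine and_congr_right fun _ => forall_congr' fun p => forall_congr' fun hp =>
    forall_congr' fun hpz => ?_
  rw [h p hp hpz]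

theorem prob {Ω : Type} [MeasurableSpace Ω] {P : Measure Ω} {a : ℕ → Ω → ℕ} (hM : Model P a) :
    IsProbabilityMeasure P := by
  have h := hM.law 0 (fun _ => 0) (fun p hp => hp.pos)
  have h1 : {ω | ∀ p : ℕ, p.Prime → p ≤ 0 → a p ω % p = 0} = Set.univ := by
    ext ω
    simp only [Set.mem_univ, iff_true]
    intro p hp h0
    exact absurd hp.pos (by omega)
  rw [h1] at h
  have h2 : (Finset.Icc 1 0).filter Nat.Prime = ∅ := by
    rw [Finset.Icc_eq_empty (by norm_num), Finset.filter_empty]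
  rw [h2, Finset.prod_empty, ENNReal.ofReal_one] at h
  exact ⟨h⟩

theorem pos_aux {t ρ : ℝ} (ht : -1 < t) (h0 : 0 < ρ) (h1 : ρ ≤ 1) : 0 < 1 + t * ρ := by
  rcases le_or_gt 0 t with h | h
  · positivity
  · nlinarith

end SECp

open SECp

theorem sec (hDPI : S_DPI) (hUPB : S_UPB) (hLOB : S_LOB) (hPAR : S_PAR) : S_SEC := by
  classical
  intro Ω _ P a hM q z U M Y t t₁ t₂ κ₁ κ₂ θ F pos ht₁ h₁ h₂ hq hUq hqz hθ hF hpos hsep hY hsm
    hbd hmx
  have hPp : IsProbabilityMeasure P := prob hM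
  have ht : -1 < t := ht₁.trans h₁
  have ht₂ : -1 < t₂ := ht.trans h₂
  have hρ0 : 0 < MM q / MM z := div_pos (MM_pos q) (MM_pos z)
  have hρ1 : MM q / MM z ≤ 1 := (div_le_one (MM_pos z)).2 (MM_mono hqz)
  set ρ : ℝ := MM q / MM z with hρ
  set c : ℝ := 1 + t * ρ with hc
  have hc0 : 0 < c := pos_aux ht hρ0 hρ1
  have hc1 : 0 < 1 + t₁ * ρ := pos_aux ht₁ hρ0 hρ1
  have hc2 : 0 < 1 + t₂ * ρ := pos_aux ht₂ hρ0 hρ1
  -- the state
  let S : (ℕ → ℕ) → St := fun b =>
    (F b, (fun i => sv b q (pos b i) U), fun i => sv b z (pos b i) U)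
  let Sq : (ℕ → ℕ) → Prop × (ℕ → ℕ) := fun b => (F b, fun i => sv b q (pos b i) U)
  have hSq : Dep q Sq := by
    intro b b' h
    have e1 := hF b b' h
    have e2 := hpos b b' h
    simp only [Sq, e1, e2, sv_congr h]
  have hS : Dep z S := by
    intro b b' h
    have h' : ∀ p : ℕ, p.Prime → p ≤ q → b p % p = b' p % p := fun p hp hpq =>
      h p hp (hpq.trans hqz)
    have e1 := hF b b' h'
    have e2 := hpos b b' h'
    simp only [S, e1, e2, sv_congr h, sv_congr h']
  have int : ∀ K : St → ℝ, Integrable (fun ω => K (S (fun p => a p ω))) P := fun K =>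
    hDPI Ω P a hM z (fun b => K (S b)) (fun b b' h => congrArg K (hS b b' h))
  obtain ⟨J, hJ⟩ : ∃ J : (St → ℝ) → ℝ, ∀ K, J K = ∫ ω, K (S (fun p => a p ω)) ∂P :=
    ⟨_, fun _ => rfl⟩
  have Jadd : ∀ K K' : St → ℝ, J (fun s => K s + K' s) = J K + J K' := fun K K' => by
    rw [hJ, hJ, hJ]
    exact integral_add (int K) (int K')
  have Jsub : ∀ K K' : St → ℝ, J (fun s => K s - K' s) = J K - J K' := fun K K' => by
    rw [hJ, hJ, hJ]
    exact integral_sub (int K) (int K')
  have Jmul : ∀ (r : ℝ) (K : St → ℝ), J (fun s => r * K s) = r * J K := fun r K => by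
    rw [hJ, hJ]
    exact integral_const_mul r _
  have Jsum : ∀ (A : Finset ℕ) (K : ℕ → St → ℝ), J (fun s => ∑ i ∈ A, K i s) =
      ∑ i ∈ A, J (K i) := fun A K => by
    rw [hJ, Finset.sum_congr rfl fun i _ => hJ (K i)]
    exact integral_finsetSum A (fun i _ => int (K i))
  have Jmono : ∀ K K' : St → ℝ, (∀ b, K (S b) ≤ K' (S b)) → J K ≤ J K' := fun K K' h => by
    rw [hJ, hJ]
    exact integral_mono (int K) (int K') (fun ω => h _)
  have Jcongr : ∀ K K' : St → ℝ, (∀ b, K (S b) = K' (S b)) → J K = J K' := fun K K' h =>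
    le_antisymm (Jmono _ _ fun b => (h b).le) (Jmono _ _ fun b => (h b).ge)
  -- positivity
  have hgpos : ∀ s i, 0 < g c s i := fun s i => pow_pos hc0 _
  have hG0 : ∀ s, 0 ≤ G c M s := fun s => Finset.sum_nonneg fun i _ => (hgpos s i).le
  have hGF : ∀ b, F b → 0 < G c M (S b) := by
    intro b hb
    have h := hmx b hb
    have hp : 0 < max ((1 + t) ^ κ₁) ((1 + t) ^ κ₂) :=
      lt_max_of_lt_left (Real.rpow_pos_of_pos (by linarith) _)
    have h' : 0 < θ * G c M (S b) := lt_of_lt_of_le hp h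
    by_contra hn
    have h0 : G c M (S b) = 0 := le_antisymm (not_lt.1 hn) (hG0 _)
    rw [h0, mul_zero] at h'
    exact lt_irrefl _ h'
  set Mx : ℝ := max ((1 + t) ^ κ₁) ((1 + t) ^ κ₂) with hMx
  set e1 : ℝ := Real.exp (-((|t| / (1 + t)) ^ 2 * ((U : ℝ) ^ 2 / q))) with he1
  set e2 : ℝ := Real.exp (2 * (|t| / (1 + t)) ^ 2 * ((U : ℝ) ^ 2 * Nat.log 2 Y / q)) with he2
  -- weights depending on the residues up to `q`
  let Φ1 : (ℕ → ℕ) → ℝ := fun b => u (S b) / G c M (S b)
  let Φ2 : (ℕ → ℕ) → ℝ := fun b => u (S b) / G c M (S b) ^ 2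
  have hΦ1 : Dep q Φ1 := by
    intro b b' h
    have e := hSq b b' h
    have e1 : F b = F b' := congrArg Prod.fst e
    have e2 : (fun i => sv b q (pos b i) U) = fun i => sv b' q (pos b' i) U := congrArg Prod.snd e
    simp only [Φ1, S, u, G, g, e1]
    have e3 : ∀ i, sv b q (pos b i) U = sv b' q (pos b' i) U := fun i => congrFun e2 i
    simp only [e3]
  have hΦ2 : Dep q Φ2 := by
    intro b b' h
    have e := hSq b b' h
    have e1 : F b = F b' := congrArg Prod.fst e
    have e2 : (fun i => sv b q (pos b i) U) = fun i => sv b' q (pos b' i) U := congrArg Prod.snd e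
    simp only [Φ2, S, u, G, g, e1]
    have e3 : ∀ i, sv b q (pos b i) U = sv b' q (pos b' i) U := fun i => congrFun e2 i
    simp only [e3]
  have hΦ1n : ∀ b, 0 ≤ Φ1 b := fun b => div_nonneg (u_nonneg _) (hG0 _)
  have hΦ2n : ∀ b, 0 ≤ Φ2 b := fun b => div_nonneg (u_nonneg _) (sq_nonneg _)
  have hposi : ∀ i, Dep q (fun b => pos b i) := fun i b b' h => congrFun (hpos b b' h) i
  -- (i)
  have hK : |t| / (1 + t) * ((U : ℝ) / q) ≤ 1 / 2 := by
    refine le_trans ?_ hsm
    have h0 : 0 ≤ |t| / (1 + t) := div_nonneg (abs_nonneg _) (by linarith)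
    refine mul_le_mul_of_nonneg_left ?_ h0
    rw [mul_div_assoc]
    have : 0 ≤ (U : ℝ) / q := by positivity
    linarith
  have key1 : ∀ i < M, (e1 - 2 * θ) * J (fun s => u s / G c M s * g c s i) ≤
      J (fun s => u s / G c M s * f t κ₁ κ₂ s i) := by
    intro i hi
    have hl := hLOB Ω P a hM q z U t Φ1 (fun b => pos b i) ht hq hUq hqz hΦ1 (hposi i) hΦ1n hK
    have hl' : e1 * J (fun s => u s / G c M s * g c s i) ≤
        J (fun s => u s / G c M s * (1 + t) ^ s.2.2 i) := by
      rw [hJ, hJ]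
      exact hl
    have hu2 := hUPB Ω P a hM q z U t₂ Φ1 (fun b => pos b i) ht₂ hUq hqz hΦ1 (hposi i) hΦ1n
    have hu2' : J (fun s => u s / G c M s * (1 + t₂) ^ s.2.2 i) ≤
        J (fun s => u s / G c M s * (1 + t₂ * ρ) ^ s.2.1 i) := by
      rw [hJ, hJ]
      exact hu2
    have hu1 := hUPB Ω P a hM q z U t₁ Φ1 (fun b => pos b i) ht₁ hUq hqz hΦ1 (hposi i) hΦ1n
    have hu1' : J (fun s => u s / G c M s * (1 + t₁) ^ s.2.2 i) ≤
        J (fun s => u s / G c M s * (1 + t₁ * ρ) ^ s.2.1 i) := by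
      rw [hJ, hJ]
      exact hu1
    set d2 : ℝ := ((1 + t) / (1 + t₂)) ^ κ₂ with hd2
    set d1 : ℝ := ((1 + t) / (1 + t₁)) ^ κ₁ with hd1
    have hd2p : 0 < d2 := Real.rpow_pos_of_pos (div_pos (by linarith) (by linarith)) _
    have hd1p : 0 < d1 := Real.rpow_pos_of_pos (div_pos (by linarith) (by linarith)) _
    -- pointwise bounds on the event
    have hb2 : d2 * J (fun s => u s / G c M s * (1 + t₂ * ρ) ^ s.2.1 i) ≤
        θ * J (fun s => u s / G c M s * g c s i) := by
      rw [← Jmul, ← Jmul]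
      refine Jmono _ _ fun b => ?_
      by_cases hb : F b
      · have h := (hbd b hb i hi).1
        have h' : (1 + t₂ * ρ) ^ (S b).2.1 i * d2 ≤ θ * g c (S b) i := h
        have hp := hΦ1n b
        have hp' : 0 ≤ u (S b) / G c M (S b) := hp
        calc d2 * (u (S b) / G c M (S b) * (1 + t₂ * ρ) ^ (S b).2.1 i)
            = u (S b) / G c M (S b) * ((1 + t₂ * ρ) ^ (S b).2.1 i * d2) := by ring
          _ ≤ u (S b) / G c M (S b) * (θ * g c (S b) i) := mul_le_mul_of_nonneg_left h' hp'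
          _ = _ := by ring
      · have h0 : u (S b) = 0 := by
          unfold u
          rw [if_neg]
          exact hb
        rw [h0]
        simp
    have hb1 : d1 * J (fun s => u s / G c M s * (1 + t₁ * ρ) ^ s.2.1 i) ≤
        θ * J (fun s => u s / G c M s * g c s i) := by
      rw [← Jmul, ← Jmul]
      refine Jmono _ _ fun b => ?_
      by_cases hb : F b
      · have h := (hbd b hb i hi).2
        have h' : (1 + t₁ * ρ) ^ (S b).2.1 i * d1 ≤ θ * g c (S b) i := h
        have hp := hΦ1n b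
        have hp' : 0 ≤ u (S b) / G c M (S b) := hp
        calc d1 * (u (S b) / G c M (S b) * (1 + t₁ * ρ) ^ (S b).2.1 i)
            = u (S b) / G c M (S b) * ((1 + t₁ * ρ) ^ (S b).2.1 i * d1) := by ring
          _ ≤ u (S b) / G c M (S b) * (θ * g c (S b) i) := mul_le_mul_of_nonneg_left h' hp'
          _ = _ := by ring
      · have h0 : u (S b) = 0 := by
          unfold u
          rw [if_neg]
          exact hb
        rw [h0]
        simp
    -- truncation
    have htr : ∀ s : St, (1 + t) ^ s.2.2 i - d2 * (1 + t₂) ^ s.2.2 i - d1 * (1 + t₁) ^ s.2.2 i ≤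
        f t κ₁ κ₂ s i := by
      intro s
      unfold f
      have hp1 : 0 < (1 + t₂) ^ s.2.2 i := pow_pos (by linarith) _
      have hp2 : 0 < (1 + t₁) ^ s.2.2 i := pow_pos (by linarith) _
      have hm2 := mul_pos hd2p hp1
      have hm1 := mul_pos hd1p hp2
      split_ifs with h
      · linarith
      · rw [not_and_or, not_le, not_le] at h
        rcases h with h | h
        · -- `N < κ₁`
          have e : (1 + t) ^ s.2.2 i ≤ d1 * (1 + t₁) ^ s.2.2 i := by
            have hbase : 1 ≤ (1 + t) / (1 + t₁) := by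
              rw [one_le_div (by linarith)]
              linarith
            have h3 : ((1 + t) / (1 + t₁)) ^ (s.2.2 i : ℝ) ≤ d1 :=
              Real.rpow_le_rpow_of_exponent_le hbase h.le
            rw [Real.rpow_natCast, div_pow, div_le_iff₀ hp2] at h3
            exact h3
          linarith
        · have e : (1 + t) ^ s.2.2 i ≤ d2 * (1 + t₂) ^ s.2.2 i := by
            have hbase : (1 + t) / (1 + t₂) ≤ 1 := by
              rw [div_le_one (by linarith)]
              linarith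
            have h3 : ((1 + t) / (1 + t₂)) ^ (s.2.2 i : ℝ) ≤ d2 :=
              Real.rpow_le_rpow_of_exponent_ge (div_pos (by linarith) (by linarith)) hbase h.le
            rw [Real.rpow_natCast, div_pow, div_le_iff₀ hp1] at h3
            exact h3
          linarith
    have h5 : J (fun s => u s / G c M s * (1 + t) ^ s.2.2 i) -
        d2 * J (fun s => u s / G c M s * (1 + t₂) ^ s.2.2 i) -
        d1 * J (fun s => u s / G c M s * (1 + t₁) ^ s.2.2 i) ≤
        J (fun s => u s / G c M s * f t κ₁ κ₂ s i) := by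
      rw [← Jmul, ← Jmul, ← Jsub, ← Jsub]
      refine Jmono _ _ fun b => ?_
      have h := mul_le_mul_of_nonneg_left (htr (S b)) (hΦ1n b)
      have h' : u (S b) / G c M (S b) * ((1 + t) ^ (S b).2.2 i - d2 * (1 + t₂) ^ (S b).2.2 i -
        d1 * (1 + t₁) ^ (S b).2.2 i) ≤ u (S b) / G c M (S b) * f t κ₁ κ₂ (S b) i := h
      refine le_trans (le_of_eq ?_) h'
      ring
    have h6 := mul_le_mul_of_nonneg_left hu2' hd2p.le
    have h7 := mul_le_mul_of_nonneg_left hu1' hd1p.le
    linarith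
  have hsum1 : ∑ i ∈ Finset.range M, J (fun s => u s / G c M s * g c s i) = J u := by
    rw [← Jsum]
    refine Jcongr _ _ fun b => ?_
    rw [← Finset.mul_sum]
    by_cases hb : F b
    · have hG := (hGF b hb).ne'
      have : ∑ i ∈ Finset.range M, g c (S b) i = G c M (S b) := rfl
      rw [this]
      field_simp
    · have h0 : u (S b) = 0 := by
        unfold u
        rw [if_neg]
        exact hb
      rw [h0]
      simp
  -- (ii)
  have key2 : ∀ i j, i < j → j < M →
      J (fun s => u s / G c M s ^ 2 * (f t κ₁ κ₂ s i * f t κ₁ κ₂ s j)) ≤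
        e2 * J (fun s => u s / G c M s ^ 2 * (g c s i * g c s j)) := by
    intro i j hij hj
    have hp := hPAR Ω P a hM q z U Y t Φ2 (fun b => pos b i) (fun b => pos b j) ht hq hUq hqz hΦ2
      (hposi i) (hposi j) hΦ2n (fun b => hsep b i j hij hj) (fun b => hY b j hj) hsm
    have hp' : J (fun s => u s / G c M s ^ 2 * (1 + t) ^ (s.2.2 i + s.2.2 j)) ≤
        e2 * J (fun s => u s / G c M s ^ 2 * c ^ (s.2.1 i + s.2.1 j)) := by
      rw [hJ, hJ]
      exact hp
    have h3 : J (fun s => u s / G c M s ^ 2 * (f t κ₁ κ₂ s i * f t κ₁ κ₂ s j)) ≤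
        J (fun s => u s / G c M s ^ 2 * (1 + t) ^ (s.2.2 i + s.2.2 j)) := by
      refine Jmono _ _ fun b => ?_
      refine mul_le_mul_of_nonneg_left ?_ (hΦ2n b)
      rw [pow_add]
      have hfi : ∀ k, 0 ≤ f t κ₁ κ₂ (S b) k ∧ f t κ₁ κ₂ (S b) k ≤ (1 + t) ^ (S b).2.2 k := by
        intro k
        have hp1 : 0 < (1 + t) ^ (S b).2.2 k := pow_pos (by linarith) _
        unfold f
        split_ifs
        · exact ⟨hp1.le, le_rfl⟩
        · exact ⟨le_rfl, hp1.le⟩
      exact mul_le_mul (hfi i).2 (hfi j).2 (hfi j).1 (pow_pos (by linarith) _).le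
    have h4 : J (fun s => u s / G c M s ^ 2 * c ^ (s.2.1 i + s.2.1 j)) =
        J (fun s => u s / G c M s ^ 2 * (g c s i * g c s j)) := by
      refine Jcongr _ _ fun b => ?_
      unfold g
      rw [pow_add]
    rw [h4] at hp'
    exact h3.trans hp'
  -- (iii)
  have key3 : ∀ i, J (fun s => u s / G c M s ^ 2 * (f t κ₁ κ₂ s i * f t κ₁ κ₂ s i)) ≤
      Mx * J (fun s => u s / G c M s ^ 2 * g c s i) := by
    intro i
    have hp := hUPB Ω P a hM q z U t Φ2 (fun b => pos b i) ht hUq hqz hΦ2 (hposi i) hΦ2n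
    have hp' : J (fun s => u s / G c M s ^ 2 * (1 + t) ^ s.2.2 i) ≤
        J (fun s => u s / G c M s ^ 2 * g c s i) := by
      rw [hJ, hJ]
      exact hp
    have hMx0 : 0 < Mx := lt_max_of_lt_left (Real.rpow_pos_of_pos (by linarith) _)
    have h3 : J (fun s => u s / G c M s ^ 2 * (f t κ₁ κ₂ s i * f t κ₁ κ₂ s i)) ≤
        Mx * J (fun s => u s / G c M s ^ 2 * (1 + t) ^ s.2.2 i) := by
      rw [← Jmul]
      refine Jmono _ _ fun b => ?_
      have h4 : f t κ₁ κ₂ (S b) i * f t κ₁ κ₂ (S b) i ≤ Mx * (1 + t) ^ (S b).2.2 i := by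
        have hp1 : 0 < (1 + t) ^ (S b).2.2 i := pow_pos (by linarith) _
        unfold f
        split_ifs with h
        · refine mul_le_mul_of_nonneg_right ?_ hp1.le
          rw [hMx, ← Real.rpow_natCast]
          rcases le_or_gt 0 t with h0 | h0
          · exact le_max_of_le_right (Real.rpow_le_rpow_of_exponent_le (by linarith) h.2)
          · exact le_max_of_le_left
              (Real.rpow_le_rpow_of_exponent_ge (by linarith) (by linarith) h.1)
        · rw [mul_zero]
          positivity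
      have h5 := mul_le_mul_of_nonneg_left h4 (hΦ2n b)
      have h5' : u (S b) / G c M (S b) ^ 2 * (f t κ₁ κ₂ (S b) i * f t κ₁ κ₂ (S b) i) ≤
        u (S b) / G c M (S b) ^ 2 * (Mx * (1 + t) ^ (S b).2.2 i) := h5
      refine h5'.trans (le_of_eq ?_)
      ring
    exact h3.trans (mul_le_mul_of_nonneg_left hp' hMx0.le)
  have hsum3 : ∑ i ∈ Finset.range M, Mx * J (fun s => u s / G c M s ^ 2 * g c s i) ≤ θ * J u := by
    rw [← Finset.mul_sum, ← Jsum, ← Jmul, ← Jmul]
    refine Jmono _ _ fun b => ?_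
    rw [← Finset.mul_sum]
    have hsumG : ∑ i ∈ Finset.range M, g c (S b) i = G c M (S b) := rfl
    rw [hsumG]
    by_cases hb : F b
    · have hG := hGF b hb
      have h := hmx b hb
      have h' : Mx ≤ θ * G c M (S b) := h
      calc Mx * (u (S b) / G c M (S b) ^ 2 * G c M (S b)) = Mx * (u (S b) / G c M (S b)) := by
            field_simp
        _ ≤ θ * G c M (S b) * (u (S b) / G c M (S b)) :=
            mul_le_mul_of_nonneg_right h' (hΦ1n b)
        _ = θ * u (S b) := by field_simp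
    · have h0 : u (S b) = 0 := by
        unfold u
        rw [if_neg]
        exact hb
      rw [h0]
      simp
  have hnn : ∀ i j, 0 ≤ J (fun s => u s / G c M s ^ 2 * (g c s i * g c s j)) := by
    intro i j
    rw [hJ]
    exact integral_nonneg fun ω => mul_nonneg (hΦ2n _) (mul_pos (hgpos _ _) (hgpos _ _)).le
  have hMx0 : 0 < Mx := lt_max_of_lt_left (Real.rpow_pos_of_pos (by linarith) _)
  have hnn2 : ∀ i, 0 ≤ Mx * J (fun s => u s / G c M s ^ 2 * g c s i) := by
    intro i
    rw [hJ]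
    exact mul_nonneg hMx0.le (integral_nonneg fun ω => mul_nonneg (hΦ2n _) (hgpos _ _).le)
  have he2p : 0 < e2 := Real.exp_pos _
  have hall : ∀ i ∈ Finset.range M, ∀ j ∈ Finset.range M,
      J (fun s => u s / G c M s ^ 2 * (f t κ₁ κ₂ s i * f t κ₁ κ₂ s j)) ≤
        e2 * J (fun s => u s / G c M s ^ 2 * (g c s i * g c s j)) +
          (if i = j then Mx * J (fun s => u s / G c M s ^ 2 * g c s i) else 0) := by
    intro i hi j hj
    rw [Finset.mem_range] at hi hj
    rcases lt_trichotomy i j with h | h | h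
    · rw [if_neg h.ne, add_zero]
      exact key2 i j h hj
    · subst h
      rw [if_pos rfl]
      have := key3 i
      have h2 := mul_nonneg he2p.le (hnn i i)
      linarith
    · rw [if_neg h.ne', add_zero]
      have h3 := key2 j i h hi
      have e3 : J (fun s => u s / G c M s ^ 2 * (f t κ₁ κ₂ s i * f t κ₁ κ₂ s j)) =
          J (fun s => u s / G c M s ^ 2 * (f t κ₁ κ₂ s j * f t κ₁ κ₂ s i)) :=
        Jcongr _ _ fun b => by ring
      have e4 : J (fun s => u s / G c M s ^ 2 * (g c s i * g c s j)) =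
          J (fun s => u s / G c M s ^ 2 * (g c s j * g c s i)) :=
        Jcongr _ _ fun b => by ring
      rw [e3, e4]
      exact h3
  have hsum2 : ∑ i ∈ Finset.range M, ∑ j ∈ Finset.range M,
      J (fun s => u s / G c M s ^ 2 * (g c s i * g c s j)) = J u := by
    simp_rw [← Jsum]
    refine Jcongr _ _ fun b => ?_
    have h1 : ∑ i ∈ Finset.range M, ∑ j ∈ Finset.range M,
        u (S b) / G c M (S b) ^ 2 * (g c (S b) i * g c (S b) j) =
        u (S b) / G c M (S b) ^ 2 * (G c M (S b) * G c M (S b)) := by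
      unfold G
      rw [Finset.sum_mul_sum, Finset.mul_sum]
      refine Finset.sum_congr rfl fun i _ => ?_
      rw [Finset.mul_sum]
    rw [h1]
    by_cases hb : F b
    · have hG := (hGF b hb).ne'
      field_simp
    · have h0 : u (S b) = 0 := by
        unfold u
        rw [if_neg]
        exact hb
      rw [h0]
      simp
  have hquad : ∑ i ∈ Finset.range M, ∑ j ∈ Finset.range M,
      J (fun s => u s / G c M s ^ 2 * (f t κ₁ κ₂ s i * f t κ₁ κ₂ s j)) ≤ (e2 + θ) * J u := by
    have h1 := Finset.sum_le_sum fun i hi => Finset.sum_le_sum (hall i hi)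
    refine h1.trans ?_
    simp_rw [Finset.sum_add_distrib, ← Finset.mul_sum]
    rw [hsum2]
    have h2 : ∑ i ∈ Finset.range M, ∑ j ∈ Finset.range M,
        (if i = j then Mx * J (fun s => u s / G c M s ^ 2 * g c s i) else 0) =
        ∑ i ∈ Finset.range M, Mx * J (fun s => u s / G c M s ^ 2 * g c s i) := by
      refine Finset.sum_congr rfl fun i hi => ?_
      rw [Finset.sum_ite_eq, if_pos hi]
    rw [h2]
    linarith
  have hlin : (e1 - 2 * θ) * J u ≤
      ∑ i ∈ Finset.range M, J (fun s => u s / G c M s * f t κ₁ κ₂ s i) := by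
    rw [← hsum1, Finset.mul_sum]
    exact Finset.sum_le_sum fun i hi => key1 i (Finset.mem_range.1 hi)
  -- the second moment
  let Q : St → ℝ := fun s =>
    u s * (1 - (∑ i ∈ Finset.range M, f t κ₁ κ₂ s i) / G c M s) ^ 2
  have hQ : J Q = J u - 2 * ∑ i ∈ Finset.range M, J (fun s => u s / G c M s * f t κ₁ κ₂ s i) +
      ∑ i ∈ Finset.range M, ∑ j ∈ Finset.range M,
        J (fun s => u s / G c M s ^ 2 * (f t κ₁ κ₂ s i * f t κ₁ κ₂ s j)) := by
    simp_rw [← Jsum]
    rw [← Jmul, ← Jsub, ← Jadd]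
    refine Jcongr _ _ fun b => ?_
    have h1 : ∑ i ∈ Finset.range M, ∑ j ∈ Finset.range M,
        u (S b) / G c M (S b) ^ 2 * (f t κ₁ κ₂ (S b) i * f t κ₁ κ₂ (S b) j) =
        u (S b) / G c M (S b) ^ 2 * ((∑ i ∈ Finset.range M, f t κ₁ κ₂ (S b) i) *
          ∑ i ∈ Finset.range M, f t κ₁ κ₂ (S b) i) := by
      rw [Finset.sum_mul_sum, Finset.mul_sum]
      refine Finset.sum_congr rfl fun i _ => ?_
      rw [Finset.mul_sum]
    simp only [Q]
    rw [h1, ← Finset.mul_sum]
    ring
  have hJu0 : 0 ≤ J u := by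
    rw [hJ]
    exact integral_nonneg fun ω => u_nonneg _
  have hJu1 : J u ≤ 1 := by
    have h1 : J u ≤ J (fun _ => 1) := Jmono _ _ fun b => u_le_one _
    have h2 : J (fun _ => 1) = 1 := by
      rw [hJ]
      simp only [integral_const, probReal_univ, smul_eq_mul, mul_one]
    rw [h2] at h1
    exact h1
  have he1le : e1 ≤ 1 := by
    rw [he1, Real.exp_le_one_iff]
    have : 0 ≤ (|t| / (1 + t)) ^ 2 * ((U : ℝ) ^ 2 / q) := by positivity
    linarith
  have he2ge : 1 ≤ e2 := by
    rw [he2, Real.one_le_exp_iff]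
    positivity
  have hfin : J Q ≤ e2 - 1 + 2 * (1 - e1) + 5 * θ := by
    rw [hQ]
    have h1 : J u - 2 * ∑ i ∈ Finset.range M, J (fun s => u s / G c M s * f t κ₁ κ₂ s i) +
      ∑ i ∈ Finset.range M, ∑ j ∈ Finset.range M,
        J (fun s => u s / G c M s ^ 2 * (f t κ₁ κ₂ s i * f t κ₁ κ₂ s j)) ≤
        (e2 - 1 + 2 * (1 - e1) + 5 * θ) * J u := by linarith
    refine h1.trans ?_
    have h2 : 0 ≤ e2 - 1 + 2 * (1 - e1) + 5 * θ := by linarith
    calc (e2 - 1 + 2 * (1 - e1) + 5 * θ) * J u ≤ (e2 - 1 + 2 * (1 - e1) + 5 * θ) * 1 :=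
          mul_le_mul_of_nonneg_left hJu1 h2
      _ = _ := mul_one _
  -- Markov
  have hQ0 : ∀ s, 0 ≤ Q s := fun s => mul_nonneg (u_nonneg s) (sq_nonneg _)
  have hmk := mul_meas_ge_le_integral_of_nonneg (μ := P)
    (f := fun ω => Q (S (fun p => a p ω))) (Filter.Eventually.of_forall fun ω => hQ0 _) (int Q) 1
  rw [one_mul] at hmk
  have hsub : {ω | F (fun p => a p ω) ∧ ∀ i < M,
      ¬ (κ₁ ≤ (sv (fun p => a p ω) z (pos (fun p => a p ω) i) U : ℝ) ∧
        (sv (fun p => a p ω) z (pos (fun p => a p ω) i) U : ℝ) ≤ κ₂)} ⊆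
      {ω | 1 ≤ Q (S (fun p => a p ω))} := by
    rintro ω ⟨hω, hω2⟩
    have h1 : u (S (fun p => a p ω)) = 1 := by
      unfold u
      rw [if_pos]
      exact hω
    have h2 : ∑ i ∈ Finset.range M, f t κ₁ κ₂ (S (fun p => a p ω)) i = 0 := by
      refine Finset.sum_eq_zero fun i hi => ?_
      unfold f
      rw [if_neg]
      exact hω2 i (Finset.mem_range.1 hi)
    show 1 ≤ Q (S (fun p => a p ω))
    simp only [Q]
    rw [h1, h2]
    norm_num
  refine (measure_mono hsub).trans ?_
  rw [← ENNReal.ofReal_toReal (measure_ne_top P _)]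
  rw [hJ] at hfin
  exact ENNReal.ofReal_le_ofReal (hmk.trans hfin)

end Pool.Agent.H50.CW
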