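import Pool.Agent.H50.CW.Stm
import Pool.Agent.H50.BF.SIGA

set_option autoImplicit false

open MeasureTheory Filter
open scoped Topology ENNReal

namespace Pool.Agent.H50.CW

open Pool.Agent.H50.BF

/-- SIG2 -/
theorem sig2 : Pool.Agent.H50.BF.S_SUB → S_SIG2 := by
  rintro ⟨C, hC0, hC⟩
  -- bound for `hi w 2`
  have hhi : ∀ᶠ w : ℕ in atTop, hi w 2 ≤ C := by
    filter_upwards [hC 1 one_pos le_rfl, eventually_ge_atTop 2] with w hw h2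
    have hw1 : (2 : ℝ) ≤ w := by exact_mod_cast h2
    have hA2 : (w : ℝ) ^ (2 : ℝ) = (w : ℝ) ^ 2 := by norm_num
    have hA0 : 0 < (w : ℝ) ^ (2 : ℝ) := by positivity
    have hM := SIGA.MM_pos w
    refine ciSup_le fun t => ?_
    have hfl : (w : ℝ) ^ 2 < ⌊(w : ℝ) ^ (2 : ℝ)⌋₊ + 1 := by
      rw [← hA2]
      exact Nat.lt_floor_add_one _
    have hfl' : (⌊(w : ℝ) ^ (2 : ℝ)⌋₊ : ℝ) ≤ (w : ℝ) ^ (2 : ℝ) := Nat.floor_le hA0.le
    have h4 : (4 : ℝ) ≤ (w : ℝ) ^ 2 := by nlinarith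
    have h5 := (hw (fun _ => 0) w t ⌊(w : ℝ) ^ (2 : ℝ)⌋₊ ⌊(w : ℝ) ^ (2 : ℝ)⌋₊
      (by rw [Real.sqrt_le_left (by linarith)]; nlinarith) (by nlinarith) (by linarith) le_rfl
      (by nlinarith [Nat.cast_nonneg (α := ℝ) ⌊(w : ℝ) ^ (2 : ℝ)⌋₊])).2
    have h6 : (0 : ℝ) < ⌊(w : ℝ) ^ (2 : ℝ)⌋₊ := by linarith
    rw [← mul_div_assoc] at h5
    refine le_trans ?_ h5
    gcongr
  refine ⟨fun ε hε => ?_, C, hhi⟩
  set δ : ℝ := min (1 / 4) (ε / (4 * C)) with hδ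
  have hδ0 : 0 < δ := lt_min (by norm_num) (by positivity)
  have hδ1 : δ ≤ 1 / 4 := min_le_left _ _
  have hδ2 : 4 * δ * C ≤ ε := by
    have : δ ≤ ε / (4 * C) := min_le_right _ _
    rw [le_div_iff₀ (by positivity)] at this
    linarith
  have e1 : ∀ᶠ w : ℕ in atTop, 1 / δ ≤ (w : ℝ) := tendsto_natCast_atTop_atTop.eventually_ge_atTop _
  filter_upwards [hhi, e1, eventually_ge_atTop 1] with w h1 h2 h4
  have hw0 : (0 : ℝ) < w := by exact_mod_cast h4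
  have hw1 : (1 : ℝ) ≤ w := by exact_mod_cast h4
  rw [div_le_iff₀ hδ0] at h2
  have e2 : (w : ℝ) ^ (2 : ℝ) = (w : ℝ) ^ 2 := by norm_num
  have e3 : (w : ℝ) ^ (3 : ℝ) = (w : ℝ) ^ 3 := by norm_num
  obtain ⟨h6, h7⟩ := SIGA.fin w 2 3 C δ h4 hδ0 hδ1 (by norm_num) (by rw [e2]; nlinarith)
    (by rw [e2, e3]; nlinarith [sq_nonneg (w : ℝ), mul_nonneg hδ0.le hw0.le]) h1
  have h8 : 0 ≤ δ * C := by positivity
  exact ⟨by linarith, by linarith⟩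

end Pool.Agent.H50.CW
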