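import Pool.Agent.H50.CW.Stm

/-! CW-STP (helper31): one step of the sieve by a prime larger than the window. -/

set_option autoImplicit false

open MeasureTheory Filter
open scoped Topology ENNReal

namespace Pool.Agent.H50.CW

namespace StpAux

lemma low {y : ℝ} (h : |y| ≤ 1 / 2) : Real.exp (-y - y ^ 2) ≤ 1 - y := by
  obtain ⟨h1, h2⟩ := abs_le.1 h
  rcases le_total 0 y with h0 | h0
  · have e1 : Real.exp (-y - y ^ 2) = (Real.exp (y + y ^ 2))⁻¹ := by
      rw [← Real.exp_neg]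
      congr 1
      ring
    have e2 := Real.quadratic_le_exp_of_nonneg (by positivity : 0 ≤ y + y ^ 2)
    have e3 : 1 ≤ (1 - y) * Real.exp (y + y ^ 2) := by
      have e4 : (1 - y) * (1 + (y + y ^ 2) + (y + y ^ 2) ^ 2 / 2) ≤ (1 - y) * Real.exp (y + y ^ 2) :=
        mul_le_mul_of_nonneg_left e2 (by linarith)
      have e5 : 1 ≤ (1 - y) * (1 + (y + y ^ 2) + (y + y ^ 2) ^ 2 / 2) := by
        have e6 : (1 - y) * (1 + (y + y ^ 2) + (y + y ^ 2) ^ 2 / 2) =
            1 + y ^ 2 / 2 * (1 - y - y ^ 2 - y ^ 3) := by ring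
        rw [e6]
        have e7 : 0 ≤ 1 - y - y ^ 2 - y ^ 3 := by
          have a1 : y ^ 2 ≤ 1 / 4 := by nlinarith
          have a2 : y ^ 3 ≤ 1 / 8 := by
            calc y ^ 3 = y * y ^ 2 := by ring
              _ ≤ 1 / 2 * (1 / 4) := mul_le_mul h2 a1 (by positivity) (by norm_num)
              _ = 1 / 8 := by norm_num
          linarith
        have := mul_nonneg (by positivity : 0 ≤ y ^ 2 / 2) e7
        linarith
      linarith
    rw [e1, inv_le_iff_one_le_mul₀ (Real.exp_pos _)]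
    exact e3
  · obtain ⟨x, hx⟩ : ∃ x, x = -y := ⟨_, rfl⟩
    have hy : y = -x := by linarith
    rw [hy]
    have hx0 : 0 ≤ x := by linarith
    have hx1 : x ≤ 1 / 2 := by linarith
    have e1 : -(-x) - (-x) ^ 2 = x - x ^ 2 := by ring
    rw [e1]
    have e2 : 1 - (x - x ^ 2) ≤ Real.exp (-(x - x ^ 2)) := by
      have := Real.add_one_le_exp (-(x - x ^ 2))
      linarith
    have e3 : Real.exp (x - x ^ 2) * (1 - (x - x ^ 2)) ≤ 1 := by
      calc Real.exp (x - x ^ 2) * (1 - (x - x ^ 2)) ≤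
            Real.exp (x - x ^ 2) * Real.exp (-(x - x ^ 2)) :=
            mul_le_mul_of_nonneg_left e2 (Real.exp_pos _).le
        _ = 1 := by rw [← Real.exp_add]; simp
    have e4 : 0 < 1 - (x - x ^ 2) := by nlinarith
    have e5 : (1 : ℝ) ≤ (1 - -x) * (1 - (x - x ^ 2)) := by
      have : (1 - -x) * (1 - (x - x ^ 2)) = 1 + x ^ 3 := by ring
      rw [this]
      have : 0 ≤ x ^ 3 := by positivity
      linarith
    exact le_of_mul_le_mul_right (e3.trans e5) e4

lemma pow_sub {s β : ℝ} (hs : s * (1 - β) = 1) {N X : ℕ} (hN : N ≤ 1) (hX : N ≤ X) :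
    s ^ (X - N) = s ^ X * (1 - β * N) := by
  interval_cases N
  · simp
  · obtain ⟨X', rfl⟩ : ∃ X', X = X' + 1 := ⟨X - 1, by omega⟩
    rw [Nat.add_sub_cancel, pow_succ]
    push_cast
    rw [mul_one, mul_assoc, hs, mul_one]

lemma le_sum {p X : ℕ} {N : ℕ → ℕ} (h : ∑ r ∈ Finset.range p, N r = X) {r : ℕ} (hr : r < p) :
    N r ≤ X := by
  rw [← h]
  exact Finset.single_le_sum (f := N) (fun i _ => Nat.zero_le _) (Finset.mem_range.2 hr)

end StpAux

open StpAux in
theorem stp : S_STP := by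
  intro p hp τ hτ N N' X Y hN hN' hX hY
  obtain ⟨s, hs⟩ : ∃ s, s = 1 + τ := ⟨_, rfl⟩
  obtain ⟨β, hβ⟩ : ∃ β, β = τ / (1 + τ) := ⟨_, rfl⟩
  have hs0 : 0 < s := by linarith
  have hs0' : 0 < 1 + τ := by linarith
  have hsβ : s * (1 - β) = 1 := by
    rw [hs, hβ]
    field_simp
    ring
  have hp0 : (0 : ℝ) < p := by
    have : 0 < p := by omega
    exact_mod_cast this
  have hp2 : (2 : ℝ) ≤ p := by exact_mod_cast hp
  have hβ1 : β < 1 := by
    rw [hβ, div_lt_one hs0']
    linarith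
  have hβp : β / p ≤ 1 / 2 := by
    rw [div_le_iff₀ hp0]
    linarith
  have habs : |τ| / (1 + τ) = |β| := by rw [hβ, abs_div, abs_of_pos hs0']
  have hb : s * (1 - β / p) = 1 + τ * (1 - (p : ℝ)⁻¹) := by
    rw [hs, hβ]
    field_simp
    ring
  have hbern : ∀ n : ℕ, 1 - β * n / p ≤ (1 - β / p) ^ n := by
    intro n
    have h1 := one_add_mul_le_pow (a := -(β / p)) (by linarith) n
    have e1 : 1 + (n : ℝ) * -(β / p) = 1 - β * n / p := by ring
    have e2 : 1 + -(β / (p : ℝ)) = 1 - β / p := by ring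
    rw [e1, e2] at h1
    exact h1
  have hsum : ∑ r ∈ Finset.range p, (N r : ℝ) = X := by exact_mod_cast hX
  have hsum' : ∑ r ∈ Finset.range p, (N' r : ℝ) = Y := by exact_mod_cast hY
  have hmean : (p : ℝ)⁻¹ * ∑ r ∈ Finset.range p, (1 + τ) ^ (X - N r) = s ^ X * (1 - β * X / p) := by
    rw [← hs, Finset.sum_congr rfl fun r hr => pow_sub hsβ (hN r (Finset.mem_range.1 hr))
      (le_sum hX (Finset.mem_range.1 hr)), ← Finset.mul_sum, Finset.sum_sub_distrib,
      ← Finset.mul_sum, hsum, Finset.sum_const, Finset.card_range, nsmul_eq_mul, mul_one]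
    field_simp
  refine ⟨?_, ?_, ?_⟩
  · rw [hmean, ← hb, mul_pow s]
    exact mul_le_mul_of_nonneg_left (hbern X) (by positivity)
  · intro hy
    rw [habs] at hy ⊢
    have hX0 : (0 : ℝ) ≤ X := Nat.cast_nonneg _
    have hyy : |β * X / p| ≤ 1 / 2 := by
      rw [mul_div_assoc, abs_mul, abs_of_nonneg (by positivity : (0 : ℝ) ≤ (X : ℝ) / p)]
      exact hy
    have h1 := low hyy
    have h2 : (1 - β / p) ^ X ≤ Real.exp (-(β * X / p)) := by
      have h3 : 1 - β / p ≤ Real.exp (-(β / p)) := by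
        have := Real.add_one_le_exp (-(β / p))
        linarith
      calc (1 - β / p) ^ X ≤ Real.exp (-(β / p)) ^ X := pow_le_pow_left₀ (by linarith) h3 X
        _ = Real.exp (-(β * X / p)) := by
            rw [← Real.exp_nat_mul]
            congr 1
            ring
    rw [hmean, ← hb, mul_pow s]
    have e1 : (|β| * ((X : ℝ) / p)) ^ 2 = (β * X / p) ^ 2 := by
      rw [mul_pow, sq_abs]
      ring
    rw [e1]
    calc Real.exp (-(β * X / p) ^ 2) * (s ^ X * (1 - β / p) ^ X) =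
          s ^ X * (Real.exp (-(β * X / p) ^ 2) * (1 - β / p) ^ X) := by ring
      _ ≤ s ^ X * (Real.exp (-(β * X / p) ^ 2) * Real.exp (-(β * X / p))) := by
          have := Real.exp_pos (-(β * X / p) ^ 2)
          gcongr
      _ = s ^ X * Real.exp (-(β * X / p) - (β * X / p) ^ 2) := by
          rw [← Real.exp_add]
          congr 2
          ring
      _ ≤ s ^ X * (1 - β * X / p) := mul_le_mul_of_nonneg_left h1 (by positivity)
  · intro hy
    rw [habs] at hy ⊢
    obtain ⟨c, hc⟩ : ∃ c : ℕ, c = ∑ r ∈ Finset.range p, N r * N' r := ⟨_, rfl⟩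
    have hcr : ∑ r ∈ Finset.range p, (N r : ℝ) * (N' r : ℝ) = c := by
      rw [hc]; push_cast; rfl
    rw [← hc]
    have hmean2 : (p : ℝ)⁻¹ * ∑ r ∈ Finset.range p, (1 + τ) ^ ((X - N r) + (Y - N' r)) =
        s ^ (X + Y) * (1 - β * (X + Y) / p + β ^ 2 * c / p) := by
      have h1 : ∀ r ∈ Finset.range p, (1 + τ) ^ ((X - N r) + (Y - N' r)) =
          s ^ (X + Y) * (1 - β * (N r : ℝ) - β * (N' r : ℝ) + β ^ 2 * ((N r : ℝ) * (N' r : ℝ))) := by
        intro r hr
        rw [Finset.mem_range] at hr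
        rw [← hs, pow_add, pow_sub hsβ (hN r hr) (le_sum hX hr), pow_sub hsβ (hN' r hr) (le_sum hY hr),
          pow_add]
        ring
      rw [Finset.sum_congr rfl h1, ← Finset.mul_sum, Finset.sum_add_distrib, Finset.sum_sub_distrib,
        Finset.sum_sub_distrib, ← Finset.mul_sum, ← Finset.mul_sum, ← Finset.mul_sum, hsum, hsum', hcr,
        Finset.sum_const, Finset.card_range, nsmul_eq_mul, mul_one]
      field_simp
      ring
    have hXY0 : (0 : ℝ) ≤ (X : ℝ) + Y := by positivity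
    have hyy : |β * (X + Y) / p| ≤ 1 / 2 := by
      rw [mul_div_assoc, abs_mul, abs_of_nonneg (by positivity : (0 : ℝ) ≤ ((X : ℝ) + Y) / p)]
      exact hy
    have hy2 := (abs_le.1 hyy).2
    have hd0 : 0 ≤ β ^ 2 * c / p := by positivity
    rw [hmean2, ← hb, mul_pow s]
    have h2 := hbern (X + Y)
    push_cast at h2
    have h3 : 2 * (β ^ 2 * c / p) + 1 ≤ Real.exp (2 * (β ^ 2 * c / p)) := Real.add_one_le_exp _
    have e2 : 2 * |β| ^ 2 * ((c : ℝ) / p) = 2 * (β ^ 2 * c / p) := by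
      rw [sq_abs]; ring
    rw [e2]
    calc s ^ (X + Y) * (1 - β * (X + Y) / p + β ^ 2 * c / p) ≤
          s ^ (X + Y) * ((1 - β * (X + Y) / p) * (2 * (β ^ 2 * c / p) + 1)) := by
          apply mul_le_mul_of_nonneg_left _ (by positivity)
          nlinarith
      _ ≤ s ^ (X + Y) * ((1 - β / p) ^ (X + Y) * Real.exp (2 * (β ^ 2 * c / p))) := by
          apply mul_le_mul_of_nonneg_left _ (by positivity)
          exact mul_le_mul h2 h3 (by linarith) (by
            have : 0 ≤ 1 - β / (p : ℝ) := by linarith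
            positivity)
      _ = Real.exp (2 * (β ^ 2 * c / p)) * (s ^ (X + Y) * (1 - β / p) ^ (X + Y)) := by ring

end Pool.Agent.H50.CW
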