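import Pool.Agent.H50.CW.Stm
import Pool.Agent.H50.BF.MMB
import Pool.Agent.H50.BF.MGF

/-! Common tools for CW-UPB, LOB, PAR (helper31). -/

set_option autoImplicit false

open MeasureTheory Filter
open scoped Topology ENNReal

namespace Pool.Agent.H50.CW.Step31

open Pool.Agent.H50.BF Pool.Agent.H50.CW

lemma dep_mono {β : Type} {q q' : ℕ} (h : q ≤ q') {F : (ℕ → ℕ) → β} (hF : Dep q F) : Dep q' F :=
  fun b b' hb => hF b b' fun p hp hpq => hb p hp (hpq.trans h)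

lemma dep_sv {q v : ℕ} (h : q ≤ v) {pos : (ℕ → ℕ) → ℕ} (hpos : Dep q pos) (U : ℕ) :
    Dep v (fun b => sv b v (pos b) U) := by
  intro b b' hb
  have h1 : pos b = pos b' := dep_mono h hpos b b' hb
  change sv b v (pos b) U = sv b' v (pos b') U
  rw [h1, sv_congr hb]

lemma cls_congr {a b : ℕ → ℕ} {v : ℕ} (h : ∀ q : ℕ, q.Prime → q ≤ v → a q % q = b q % q)
    (n U p r : ℕ) : cls a v n U p r = cls b v n U p r := by
  classical
  unfold cls
  congr 1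
  apply Finset.filter_congr
  intro k _
  refine and_congr_left fun _ => ?_
  constructor
  · intro h1 q hq hqw
    rw [← h q hq hqw]
    exact h1 q hq hqw
  · intro h1 q hq hqw
    rw [h q hq hqw]
    exact h1 q hq hqw

lemma dep_cls {q v : ℕ} (h : q ≤ v) {pos : (ℕ → ℕ) → ℕ} (hpos : Dep q pos) (U p r : ℕ) :
    Dep v (fun b => cls b v (pos b) U p r) := by
  intro b b' hb
  have h1 : pos b = pos b' := dep_mono h hpos b b' hb
  change cls b v (pos b) U p r = cls b' v (pos b') U p r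
  rw [h1, cls_congr hb]

lemma sv_dep {q v : ℕ} (h : q ≤ v) {pos : (ℕ → ℕ) → ℕ} (hpos : Dep q pos) (U : ℕ) {b b' : ℕ → ℕ}
    (hb : ∀ p : ℕ, p.Prime → p ≤ v → b p % p = b' p % p) :
    sv b v (pos b) U = sv b' v (pos b') U := dep_sv h hpos U b b' hb

lemma cls_dep {q v : ℕ} (h : q ≤ v) {pos : (ℕ → ℕ) → ℕ} (hpos : Dep q pos) (U p r : ℕ)
    {b b' : ℕ → ℕ} (hb : ∀ p : ℕ, p.Prime → p ≤ v → b p % p = b' p % p) :
    cls b v (pos b) U p r = cls b' v (pos b') U p r := dep_cls h hpos U p r b b' hb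

section
variable {Ω : Type} [MeasurableSpace Ω] {P : Measure Ω} {a : ℕ → Ω → ℕ}

lemma integ (hI : S_IND) (H : Model P a) {v : ℕ} {F : (ℕ → ℕ) → ℝ} (hF : Dep v F) :
    Integrable (fun ω => F (fun p => a p ω)) P := by
  obtain ⟨p, hpz, hp⟩ := Nat.exists_infinite_primes (v + 1)
  exact (hI Ω P a H p hp (fun _ b => F b) (by
    intro r b b' hb
    exact hF b b' fun q hq hqv => hb q hq (by omega))).1 0

lemma step_eq (hI : S_IND) (H : Model P a) {v : ℕ} (hp : (v + 1).Prime)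
    {G : ℕ → (ℕ → ℕ) → ℝ} (hG : ∀ r, Dep v (G r)) {F1 : (ℕ → ℕ) → ℝ}
    (h1 : ∀ b, F1 b = G (b (v + 1) % (v + 1)) b) :
    ∫ ω, F1 (fun p => a p ω) ∂P =
      ∫ ω, (((v + 1 : ℕ) : ℝ))⁻¹ * ∑ r ∈ Finset.range (v + 1), G r (fun p => a p ω) ∂P := by
  have h2 := (hI Ω P a H (v + 1) hp G (by
    intro r b b' hb
    exact hG r b b' fun q hq hqv => hb q hq (by omega))).2.2
  rw [← h2]
  refine integral_congr_ae (Eventually.of_forall fun ω => ?_)
  exact h1 _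

lemma dep_mean {v : ℕ} {G : ℕ → (ℕ → ℕ) → ℝ} (hG : ∀ r, Dep v (G r)) (c : ℝ) (n : ℕ) :
    Dep v (fun b => c * ∑ r ∈ Finset.range n, G r b) := by
  intro b b' hb
  change c * ∑ r ∈ Finset.range n, G r b = c * ∑ r ∈ Finset.range n, G r b'
  rw [Finset.sum_congr rfl fun r _ => hG r b b' hb]

lemma step_le (hI : S_IND) (H : Model P a) {v : ℕ} (hp : (v + 1).Prime)
    {G : ℕ → (ℕ → ℕ) → ℝ} (hG : ∀ r, Dep v (G r)) {F1 F0 : (ℕ → ℕ) → ℝ} (hF0 : Dep v F0)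
    (h1 : ∀ b, F1 b = G (b (v + 1) % (v + 1)) b)
    (h2 : ∀ b, (((v + 1 : ℕ) : ℝ))⁻¹ * ∑ r ∈ Finset.range (v + 1), G r b ≤ F0 b) :
    ∫ ω, F1 (fun p => a p ω) ∂P ≤ ∫ ω, F0 (fun p => a p ω) ∂P := by
  rw [step_eq hI H hp hG h1]
  exact integral_mono (integ hI H (dep_mean hG _ _)) (integ hI H hF0) fun ω => h2 _

lemma step_ge (hI : S_IND) (H : Model P a) {v : ℕ} (hp : (v + 1).Prime)
    {G : ℕ → (ℕ → ℕ) → ℝ} (hG : ∀ r, Dep v (G r)) {F1 F0 : (ℕ → ℕ) → ℝ} (hF0 : Dep v F0)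
    (h1 : ∀ b, F1 b = G (b (v + 1) % (v + 1)) b)
    (h2 : ∀ b, F0 b ≤ (((v + 1 : ℕ) : ℝ))⁻¹ * ∑ r ∈ Finset.range (v + 1), G r b) :
    ∫ ω, F0 (fun p => a p ω) ∂P ≤ ∫ ω, F1 (fun p => a p ω) ∂P := by
  rw [step_eq hI H hp hG h1]
  exact integral_mono (integ hI H hF0) (integ hI H (dep_mean hG _ _)) fun ω => h2 _

end

/-- the parameter at level `v` -/
noncomputable def ta (t : ℝ) (z v : ℕ) : ℝ := t * (MM v / MM z)

lemma ta_self (t : ℝ) (z : ℕ) : ta t z z = t := by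
  unfold ta
  rw [div_self (MM_pos z).ne', mul_one]

lemma rho_pos (z v : ℕ) : 0 < MM v / MM z := div_pos (MM_pos v) (MM_pos z)

lemma rho_le {z v : ℕ} (h : v ≤ z) : MM v / MM z ≤ 1 := by
  rw [div_le_one (MM_pos z)]
  exact MM_mono h

lemma ta_gt {t : ℝ} (ht : -1 < t) {z v : ℕ} (h : v ≤ z) : -1 < ta t z v := by
  unfold ta
  have h1 := rho_pos z v
  have h2 := rho_le h
  rcases le_or_gt 0 t with h0 | h0
  · have := mul_nonneg h0 h1.le
    linarith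
  · nlinarith

lemma ta_succ_prime (t : ℝ) (z : ℕ) {v : ℕ} (hp : (v + 1).Prime) :
    ta t z (v + 1) * (1 - ((v + 1 : ℕ) : ℝ)⁻¹) = ta t z v := by
  unfold ta
  rw [← MM_succ_prime hp]
  ring

lemma ta_succ_not (t : ℝ) (z : ℕ) {v : ℕ} (hp : ¬ (v + 1).Prime) :
    ta t z (v + 1) = ta t z v := by
  unfold ta
  rw [MM_succ_not hp]

/-- `|τ| / (1 + τ) ≤ |t| / (1 + t)` -/
lemma ta_K {t : ℝ} (ht : -1 < t) {z v : ℕ} (h : v ≤ z) :
    |ta t z v| / (1 + ta t z v) ≤ |t| / (1 + t) := by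
  have h1 := rho_pos z v
  have h2 := rho_le h
  have h3 := ta_gt ht h
  rw [div_le_div_iff₀ (by linarith) (by linarith)]
  have h4 : |ta t z v| = |t| * (MM v / MM z) := by
    unfold ta
    rw [abs_mul, abs_of_pos h1]
  rw [h4]
  unfold ta
  have h5 : 0 ≤ |t| := abs_nonneg t
  have h6 : |t| * (MM v / MM z) * (1 + t) ≤ |t| * (1 + t * (MM v / MM z)) := by
    rw [mul_assoc]
    apply mul_le_mul_of_nonneg_left _ h5
    nlinarith
  exact h6

end Pool.Agent.H50.CW.Step31
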