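import Pool.Agent.H50.CW.Stm

set_option autoImplicit false

open MeasureTheory Filter
open scoped Topology ENNReal

namespace Pool.Agent.H50.CW

open Pool.Agent.H50.BF

theorem TND.fin {Ω : Type} [MeasurableSpace Ω] {P : Measure Ω} {a : ℕ → Ω → ℕ} (hM : Model P a) :
    P Set.univ = 1 := by
  have h := hM.law 0 (fun _ => 0) (fun p hp => hp.pos)
  have h1 : {ω | ∀ p : ℕ, p.Prime → p ≤ 0 → a p ω % p = 0} = Set.univ := by
    ext ω
    simp only [Set.mem_setOf_eq, Set.mem_univ, iff_true]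
    intro p hp h0
    exact absurd hp.pos (by omega)
  rw [h1] at h
  rw [h]
  simp

theorem tnd : S_DPI → S_TND := by
  intro hDPI Ω _ P a hM Q hQ hae
  classical
  have hfin : IsFiniteMeasure P := ⟨by rw [TND.fin hM]; exact ENNReal.one_lt_top⟩
  have hnull : ∀ n, NullMeasurableSet {ω | ¬ Q n (fun p => a p ω)} P := by
    intro n
    obtain ⟨q, hq⟩ := hQ n
    have hF : Dep q (fun b : ℕ → ℕ => if Q n b then (0 : ℝ) else 1) := by
      intro b b' h
      have := hq b b' h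
      simp only [this]
    have h1 := hDPI Ω P a hM q _ hF
    have h2 : {ω | ¬ Q n (fun p => a p ω)} =
        (fun ω => (if Q n (fun p => a p ω) then (0 : ℝ) else 1)) ⁻¹' {1} := by
      ext ω
      simp only [Set.mem_setOf_eq, Set.mem_preimage, Set.mem_singleton_iff]
      by_cases h : Q n (fun p => a p ω) <;> simp [h]
    rw [h2]
    exact h1.aestronglyMeasurable.aemeasurable.nullMeasurable (measurableSet_singleton 1)
  have hB : ∀ m : ℕ, {ω | ∃ n : ℕ, m ≤ n ∧ ¬ Q n (fun p => a p ω)} =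
      ⋃ n : ℕ, ⋃ _ : m ≤ n, {ω | ¬ Q n (fun p => a p ω)} := by
    intro m
    ext ω
    simp
  have h1 := tendsto_measure_iInter_atTop (μ := P)
    (s := fun m : ℕ => {ω | ∃ n : ℕ, m ≤ n ∧ ¬ Q n (fun p => a p ω)})
    (fun m => by
      rw [hB]
      exact NullMeasurableSet.iUnion fun n => NullMeasurableSet.iUnion fun _ => hnull n)
    (fun m m' h ω ⟨n, hn, hn'⟩ => ⟨n, h.trans hn, hn'⟩)
    ⟨0, measure_ne_top P _⟩
  have h2 : P (⋂ m : ℕ, {ω | ∃ n : ℕ, m ≤ n ∧ ¬ Q n (fun p => a p ω)}) = 0 := by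
    have h3 : P {ω | ¬ ∀ᶠ n : ℕ in atTop, Q n (fun p => a p ω)} = 0 := hae
    refine measure_mono_null (fun ω hω => ?_) h3
    simp only [Set.mem_iInter, Set.mem_setOf_eq] at hω
    simp only [Set.mem_setOf_eq]
    intro hev
    obtain ⟨m, hm⟩ := eventually_atTop.1 hev
    obtain ⟨n, hn, hn'⟩ := hω m
    exact hn' (hm n hn)
  rw [h2] at h1
  exact h1

end Pool.Agent.H50.CW
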