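import Pool.Agent.H50.CW.Stm

/-! CW-TRC (helper63) -/

set_option autoImplicit false

namespace Pool.Agent.H50.CW

open Pool.Agent.H50.BF Filter
open scoped Topology

namespace CWaux

/-- comparison of the levels -/
lemma lev {C η : ℝ} (hC : 1 ≤ C) (hη : 0 < η) (hη1 : η ≤ 1 / 2) : ∀ᶠ L : ℝ in atTop,
    ∀ w : ℝ, 0 ≤ w → L ^ 2 / C ≤ w ^ 2 → w ^ 2 ≤ C * L ^ 2 →
      w ^ (1 - η) ≤ L ^ (1 - η / 4) ∧ 2 * L ^ (1 + η / 4) ≤ w ^ (1 + η) := by
  have h1 : Tendsto (fun L : ℝ => L ^ (3 * η / 4)) atTop atTop := tendsto_rpow_atTop (by positivity)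
  filter_upwards [h1.eventually_ge_atTop (2 * C ^ 2), eventually_gt_atTop 0] with L h2 hL w hw hw1 hw2
  have hC0 : 0 < C := by linarith
  have hwu : w ≤ C * L := by
    refine abs_le_of_sq_le_sq' (b := C * L) ?_ (by positivity) |>.2
    calc w ^ 2 ≤ C * L ^ 2 := hw2
      _ ≤ C ^ 2 * L ^ 2 := by
        refine mul_le_mul_of_nonneg_right ?_ (by positivity)
        nlinarith
      _ = (C * L) ^ 2 := by ring
  have hwl : L / C ≤ w := by
    refine abs_le_of_sq_le_sq' (b := w) ?_ hw |>.2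
    calc (L / C) ^ 2 = L ^ 2 / (C * C) := by
          rw [div_pow, pow_two C]
      _ ≤ L ^ 2 / C := by
        refine div_le_div_of_nonneg_left (by positivity) hC0 (by nlinarith)
      _ ≤ w ^ 2 := hw1
  have hC2 : C ≤ C ^ 2 := by nlinarith
  constructor
  · calc w ^ (1 - η) ≤ (C * L) ^ (1 - η) := Real.rpow_le_rpow hw hwu (by linarith)
      _ = C ^ (1 - η) * L ^ (1 - η) := Real.mul_rpow hC0.le hL.le
      _ ≤ L ^ (3 * η / 4) * L ^ (1 - η) := by
        refine mul_le_mul_of_nonneg_right ?_ (by positivity)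
        calc C ^ (1 - η) ≤ C ^ (1 : ℝ) := Real.rpow_le_rpow_of_exponent_le hC (by linarith)
          _ = C := Real.rpow_one C
          _ ≤ L ^ (3 * η / 4) := by linarith
      _ = L ^ (1 - η / 4) := by
        rw [← Real.rpow_add hL]
        congr 1
        ring
  · calc 2 * L ^ (1 + η / 4) = 2 * C ^ 2 * L ^ (1 + η / 4) / C ^ 2 := by
          field_simp
      _ ≤ L ^ (3 * η / 4) * L ^ (1 + η / 4) / C ^ 2 := by
        refine div_le_div_of_nonneg_right (mul_le_mul_of_nonneg_right h2 (by positivity))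
          (by positivity)
      _ = L ^ (1 + η) / C ^ 2 := by
        rw [← Real.rpow_add hL]
        congr 2
        ring
      _ ≤ L ^ (1 + η) / C ^ (1 + η) := by
        refine div_le_div_of_nonneg_left (by positivity) (by positivity) ?_
        rw [← Real.rpow_natCast]
        exact Real.rpow_le_rpow_of_exponent_le hC (by push_cast; linarith)
      _ = (L / C) ^ (1 + η) := (Real.div_rpow hL.le hC0.le _).symm
      _ ≤ w ^ (1 + η) := Real.rpow_le_rpow (by positivity) hwl (by linarith)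

lemma tendsto_log_nat : Tendsto (fun n : ℕ => Real.log n) atTop atTop :=
  Real.tendsto_log_atTop.comp tendsto_natCast_atTop_atTop

/-- the square root of the length of the window -/
lemma sqrt_bd {C L : ℝ} (hC : 1 ≤ C) (hL : 2 * C ≤ L) {U : ℕ} (h1 : L ^ 2 / C ≤ U) (h2 : (U : ℝ) ≤ C * L ^ 2) :
    L ^ 2 / (4 * C) ≤ (Nat.sqrt U : ℝ) ^ 2 ∧ (Nat.sqrt U : ℝ) ^ 2 ≤ 4 * C * L ^ 2 ∧
      (Nat.sqrt U : ℝ) ^ 2 ≤ U ∧ (U : ℝ) ≤ (Nat.sqrt U : ℝ) ^ 2 + 2 * Nat.sqrt U ∧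
      L / (2 * C) ≤ Nat.sqrt U := by
  have hC0 : 0 < C := by linarith
  have a1 : (Nat.sqrt U : ℝ) ^ 2 ≤ U := by exact_mod_cast Nat.sqrt_le' U
  have a2 : (U : ℝ) ≤ (Nat.sqrt U : ℝ) ^ 2 + 2 * Nat.sqrt U := by
    have : U ≤ Nat.sqrt U * Nat.sqrt U + Nat.sqrt U + Nat.sqrt U := Nat.sqrt_le_add U
    have h : U ≤ Nat.sqrt U ^ 2 + 2 * Nat.sqrt U := by nlinarith
    exact_mod_cast h
  have hL0 : 0 < L := by linarith
  have a3 : (1 : ℝ) ≤ U := by
    refine le_trans ?_ h1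
    rw [one_le_div₀ hC0]
    nlinarith
  have a4 : 1 ≤ Nat.sqrt U := by
    rw [Nat.le_sqrt]
    have : 1 ≤ U := by exact_mod_cast a3
    omega
  have a5 : (1 : ℝ) ≤ Nat.sqrt U := by exact_mod_cast a4
  have a6 : (U : ℝ) ≤ 4 * (Nat.sqrt U : ℝ) ^ 2 := by nlinarith
  have a7 : L ^ 2 / (4 * C) ≤ (Nat.sqrt U : ℝ) ^ 2 := by
    have : L ^ 2 / (4 * C) = L ^ 2 / C / 4 := by
      field_simp
    rw [this]
    linarith
  refine ⟨a7, ?_, a1, a2, ?_⟩
  · have : 0 ≤ C * L ^ 2 := by positivity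
    linarith
  · refine abs_le_of_sq_le_sq' (b := (Nat.sqrt U : ℝ)) (le_trans ?_ a7) (by positivity) |>.2
    calc (L / (2 * C)) ^ 2 = L ^ 2 / (4 * (C * C)) := by
          rw [div_pow]
          ring
      _ ≤ L ^ 2 / (4 * C) := by
        refine div_le_div_of_nonneg_left (by positivity) (by positivity) (by nlinarith)

/-- two levels close to `w` -/
lemma two_lev {C0 η : ℝ} {w : ℕ} (htr : ∀ (a : ℕ → ℕ) (v v' n U : ℕ), (w : ℝ) ^ (1 - η) ≤ v → v ≤ v' →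
      (v' : ℝ) ≤ (w : ℝ) ^ (1 + η) → (w : ℝ) ^ 2 / 2 ≤ U →
      |(sv a v n U : ℝ) * (MM v / U) - sv a v' n U * (MM v' / U)| ≤ C0 * η)
    (a : ℕ → ℕ) (v v' n U : ℕ) (h1 : (w : ℝ) ^ (1 - η) ≤ v) (h2 : (w : ℝ) ^ (1 - η) ≤ v')
    (h3 : (v : ℝ) ≤ (w : ℝ) ^ (1 + η)) (h4 : (v' : ℝ) ≤ (w : ℝ) ^ (1 + η))
    (h5 : (w : ℝ) ^ 2 / 2 ≤ U) :
    |(sv a v n U : ℝ) * (MM v / U) - sv a v' n U * (MM v' / U)| ≤ C0 * η := by
  rcases le_total v v' with h | h
  · exact htr a v v' n U h1 h h4 h5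
  · rw [abs_sub_comm]
    exact htr a v' v n U h2 h h3 h5

end CWaux

open CWaux

theorem trc : S_TRANS → S_TRC := by
  intro ⟨C0, hC0, htrans⟩ C ε hC hε
  set η : ℝ := min (1 / 2) (ε / (2 * C0)) with hηd
  have hη : 0 < η := lt_min (by norm_num) (by positivity)
  have hη1 : η ≤ 1 / 2 := min_le_left _ _
  have hηε : C0 * η ≤ ε / 2 := by
    calc C0 * η ≤ C0 * (ε / (2 * C0)) := mul_le_mul_of_nonneg_left (min_le_right _ _) hC0.le
      _ = ε / 2 := by field_simp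
  refine ⟨η / 4, by positivity, by linarith, fun a ha => ?_⟩
  obtain ⟨k, hk⟩ := exists_nat_gt (4 / η)
  have hk0 : (0 : ℝ) < k := lt_trans (by positivity) hk
  have hk1 : 1 ≤ k := by
    have : 0 < k := by exact_mod_cast hk0
    omega
  have hkη : 1 / (k : ℝ) ≤ η / 4 := by
    rw [div_le_iff₀ hk0]
    rw [div_lt_iff₀ hη] at hk
    linarith
  obtain ⟨N0, hN0⟩ := eventually_atTop.1 (htrans η hη hη1)
  filter_upwards [ha k C (ε / 2) hk1 hC (by positivity),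
    tendsto_log_nat.eventually (lev (C := 4 * C) (by linarith) hη hη1),
    tendsto_log_nat.eventually_ge_atTop (2 * C * (N0 + 1))] with n h1 h2 h3
  intro U q v hU1 hU2 hq1 hq2 hv1 hv2
  have hN : (0 : ℝ) ≤ N0 := Nat.cast_nonneg _
  have hL2 : 2 * C ≤ Real.log n := le_trans (by nlinarith) h3
  have hL1 : 1 ≤ Real.log n := by linarith
  obtain ⟨b1, b2, b3, b4, b5⟩ := sqrt_bd hC hL2 hU1 hU2
  set L := Real.log n with hLd
  set w := Nat.sqrt U with hwd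
  have hwN : N0 ≤ w := by
    have : (N0 : ℝ) ≤ w := by
      refine le_trans ?_ b5
      rw [le_div_iff₀ (by linarith)]
      nlinarith
    exact_mod_cast this
  obtain ⟨c1, c2⟩ := h2 w (Nat.cast_nonneg _) b1 b2
  have hlv1 : L ^ (1 + 1 / (k : ℝ)) ≤ lv k n := Nat.le_ceil _
  have hlv2 : (lv k n : ℝ) ≤ 2 * L ^ (1 + 1 / (k : ℝ)) := by
    have h4 : (lv k n : ℝ) < L ^ (1 + 1 / (k : ℝ)) + 1 := Nat.ceil_lt_add_one (by positivity)
    have h5 : (1 : ℝ) ≤ L ^ (1 + 1 / (k : ℝ)) := Real.one_le_rpow hL1 (by positivity)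
    linarith
  have hlv3 : (w : ℝ) ^ (1 - η) ≤ lv k n := by
    refine c1.trans (le_trans ?_ hlv1)
    refine Real.rpow_le_rpow_of_exponent_le hL1 ?_
    have : 0 < 1 / (k : ℝ) := by positivity
    linarith
  have hlv4 : (lv k n : ℝ) ≤ (w : ℝ) ^ (1 + η) := by
    refine hlv2.trans (le_trans ?_ c2)
    refine mul_le_mul_of_nonneg_left (Real.rpow_le_rpow_of_exponent_le hL1 (by linarith)) (by norm_num)
  have hv3 : (v : ℝ) ≤ (w : ℝ) ^ (1 + η) := by
    refine hv2.trans (le_trans ?_ c2)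
    have : 0 < L ^ (1 + η / 4) := Real.rpow_pos_of_pos (by linarith) _
    linarith
  have hw2 : (w : ℝ) ^ 2 / 2 ≤ U := by
    have : 0 ≤ (w : ℝ) ^ 2 := by positivity
    linarith
  have h5 := two_lev (hN0 w hwN) a (lv k n) v n U hlv3 (c1.trans hv1) hlv4 hv3 hw2
  have h6 := h1 U q hU1 hU2 hq1 hq2
  have h7 := abs_sub_le ((sv a q n U : ℝ) * (MM q / U)) (sv a (lv k n) n U * (MM (lv k n) / U))
    (sv a v n U * (MM v / U))
  linarith

end Pool.Agent.H50.CW
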