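import Pool.Agent.H50.CW.Step31

/-! CW-UPB (helper31). -/

set_option autoImplicit false

open MeasureTheory Filter
open scoped Topology ENNReal

namespace Pool.Agent.H50.CW

open Pool.Agent.H50.BF Pool.Agent.H50.CW.Step31

theorem upb : S_IND → S_DPI → S_STP → S_WIN → S_UPB := by
  intro hI _ hS hW Ω _ P a H q z U t Φ pos ht hUq hqz hΦ hpos hΦ0
  have key : ∀ v, q ≤ v → v ≤ z →
      ∫ ω, Φ (fun p => a p ω) * (1 + ta t z v) ^ sv (fun p => a p ω) v (pos (fun p => a p ω)) U ∂P ≤
      ∫ ω, Φ (fun p => a p ω) *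
        (1 + ta t z q) ^ sv (fun p => a p ω) q (pos (fun p => a p ω)) U ∂P := by
    intro v hv
    induction v, hv using Nat.le_induction with
    | base => intro _; exact le_rfl
    | succ v hqv ih =>
      intro hvz
      refine le_trans ?_ (ih (by omega))
      by_cases hp : (v + 1).Prime
      · refine step_le hI H hp
          (G := fun r b => Φ b * (1 + ta t z (v + 1)) ^
            (sv b v (pos b) U - cls b v (pos b) U (v + 1) r))
          (F1 := fun b => Φ b * (1 + ta t z (v + 1)) ^ sv b (v + 1) (pos b) U)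
          (F0 := fun b => Φ b * (1 + ta t z v) ^ sv b v (pos b) U) ?_ ?_ ?_ ?_
        · intro r b b' hb
          change Φ b * (1 + ta t z (v + 1)) ^ (sv b v (pos b) U - cls b v (pos b) U (v + 1) r) =
            Φ b' * (1 + ta t z (v + 1)) ^ (sv b' v (pos b') U - cls b' v (pos b') U (v + 1) r)
          rw [dep_mono hqv hΦ b b' hb, sv_dep hqv hpos U hb, cls_dep hqv hpos U (v + 1) r hb]
        · intro b b' hb
          change Φ b * (1 + ta t z v) ^ (sv b v (pos b) U) =
            Φ b' * (1 + ta t z v) ^ (sv b' v (pos b') U)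
          rw [dep_mono hqv hΦ b b' hb, sv_dep hqv hpos U hb]
        · intro b
          have h1 := (hW b (pos b) U (v + 1) hp (by omega)).1
          rw [Nat.add_sub_cancel] at h1
          change Φ b * (1 + ta t z (v + 1)) ^ sv b (v + 1) (pos b) U = _
          rw [h1]
        · intro b
          obtain ⟨-, h2, h3, -⟩ := hW b (pos b) U (v + 1) hp (by omega)
          rw [Nat.add_sub_cancel] at h2 h3
          have h4 := (hS (v + 1) hp.two_le (ta t z (v + 1)) (ta_gt ht hvz) _ _ _ _ h2 h2 h3 h3).1
          rw [ta_succ_prime t z hp] at h4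
          have h5 : (((v + 1 : ℕ) : ℝ))⁻¹ * ∑ r ∈ Finset.range (v + 1), Φ b *
              (1 + ta t z (v + 1)) ^ (sv b v (pos b) U - cls b v (pos b) U (v + 1) r) =
              Φ b * ((((v + 1 : ℕ) : ℝ))⁻¹ * ∑ r ∈ Finset.range (v + 1),
              (1 + ta t z (v + 1)) ^ (sv b v (pos b) U - cls b v (pos b) U (v + 1) r)) := by
            rw [← Finset.mul_sum]
            ring
          rw [h5]
          exact mul_le_mul_of_nonneg_left h4 (hΦ0 b)
      · refine le_of_eq ?_
        simp only [sv_succ_not _ hp, ta_succ_not t z hp]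
  have h := key z hqz le_rfl
  rw [ta_self] at h
  exact h

end Pool.Agent.H50.CW
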