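import Pool.Agent.H50.CW.Stm
import Pool.Agent.H50.BF.MMB

set_option autoImplicit false

open MeasureTheory Filter
open scoped Topology ENNReal

namespace Pool.Agent.H50.CW.UPXx

open Pool.Agent.H50.BF

/-- the level `(log n)^6` -/
noncomputable def ql (n : ℕ) : ℕ := ⌈Real.log n ^ 6⌉₊

lemma hLog : Tendsto (fun n : ℕ => Real.log (n : ℝ)) atTop atTop :=
  Real.tendsto_log_atTop.comp tendsto_natCast_atTop_atTop

lemma ql_bd : ∀ᶠ n : ℕ in atTop, Real.log n ^ 5 ≤ (ql n : ℝ) ∧ (ql n : ℝ) ≤ Real.log n ^ 7 := by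
  filter_upwards [hLog.eventually_ge_atTop 2] with n h
  have h1 : Real.log (n : ℝ) ^ 6 ≤ ql n := Nat.le_ceil _
  have h2 : (ql n : ℝ) < Real.log (n : ℝ) ^ 6 + 1 := Nat.ceil_lt_add_one (by positivity)
  have h3 : (1 : ℝ) ≤ Real.log (n : ℝ) ^ 6 := one_le_pow₀ (by linarith)
  constructor
  · exact (pow_le_pow_right₀ (by linarith) (by norm_num)).trans h1
  · calc (ql n : ℝ) ≤ 2 * Real.log (n : ℝ) ^ 6 := by linarith
      _ ≤ Real.log (n : ℝ) * Real.log (n : ℝ) ^ 6 := mul_le_mul_of_nonneg_right h (by positivity)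
      _ = _ := by ring

lemma U_le_ql {C : ℝ} {U : ℕ → ℕ} (hU : Tendsto (fun n : ℕ => (U n : ℝ) / Real.log n ^ 2) atTop (𝓝 C)) :
    ∀ᶠ n : ℕ in atTop, U n ≤ ql n := by
  filter_upwards [ql_bd, hLog.eventually_ge_atTop (C + 1), hLog.eventually_ge_atTop 1,
    hU.eventually (gt_mem_nhds (show C < C + 1 by linarith))] with n h1 h2 h3 h4
  have hL : 0 < Real.log (n : ℝ) := by linarith
  rw [div_lt_iff₀ (by positivity)] at h4
  have h5 : (U n : ℝ) ≤ ql n := by
    calc (U n : ℝ) ≤ (C + 1) * Real.log n ^ 2 := h4.le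
      _ ≤ Real.log n * Real.log n ^ 2 := mul_le_mul_of_nonneg_right h2 (by positivity)
      _ = Real.log n ^ 3 := by ring
      _ ≤ Real.log n ^ 5 := pow_le_pow_right₀ h3 (by norm_num)
      _ ≤ _ := h1.1
  exact_mod_cast h5

lemma ql_le_Z (hD : S_DSUM) {Z : ℕ → ℕ} (hZ : Tendsto (fun n : ℕ => MM (Z n) / Real.log n) atTop (𝓝 1)) :
    ∀ᶠ n : ℕ in atTop, ql n ≤ Z n := by
  obtain ⟨C, hC, hCm, _⟩ := hD
  have h1 : Tendsto (fun L : ℝ => Real.log L / L) atTop (𝓝 0) := by
    have := (isLittleO_log_rpow_atTop (r := 1) one_pos).tendsto_div_nhds_zero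
    simpa using this
  have h2 : Tendsto (fun L : ℝ => (1 : ℝ) / L) atTop (𝓝 0) := by
    simpa using tendsto_inv_atTop_zero (𝕜 := ℝ)
  have h3 : Tendsto (fun L : ℝ => C * (1 / L + 7 * (Real.log L / L))) atTop (𝓝 0) := by
    have := ((h2.add (h1.const_mul 7)).const_mul C)
    simpa using this
  filter_upwards [hLog.eventually (h3.eventually (gt_mem_nhds (show (0 : ℝ) < 1 / 2 by norm_num))),
    hZ.eventually (lt_mem_nhds (show (1 / 2 : ℝ) < 1 by norm_num)), ql_bd,
    hLog.eventually_ge_atTop 1] with n h4 h5 h6 h7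
  have hL : 0 < Real.log (n : ℝ) := by linarith
  by_contra hcon
  push Not at hcon
  have h8 : MM (Z n) ≤ MM (ql n) := MM_mono hcon.le
  have h9 : 1 ≤ ql n := by omega
  have h10 : MM (ql n) ≤ C * (1 + 7 * Real.log (Real.log n)) := by
    refine (hCm _ h9).trans ?_
    apply mul_le_mul_of_nonneg_left _ hC.le
    have h11 : Real.log (ql n) ≤ Real.log (Real.log n ^ 7) :=
      Real.log_le_log (by exact_mod_cast h9) h6.2
    rw [Real.log_pow] at h11
    push_cast at h11
    linarith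
  rw [lt_div_iff₀ hL] at h5
  have h12 : C * (1 / Real.log n + 7 * (Real.log (Real.log n) / Real.log n)) * Real.log n =
      C * (1 + 7 * Real.log (Real.log n)) := by
    field_simp
  have h13 := mul_lt_mul_of_pos_right h4 hL
  rw [h12] at h13
  linarith

/-- the exponential moment bound and Borel-Cantelli -/
theorem core (hI : S_DPI) (hB : S_UPB) (hD : S_DSUM)
    {Ω : Type} [MeasurableSpace Ω] {P : Measure Ω} {a : ℕ → Ω → ℕ} (hmod : Model P a)
    {C t u σ : ℝ} (hC : 0 < C) (ht : -1 < t) (h : 1 < u * Real.log (1 + t) - t * (C * σ)) {U Z : ℕ → ℕ}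
    (hU : Tendsto (fun n : ℕ => (U n : ℝ) / Real.log n ^ 2) atTop (𝓝 C))
    (hZ : Tendsto (fun n : ℕ => MM (Z n) / Real.log n) atTop (𝓝 1)) :
    ∀ᵐ ω ∂P, ∀ᶠ n : ℕ in atTop,
      ¬ (t * ((sv (fun p => a p ω) (ql n) n (U n) : ℝ) * (MM (ql n) / U n)) ≤ t * σ ∧
        u * Real.log n * Real.log (1 + t) ≤ (sv (fun p => a p ω) (Z n) n (U n) : ℝ) * Real.log (1 + t)) := by
  classical
  have := model_prob hmod
  obtain ⟨δ, hδ⟩ : ∃ δ : ℝ, δ = (u * Real.log (1 + t) - t * (C * σ) - 1) / 2 := ⟨_, rfl⟩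
  have hδ0 : 0 < δ := by rw [hδ]; linarith
  -- the exponent
  have hφ : Tendsto (fun n : ℕ => -(u * Real.log (1 + t)) +
      t * σ * ((U n : ℝ) / Real.log n ^ 2 * (MM (Z n) / Real.log n)⁻¹)) atTop (𝓝 (-(1 + 2 * δ))) := by
    have h1 := ((hU.mul (hZ.inv₀ one_ne_zero)).const_mul (t * σ)).const_add (-(u * Real.log (1 + t)))
    have h2 : -(u * Real.log (1 + t)) + t * σ * (C * 1⁻¹) = -(1 + 2 * δ) := by
      rw [hδ]
      ring
    rw [h2] at h1
    exact h1
  have hev : ∀ᶠ n : ℕ in atTop, P {ω | t * ((sv (fun p => a p ω) (ql n) n (U n) : ℝ) *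
        (MM (ql n) / U n)) ≤ t * σ ∧
        u * Real.log n * Real.log (1 + t) ≤ (sv (fun p => a p ω) (Z n) n (U n) : ℝ) * Real.log (1 + t)} ≤
      ENNReal.ofReal ((n : ℝ) ^ (-(1 + δ))) := by
    filter_upwards [hφ.eventually (gt_mem_nhds (show -(1 + 2 * δ) < -(1 + δ) by linarith)),
      U_le_ql hU, ql_le_Z hD hZ, hLog.eventually_gt_atTop 0, eventually_ge_atTop 1,
      hU.eventually (lt_mem_nhds hC)] with n h1 h2 h3 h4 h5 h6
    obtain ⟨F, hF⟩ : ∃ F : (ℕ → ℕ) → Prop, F = fun b => t * ((sv b (ql n) n (U n) : ℝ) *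
      (MM (ql n) / U n)) ≤ t * σ := ⟨_, rfl⟩
    obtain ⟨Φ, hΦ⟩ : ∃ Φ : (ℕ → ℕ) → ℝ, Φ = fun b => if F b then 1 else 0 := ⟨_, rfl⟩
    have hU0 : (0 : ℝ) < U n := by
      by_contra hc
      push Not at hc
      have : (U n : ℝ) = 0 := le_antisymm hc (Nat.cast_nonneg _)
      rw [this, zero_div] at h6
      exact lt_irrefl _ h6
    have hMZ : 0 < MM (Z n) := MM_pos _
    have hMq : 0 < MM (ql n) := MM_pos _
    have hdep : ∀ v : ℕ, Dep v (fun b => sv b v n (U n)) := by
      intro v b b' hb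
      exact sv_congr hb n (U n)
    have hFdep : ∀ b b' : ℕ → ℕ, (∀ p : ℕ, p.Prime → p ≤ ql n → b p % p = b' p % p) → F b = F b' := by
      intro b b' hb
      rw [hF]
      simp only
      rw [sv_congr hb n (U n)]
    have hΦdep : Dep (ql n) Φ := by
      intro b b' hb
      rw [hΦ]
      simp only
      rw [hFdep b b' hb]
    have hΦ0 : ∀ b, 0 ≤ Φ b := by
      intro b
      rw [hΦ]
      simp only
      split_ifs <;> norm_num
    have hupb := hB Ω P a hmod (ql n) (Z n) (U n) t Φ (fun _ => n) ht h2 h3 hΦdep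
      (fun _ _ _ => rfl) hΦ0
    have hint1 : Integrable (fun ω => Φ (fun p => a p ω) * (1 + t) ^ sv (fun p => a p ω) (Z n) n (U n)) P := by
      apply hI Ω P a hmod (Z n) (fun b => Φ b * (1 + t) ^ sv b (Z n) n (U n))
      intro b b' hb
      simp only
      rw [hΦdep b b' (fun p hp hpq => hb p hp (hpq.trans h3)), sv_congr hb n (U n)]
    have hint2 : Integrable (fun ω => Φ (fun p => a p ω) *
        (1 + t * (MM (ql n) / MM (Z n))) ^ sv (fun p => a p ω) (ql n) n (U n)) P := by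
      apply hI Ω P a hmod (ql n) (fun b => Φ b *
        (1 + t * (MM (ql n) / MM (Z n))) ^ sv b (ql n) n (U n))
      intro b b' hb
      simp only
      rw [hΦdep b b' hb, sv_congr hb n (U n)]
    have hρ0 : 0 < MM (ql n) / MM (Z n) := by positivity
    have hρ1 : MM (ql n) / MM (Z n) ≤ 1 := (div_le_one hMZ).2 (MM_mono h3)
    have hbase : 0 ≤ 1 + t * (MM (ql n) / MM (Z n)) := by
      rcases le_total 0 t with h0 | h0
      · positivity
      · nlinarith
    have hpt : ∀ b : ℕ → ℕ, Φ b * (1 + t * (MM (ql n) / MM (Z n))) ^ sv b (ql n) n (U n) ≤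
        Real.exp (t * σ * (U n / MM (Z n))) := by
      intro b
      rw [hΦ]
      simp only
      split_ifs with hb
      · rw [one_mul]
        have e1 : (1 + t * (MM (ql n) / MM (Z n))) ^ sv b (ql n) n (U n) ≤
            Real.exp (t * (MM (ql n) / MM (Z n))) ^ sv b (ql n) n (U n) := by
          apply pow_le_pow_left₀ hbase
          rw [add_comm]
          exact Real.add_one_le_exp _
        refine e1.trans ?_
        rw [← Real.exp_nat_mul]
        apply Real.exp_le_exp.2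
        rw [hF] at hb
        have e2 := mul_le_mul_of_nonneg_right hb (show 0 ≤ (U n : ℝ) / MM (Z n) by positivity)
        calc (sv b (ql n) n (U n) : ℝ) * (t * (MM (ql n) / MM (Z n))) =
            t * ((sv b (ql n) n (U n) : ℝ) * (MM (ql n) / U n)) * (U n / MM (Z n)) := by
              field_simp
          _ ≤ _ := e2
      · rw [zero_mul]
        exact (Real.exp_pos _).le
    have hint : ∫ ω, Φ (fun p => a p ω) * (1 + t) ^ sv (fun p => a p ω) (Z n) n (U n) ∂P ≤
        Real.exp (t * σ * (U n / MM (Z n))) := by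
      refine hupb.trans ?_
      calc ∫ ω, Φ (fun p => a p ω) *
            (1 + t * (MM (ql n) / MM (Z n))) ^ sv (fun p => a p ω) (ql n) n (U n) ∂P
          ≤ ∫ _ω, Real.exp (t * σ * (U n / MM (Z n))) ∂P :=
            integral_mono hint2 (integrable_const _) fun ω => hpt _
        _ = _ := by simp
    obtain ⟨e₀, he₀⟩ : ∃ e₀ : ℝ, e₀ = Real.exp (u * Real.log n * Real.log (1 + t)) := ⟨_, rfl⟩
    have he0 : 0 < e₀ := by rw [he₀]; exact Real.exp_pos _
    have hnn : 0 ≤ᵐ[P] (fun ω => Φ (fun p => a p ω) * (1 + t) ^ sv (fun p => a p ω) (Z n) n (U n)) := by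
      apply Eventually.of_forall
      intro ω
      exact mul_nonneg (hΦ0 _) (pow_nonneg (by linarith) _)
    have hmarkov := mul_meas_ge_le_integral_of_nonneg hnn hint1 e₀
    have hsub : {ω | t * ((sv (fun p => a p ω) (ql n) n (U n) : ℝ) *
        (MM (ql n) / U n)) ≤ t * σ ∧
        u * Real.log n * Real.log (1 + t) ≤ (sv (fun p => a p ω) (Z n) n (U n) : ℝ) * Real.log (1 + t)} ⊆
        {ω | e₀ ≤ Φ (fun p => a p ω) * (1 + t) ^ sv (fun p => a p ω) (Z n) n (U n)} := by
      intro ω hω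
      simp only [Set.mem_ofPred_eq] at hω ⊢
      have hFω : F (fun p => a p ω) := by
        rw [hF]
        exact hω.1
      rw [hΦ]
      simp only
      rw [if_pos hFω, one_mul, he₀]
      calc Real.exp (u * Real.log n * Real.log (1 + t)) ≤
          Real.exp ((sv (fun p => a p ω) (Z n) n (U n) : ℝ) * Real.log (1 + t)) := Real.exp_le_exp.2 hω.2
        _ = _ := by rw [Real.exp_nat_mul, Real.exp_log (by linarith)]
    refine (measure_mono hsub).trans ?_
    have h7 : P.real {ω | e₀ ≤ Φ (fun p => a p ω) * (1 + t) ^ sv (fun p => a p ω) (Z n) n (U n)} ≤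
        (n : ℝ) ^ (-(1 + δ)) := by
      have h8 : e₀ * P.real {ω | e₀ ≤ Φ (fun p => a p ω) * (1 + t) ^ sv (fun p => a p ω) (Z n) n (U n)} ≤
          Real.exp (t * σ * (U n / MM (Z n))) := hmarkov.trans hint
      have h9 : Real.exp (t * σ * (U n / MM (Z n))) ≤ e₀ * (n : ℝ) ^ (-(1 + δ)) := by
        have hn0 : (0 : ℝ) < n := by exact_mod_cast h5
        rw [he₀, Real.rpow_def_of_pos hn0, ← Real.exp_add]
        apply Real.exp_le_exp.2
        have h10 : t * σ * ((U n : ℝ) / Real.log n ^ 2 * (MM (Z n) / Real.log n)⁻¹) * Real.log n =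
            t * σ * (U n / MM (Z n)) := by
          field_simp
        have h11 := mul_le_mul_of_nonneg_right h1.le h4.le
        rw [add_mul, h10] at h11
        linarith
      have h12 := h8.trans h9
      exact le_of_mul_le_mul_left h12 he0
    rw [← ENNReal.ofReal_toReal (measure_ne_top P _)]
    exact ENNReal.ofReal_le_ofReal h7
  obtain ⟨n0, hn0⟩ := eventually_atTop.1 hev
  have hsum : ∑' n : ℕ, P {ω | t * ((sv (fun p => a p ω) (ql (n + n0)) (n + n0) (U (n + n0)) : ℝ) *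
        (MM (ql (n + n0)) / U (n + n0))) ≤ t * σ ∧
        u * Real.log ((n + n0 : ℕ) : ℝ) * Real.log (1 + t) ≤
          (sv (fun p => a p ω) (Z (n + n0)) (n + n0) (U (n + n0)) : ℝ) * Real.log (1 + t)} ≠ ⊤ := by
    have h2 : Summable fun n : ℕ => ((n + n0 : ℕ) : ℝ) ^ (-(1 + δ)) :=
      (summable_nat_add_iff (f := fun n : ℕ => (n : ℝ) ^ (-(1 + δ))) n0).2
        (Real.summable_nat_rpow.2 (by linarith))
    exact ne_top_of_le_ne_top (h2.tsum_ofReal_ne_top)
      (ENNReal.tsum_le_tsum fun n => hn0 (n + n0) (by omega))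
  filter_upwards [ae_eventually_notMem hsum] with ω hω
  obtain ⟨m, hm⟩ := eventually_atTop.1 hω
  filter_upwards [eventually_ge_atTop (m + n0)] with n hn
  have := hm (n - n0) (by omega)
  rwa [Nat.sub_add_cancel (by omega)] at this

/-- the densities at the level `ql n` -/
theorem dens (hT : S_TRC) (hE : S_EXD) {C ε : ℝ} (hC : 0 < C) (hε : 0 < ε) {U : ℕ → ℕ}
    (hU : Tendsto (fun n : ℕ => (U n : ℝ) / Real.log n ^ 2) atTop (𝓝 C)) (b : ℕ → ℕ) (hb : ConA b) :
    ∀ᶠ n : ℕ in atTop, lo (Nat.sqrt (U n)) 2 - 2 * ε ≤ (sv b (ql n) n (U n) : ℝ) * (MM (ql n) / U n) ∧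
      (sv b (ql n) n (U n) : ℝ) * (MM (ql n) / U n) ≤ hi (Nat.sqrt (U n)) 2 + 2 * ε := by
  obtain ⟨C', hC'⟩ : ∃ C' : ℝ, C' = max (2 * C) (2 / C) := ⟨_, rfl⟩
  have hC1 : 2 * C ≤ C' := by rw [hC']; exact le_max_left _ _
  have hC2 : 2 / C ≤ C' := by rw [hC']; exact le_max_right _ _
  have hC0 : 0 < C' := by linarith
  have hC3 : 1 ≤ C' := by
    rcases le_total 1 C with h | h
    · linarith
    · have : 1 ≤ 2 / C := by rw [le_div_iff₀ hC]; linarith
      linarith
  obtain ⟨η₁, h1, h1', hTR⟩ := hT C' ε hC3 hε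
  obtain ⟨η₂, h2, h2', hEX⟩ := hE C' ε hC3 hε
  have hpw : ∀ η : ℝ, 0 < η → ∀ᶠ n : ℕ in atTop, 2 ≤ Real.log n ^ η := fun η hη =>
    ((tendsto_rpow_atTop hη).comp hLog).eventually_ge_atTop 2
  filter_upwards [hTR b hb, hEX, hpw η₁ h1, hpw η₂ h2, hLog.eventually_ge_atTop 1, ql_bd,
    hU.eventually (gt_mem_nhds (show C < 2 * C by linarith)),
    hU.eventually (lt_mem_nhds (show C / 2 < C by linarith))] with n e1 e2 e3 e4 e5 e6 e7 e8
  have hL : 0 < Real.log (n : ℝ) := by linarith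
  rw [div_lt_iff₀ (by positivity)] at e7
  rw [lt_div_iff₀ (by positivity)] at e8
  have hUa : Real.log n ^ 2 / C' ≤ U n := by
    rw [div_le_iff₀ hC0]
    have h3 : C / 2 * C' ≥ 1 := by
      have := mul_le_mul_of_nonneg_left hC2 (show 0 ≤ C / 2 by linarith)
      have e : C / 2 * (2 / C) = 1 := by field_simp
      linarith
    have h4 := mul_le_mul_of_nonneg_right e8.le hC0.le
    have h5 : 0 ≤ Real.log (n : ℝ) ^ 2 := by positivity
    nlinarith
  have hUb : (U n : ℝ) ≤ C' * Real.log n ^ 2 :=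
    e7.le.trans (mul_le_mul_of_nonneg_right hC1 (by positivity))
  have hv1 : Real.log n ≤ (⌈Real.log n⌉₊ : ℝ) := Nat.le_ceil _
  have hv2 : (⌈Real.log n⌉₊ : ℝ) ≤ 2 * Real.log n := by
    have := Nat.ceil_lt_add_one hL.le
    linarith
  have hv3 : ∀ η : ℝ, 0 < η → Real.log n ^ (1 - η) ≤ (⌈Real.log n⌉₊ : ℝ) := by
    intro η hη
    refine le_trans ?_ hv1
    calc Real.log n ^ (1 - η) ≤ Real.log n ^ (1 : ℝ) :=
          Real.rpow_le_rpow_of_exponent_le e5 (by linarith)
      _ = _ := Real.rpow_one _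
  have hv4 : ∀ η : ℝ, 2 ≤ Real.log n ^ η → (⌈Real.log n⌉₊ : ℝ) ≤ Real.log n ^ (1 + η) := by
    intro η hη
    refine hv2.trans ?_
    rw [Real.rpow_add hL, Real.rpow_one, mul_comm]
    exact mul_le_mul_of_nonneg_left hη hL.le
  have f1 := e1 (U n) (ql n) ⌈Real.log n⌉₊ hUa hUb e6.1 e6.2 (hv3 η₁ h1) (hv4 η₁ e3)
  have f2 := e2 b n (U n) ⌈Real.log n⌉₊ hUa hUb (hv3 η₂ h2) (hv4 η₂ e4)
  rw [abs_le] at f1
  constructor <;> linarith [f1.1, f1.2, f2.1, f2.2]

lemma sqrt_tend {C : ℝ} (hC : 0 < C) {U : ℕ → ℕ}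
    (hU : Tendsto (fun n : ℕ => (U n : ℝ) / Real.log n ^ 2) atTop (𝓝 C)) :
    Tendsto (fun n : ℕ => Nat.sqrt (U n)) atTop atTop := by
  rw [tendsto_atTop]
  intro m
  have h1 : Tendsto (fun n : ℕ => Real.log (n : ℝ) ^ 2) atTop atTop :=
    (tendsto_pow_atTop (by norm_num)).comp hLog
  filter_upwards [h1.eventually_ge_atTop ((m : ℝ) * m / (C / 2)),
    hU.eventually (lt_mem_nhds (show C / 2 < C by linarith)), hLog.eventually_ge_atTop 1] with n h2 h3 h4
  rw [Nat.le_sqrt]
  have hL : 0 < Real.log (n : ℝ) := by linarith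
  rw [lt_div_iff₀ (by positivity)] at h3
  rw [div_le_iff₀ (by positivity)] at h2
  have h5 : ((m * m : ℕ) : ℝ) ≤ U n := by
    push_cast
    linarith
  exact_mod_cast h5

end Pool.Agent.H50.CW.UPXx

namespace Pool.Agent.H50.CW

open UPXx

/-- UPX -/
theorem upx (hA : S_CONA) (hT : S_TRC) (hE : S_EXD) (hI : S_DPI) (hB : S_UPB)
    (hD : Pool.Agent.H50.BF.S_DSUM) : S_UPX := by
  intro Ω _ P a hmod C t u σ hC ht hσ h U Z hU hZ
  constructor
  · intro ht0 hhi
    obtain ⟨ε, hε0, hε⟩ : ∃ ε : ℝ, 0 < ε ∧ 1 < u * Real.log (1 + t) - t * (C * (σ + 3 * ε)) := by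
      refine ⟨(u * Real.log (1 + t) - t * (C * σ) - 1) / (6 * t * C), by
        apply div_pos (by linarith) (by positivity), ?_⟩
      have e : t * (C * (σ + 3 * ((u * Real.log (1 + t) - t * (C * σ) - 1) / (6 * t * C)))) =
          t * (C * σ) + (u * Real.log (1 + t) - t * (C * σ) - 1) / 2 := by
        field_simp
        ring
      rw [e]
      linarith
    filter_upwards [core hI hB hD hmod hC ht hε hU hZ, hA Ω P a hmod] with ω h1 h2
    have h3 := dens hT hE hC hε0 hU _ h2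
    have h4 := (sqrt_tend hC hU).eventually (hhi ε hε0)
    filter_upwards [h1, h3, h4] with n e1 e2 e3
    by_contra hcon
    push Not at hcon
    apply e1
    have hl : 0 < Real.log (1 + t) := Real.log_pos (by linarith)
    constructor
    · apply mul_le_mul_of_nonneg_left _ ht0.le
      linarith [e2.2]
    · exact mul_le_mul_of_nonneg_right hcon hl.le
  · intro ht0 hlo
    obtain ⟨ε, hε0, hε⟩ : ∃ ε : ℝ, 0 < ε ∧ 1 < u * Real.log (1 + t) - t * (C * (σ - 3 * ε)) := by
      have htn : 0 < -t := by linarith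
      refine ⟨(u * Real.log (1 + t) - t * (C * σ) - 1) / (6 * (-t) * C), by
        apply div_pos (by linarith) (by positivity), ?_⟩
      have e : t * (C * (σ - 3 * ((u * Real.log (1 + t) - t * (C * σ) - 1) / (6 * (-t) * C)))) =
          t * (C * σ) + (u * Real.log (1 + t) - t * (C * σ) - 1) / 2 := by
        have : t ≠ 0 := ht0.ne
        field_simp
        ring
      rw [e]
      linarith
    filter_upwards [core hI hB hD hmod hC ht hε hU hZ, hA Ω P a hmod] with ω h1 h2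
    have h3 := dens hT hE hC hε0 hU _ h2
    have h4 := (sqrt_tend hC hU).eventually (hlo ε hε0)
    filter_upwards [h1, h3, h4] with n e1 e2 e3
    by_contra hcon
    push Not at hcon
    apply e1
    have hl : Real.log (1 + t) < 0 := Real.log_neg (by linarith) (by linarith)
    constructor
    · apply mul_le_mul_of_nonpos_left _ ht0.le
      linarith [e2.1]
    · exact mul_le_mul_of_nonpos_right hcon hl.le

end Pool.Agent.H50.CW
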