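import Pool.Agent.H50.CW.Stm

/-! CW-WIN (helper63): the classes modulo a prime `p ≥ U` in a window of length `U` -/

set_option autoImplicit false

namespace Pool.Agent.H50.CW

open Pool.Agent.H50.BF Finset

theorem win : S_WIN := by
  classical
  intro a n U p hp hU
  have hp0 : 0 < p := hp.pos
  refine ⟨?_, ?_, ?_, ?_⟩
  · have h := Finset.card_filter_add_card_filter_not
      (s := (range U).filter (fun k => ∀ q : ℕ, q.Prime → q ≤ p - 1 → (n + k + 1) % q ≠ a q % q))
      (fun k => (n + k + 1) % p = a p % p)
    rw [filter_filter, filter_filter] at h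
    have e : (range U).filter (fun k => ∀ q : ℕ, q.Prime → q ≤ p → (n + k + 1) % q ≠ a q % q) =
        (range U).filter (fun k => (∀ q : ℕ, q.Prime → q ≤ p - 1 → (n + k + 1) % q ≠ a q % q) ∧
          ¬ (n + k + 1) % p = a p % p) := by
      refine filter_congr fun k _ => ⟨fun h1 => ⟨fun q hq hqp => h1 q hq (by omega),
        h1 p hp le_rfl⟩, fun h1 q hq hqp => ?_⟩
      rcases Nat.lt_or_ge q p with h2 | h2
      · exact h1.1 q hq (by omega)
      · have : q = p := le_antisymm hqp h2
        subst this
        exact h1.2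
    unfold sv cls
    rw [e]
    omega
  · intro r hr
    unfold cls
    rw [card_le_one]
    intro k hk k' hk'
    rw [mem_filter, mem_range] at hk hk'
    have h1 : n + k + 1 ≡ n + k' + 1 [MOD p] := hk.2.2.trans hk'.2.2.symm
    have h2 : k ≡ k' [MOD p] := Nat.ModEq.add_left_cancel' n (Nat.ModEq.add_right_cancel' 1 h1)
    exact h2.eq_of_lt_of_lt (by omega) (by omega)
  · unfold cls sv
    rw [card_eq_sum_card_fiberwise (f := fun k => (n + k + 1) % p) (t := range p)]
    · refine sum_congr rfl fun r _ => ?_
      rw [filter_filter]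
    · intro k _
      simp only [coe_range, Set.mem_Iio]
      exact Nat.mod_lt _ hp0
  · intro n' hn'
    unfold prs
    rw [card_eq_sum_card_fiberwise (s := (range U ×ˢ range U).filter
      (fun kk => p ∣ (n' + kk.2) - (n + kk.1))) (f := fun kk => (n + kk.1 + 1) % p) (t := range p)]
    · refine sum_le_sum fun r _ => ?_
      unfold cls
      rw [← card_product]
      refine card_le_card fun kk hkk => ?_
      rw [mem_product, mem_filter, mem_filter, mem_range, mem_range] at hkk
      rw [mem_filter, mem_filter, mem_product, mem_range, mem_range]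
      refine ⟨⟨⟨hkk.1.1, hkk.2.1⟩, ?_⟩, hkk.1.2.2⟩
      have h1 : n + kk.1 + 1 ≡ n' + kk.2 + 1 [MOD p] := hkk.1.2.2.trans hkk.2.2.2.symm
      have h2 : n + kk.1 ≡ n' + kk.2 [MOD p] := Nat.ModEq.add_right_cancel' 1 h1
      exact (Nat.modEq_iff_dvd' (by omega)).1 h2
    · intro k _
      simp only [coe_range, Set.mem_Iio]
      exact Nat.mod_lt _ hp0

end Pool.Agent.H50.CW
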